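import Pool.Agent.Lib.MP_5a1161_co_h27.Defs

set_option autoImplicit false

namespace Pool.Agent.MP_5a1161_co

/-- The vector `(1, t, t ^ 2, ..., t ^ D)`. -/
private noncomputable def mom (D : ℕ) (t : ℕ) : Sp (D + 1) :=
  WithLp.toLp 2 fun i => (t : ℝ) ^ (i : ℕ)

private lemma mom_apply (D t : ℕ) (i : Fin (D + 1)) : mom D t i = (t : ℝ) ^ (i : ℕ) := rfl

private lemma mom_inj (D : ℕ) (hD : 1 ≤ D) : Function.Injective (mom D) := by
  intro s t h
  have h1 : mom D s ⟨1, by omega⟩ = mom D t ⟨1, by omega⟩ := by rw [h]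
  rw [mom_apply, mom_apply] at h1
  simpa using h1

private lemma inner_mom (D t : ℕ) (ν : Sp (D + 1)) :
    inner ℝ ν (mom D t) = ∑ i : Fin (D + 1), ν i * (t : ℝ) ^ (i : ℕ) := by
  rw [PiLp.inner_apply]
  refine Finset.sum_congr rfl fun i _ => ?_
  rw [mom_apply]
  simp [mul_comm]

private lemma exists_ne (D : ℕ) (S : Finset ℕ) (hS : S.card = D + 1) (ν : Sp (D + 1))
    (hν : ν ≠ 0) : ∃ t ∈ S, inner ℝ ν (mom D t) ≠ 0 := by
  by_contra hcon
  push Not at hcon
  apply hν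
  set p : Polynomial ℝ := ∑ i : Fin (D + 1), Polynomial.C (ν i) * Polynomial.X ^ (i : ℕ) with hp
  have hdeg : p.natDegree < D + 1 := by
    have : p.natDegree ≤ D := by
      rw [hp]
      refine Polynomial.natDegree_sum_le_of_forall_le _ _ fun i _ => ?_
      refine (Polynomial.natDegree_C_mul_X_pow_le _ _).trans ?_
      have := i.2
      omega
    omega
  have hp0 : p = 0 := by
    refine Polynomial.eq_zero_of_natDegree_lt_card_of_eval_eq_zero' p
      (S.image fun t : ℕ => (t : ℝ)) ?_ ?_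
    · intro r hr
      obtain ⟨t, ht, rfl⟩ := Finset.mem_image.1 hr
      have := hcon t ht
      rw [inner_mom] at this
      rw [hp, Polynomial.eval_finsetSum]
      simpa using this
    · rw [Finset.card_image_of_injective _ Nat.cast_injective, hS]
      exact hdeg
  ext i
  have hc : p.coeff i = 0 := by rw [hp0]; simp
  rw [hp, Polynomial.finsetSum_coeff] at hc
  rw [Finset.sum_eq_single i] at hc
  · simpa using hc
  · intro j _ hj
    rw [Polynomial.coeff_C_mul_X_pow, if_neg]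
    intro h
    exact hj (Fin.ext h.symm)
  · intro h
    exact absurd (Finset.mem_univ _) h

private lemma exists_const (D : ℕ) (S : Finset ℕ) (hS : S.card = D + 1) :
    ∃ c : ℝ, 0 < c ∧ ∀ ν : Sp (D + 1), ‖ν‖ = 1 → ∃ t ∈ S, c ≤ |inner ℝ ν (mom D t)| := by
  have hne : S.Nonempty := by
    rw [← Finset.card_pos, hS]
    omega
  set g : Sp (D + 1) → ℝ := fun ν => S.sup' hne fun t => |inner ℝ ν (mom D t)| with hg
  have hcont : Continuous g := by
    rw [hg]
    refine Continuous.finset_sup'_apply hne fun t _ => ?_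
    fun_prop
  have hcomp : IsCompact (Metric.sphere (0 : Sp (D + 1)) 1) := isCompact_sphere _ _
  have hnes : (Metric.sphere (0 : Sp (D + 1)) 1).Nonempty := by
    refine ⟨EuclideanSpace.single 0 (1 : ℝ), ?_⟩
    simp
  obtain ⟨ν₀, hν₀, hmin⟩ := hcomp.exists_isMinOn hnes hcont.continuousOn
  have hν₀' : ν₀ ≠ 0 := by
    rintro rfl
    simp at hν₀
  refine ⟨g ν₀, ?_, fun ν hν => ?_⟩
  · obtain ⟨t, ht, hne0⟩ := exists_ne D S hS ν₀ hν₀'
    rw [hg]
    exact lt_of_lt_of_le (abs_pos.2 hne0)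
      (Finset.le_sup' (fun t => |inner ℝ ν₀ (mom D t)|) ht)
  · have h1 : g ν₀ ≤ g ν := hmin (by simpa using hν)
    obtain ⟨t, ht, hte⟩ := Finset.exists_mem_eq_sup' hne fun t => |inner ℝ ν (mom D t)|
    refine ⟨t, ht, ?_⟩
    rw [← hte]
    exact h1

private lemma exists_unif (D N : ℕ) : ∃ c : ℝ, 0 < c ∧ ∀ S ∈ (Finset.range N).powersetCard (D + 1),
    ∀ ν : Sp (D + 1), ‖ν‖ = 1 → ∃ t ∈ S, c ≤ |inner ℝ ν (mom D t)| := by
  by_cases hT : ((Finset.range N).powersetCard (D + 1)).Nonempty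
  · have key : ∀ S : Finset ℕ, ∃ c : ℝ, 0 < c ∧ (S.card = D + 1 → ∀ ν : Sp (D + 1), ‖ν‖ = 1 →
        ∃ t ∈ S, c ≤ |inner ℝ ν (mom D t)|) := by
      intro S
      by_cases hS : S.card = D + 1
      · obtain ⟨c, hc, h⟩ := exists_const D S hS
        exact ⟨c, hc, fun _ => h⟩
      · exact ⟨1, one_pos, fun h => absurd h hS⟩
    choose c hc hcS using key
    obtain ⟨S₀, hS₀, hmin⟩ := Finset.exists_min_image _ c hT
    refine ⟨c S₀, hc S₀, fun S hS ν hν => ?_⟩
    obtain ⟨t, ht, hle⟩ := hcS S (Finset.mem_powersetCard.1 hS).2 ν hν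
    exact ⟨t, ht, (hmin S hS).trans hle⟩
  · refine ⟨1, one_pos, fun S hS => ?_⟩
    exact absurd ⟨S, hS⟩ hT

private lemma two_dirs (D N : ℕ) (hD : 1 ≤ D) (s t : ℕ) (ht : t < N) (hst : s ≠ t)
    (α β : ℝ) : 1 / (1 + (N : ℝ)) * |α| ≤ ‖α • mom D s - β • mom D t‖ := by
  set v := α • mom D s - β • mom D t with hv
  have h0 : v 0 = α - β := by
    rw [hv]
    simp [mom_apply]
  have h1 : v ⟨1, by omega⟩ = α * s - β * t := by
    rw [hv]
    simp [mom_apply]
  have hn0 : |v 0| ≤ ‖v‖ := by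
    have := PiLp.norm_apply_le v 0
    rwa [Real.norm_eq_abs] at this
  have hn1 : |v ⟨1, by omega⟩| ≤ ‖v‖ := by
    have := PiLp.norm_apply_le v ⟨1, by omega⟩
    rwa [Real.norm_eq_abs] at this
  rw [h0] at hn0
  rw [h1] at hn1
  have hst1 : (1 : ℝ) ≤ |(s : ℝ) - t| := by
    have : (1 : ℤ) ≤ |(s : ℤ) - t| := by
      apply Int.one_le_abs
      intro h
      apply hst
      omega
    have h2 : ((1 : ℤ) : ℝ) ≤ ((|(s : ℤ) - t| : ℤ) : ℝ) := by exact_mod_cast this
    simpa using h2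
  have hid : α * ((s : ℝ) - t) = (α * s - β * t) - t * (α - β) := by ring
  have hle : |α| * |(s : ℝ) - t| ≤ ‖v‖ + t * ‖v‖ := by
    rw [← abs_mul, hid]
    refine (abs_sub _ _).trans ?_
    rw [abs_mul, Nat.abs_cast]
    have : (0 : ℝ) ≤ t := Nat.cast_nonneg _
    nlinarith [mul_le_mul_of_nonneg_left hn0 this]
  have htN : (t : ℝ) ≤ N := by exact_mod_cast ht.le
  have hvn : 0 ≤ ‖v‖ := norm_nonneg _
  have hα : |α| ≤ (1 + (N : ℝ)) * ‖v‖ := by
    have h3 : |α| ≤ |α| * |(s : ℝ) - t| := by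
      nlinarith [abs_nonneg α]
    nlinarith [mul_le_mul_of_nonneg_right htN hvn]
  have hN : (0 : ℝ) < 1 + N := by positivity
  rw [one_div, inv_mul_le_iff₀ hN]
  exact hα

/-- A finite set of directions such that any `D + 1` unit vectors are transversal, with a uniform
constant, to `D + 2` of the directions. -/
theorem dirs (D : ℕ) (hD : 1 ≤ D) : ∃ (W : Finset (Sp (D + 1))) (c₀ c₁ Λ : ℝ),
    0 < c₀ ∧ 0 < c₁ ∧ 0 < Λ ∧ (∀ w ∈ W, w 0 = 1) ∧ (∀ w ∈ W, ‖w‖ ≤ Λ) ∧
    (∀ ν : Fin (D + 1) → Sp (D + 1), (∀ k, ‖ν k‖ = 1) → ∃ ω : Fin (D + 2) → Sp (D + 1),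
      Function.Injective ω ∧ (∀ a, ω a ∈ W) ∧ ∀ a k, c₀ ≤ |inner ℝ (ν k) (ω a)|) ∧
    ∀ w ∈ W, ∀ w' ∈ W, w ≠ w' → ∀ α β : ℝ, c₁ * |α| ≤ ‖α • w - β • w'‖ := by
  classical
  set N : ℕ := (D + 1) ^ 2 + 1 with hN
  obtain ⟨c₀, hc₀, hc⟩ := exists_unif D N
  refine ⟨(Finset.range N).image (mom D), c₀, 1 / (1 + (N : ℝ)),
    ∑ t ∈ Finset.range N, ‖mom D t‖ + 1, hc₀, by positivity, by positivity, ?_, ?_, ?_, ?_⟩
  · intro w hw
    obtain ⟨t, _, rfl⟩ := Finset.mem_image.1 hw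
    rw [mom_apply]
    simp
  · intro w hw
    obtain ⟨t, ht, rfl⟩ := Finset.mem_image.1 hw
    have : ‖mom D t‖ ≤ ∑ t ∈ Finset.range N, ‖mom D t‖ :=
      Finset.single_le_sum (f := fun t => ‖mom D t‖) (fun _ _ => norm_nonneg _) ht
    linarith
  · intro ν hν
    set bad : Fin (D + 1) → Finset ℕ := fun k =>
      (Finset.range N).filter fun t => |inner ℝ (ν k) (mom D t)| < c₀ with hbad
    have hbadc : ∀ k, (bad k).card ≤ D := by
      intro k
      by_contra hcon
      push Not at hcon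
      obtain ⟨S, hS, hScard⟩ := Finset.exists_subset_card_eq (show D + 1 ≤ (bad k).card from hcon)
      obtain ⟨t, ht, hle⟩ := hc S (Finset.mem_powersetCard.2
        ⟨hS.trans (Finset.filter_subset _ _), hScard⟩) (ν k) (hν k)
      have := (Finset.mem_filter.1 (hS ht)).2
      linarith
    set good : Finset ℕ := Finset.range N \ Finset.univ.biUnion bad with hgood
    have hbu : (Finset.univ.biUnion bad).card ≤ (D + 1) * D := by
      refine (Finset.card_biUnion_le).trans ?_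
      refine (Finset.sum_le_sum fun k _ => hbadc k).trans ?_
      simp
    have hgc : D + 2 ≤ good.card := by
      have h1 := Finset.le_card_sdiff (Finset.univ.biUnion bad) (Finset.range N)
      rw [Finset.card_range] at h1
      rw [hgood]
      have h2 : (D + 1) ^ 2 + 1 = (D + 1) * D + (D + 2) := by ring
      omega
    obtain ⟨T, hT, hTc⟩ := Finset.exists_subset_card_eq hgc
    refine ⟨fun a => mom D (T.orderEmbOfFin hTc a), ?_, ?_, ?_⟩
    · intro a b hab
      exact (T.orderEmbOfFin hTc).injective (mom_inj D hD hab)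
    · intro a
      have h1 := hT (Finset.orderEmbOfFin_mem T hTc a)
      rw [hgood] at h1
      exact Finset.mem_image_of_mem _ (Finset.mem_sdiff.1 h1).1
    · intro a k
      have h1 := hT (Finset.orderEmbOfFin_mem T hTc a)
      rw [hgood] at h1
      by_contra hcon
      push Not at hcon
      refine (Finset.mem_sdiff.1 h1).2 (Finset.mem_biUnion.2 ⟨k, Finset.mem_univ _, ?_⟩)
      rw [hbad]
      exact Finset.mem_filter.2 ⟨(Finset.mem_sdiff.1 h1).1, hcon⟩
  · intro w hw w' hw' hne α β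
    obtain ⟨s, _, rfl⟩ := Finset.mem_image.1 hw
    obtain ⟨t, ht, rfl⟩ := Finset.mem_image.1 hw'
    exact two_dirs D N hD s t (Finset.mem_range.1 ht) (fun h => hne (by rw [h])) α β

end Pool.Agent.MP_5a1161_co
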