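import Pool.Agent.Lib.MP_5a1161_co_h27.Defs

set_option autoImplicit false

namespace Pool.Agent.MP_5a1161_co

/-- in a large set there is a long chain such that the colour of an `(r+1)`-set only depends on
its first member -/
private theorem ramsey_chain (r : ℕ) (κ : Type)
    (IH : ∀ t : ℕ, ∃ N : ℕ, ∀ (V : Type) [LinearOrder V] (col : Finset V → κ) (S : Finset V),
      N ≤ S.card → ∃ S' ⊆ S, S'.card = t ∧ ∃ c, ∀ R ⊆ S', R.card = r → col R = c) (l : ℕ) :
    ∃ N : ℕ, ∀ (V : Type) [LinearOrder V] (col : Finset V → κ) (S : Finset V), N ≤ S.card →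
      ∃ L ⊆ S, L.card = l ∧ ∃ g : V → κ, ∀ R ⊆ L, R.card = r + 1 →
        ∀ a ∈ R, (∀ b ∈ R, a ≤ b) → col R = g a := by
  induction l with
  | zero =>
    refine ⟨0, fun V _ col S _ => ⟨∅, Finset.empty_subset _, rfl, fun _ => col ∅, ?_⟩⟩
    intro R hR hc
    rw [Finset.subset_empty.1 hR] at hc
    simp at hc
  | succ l ihl =>
    obtain ⟨M, hM⟩ := ihl
    obtain ⟨N, hN⟩ := IH M
    refine ⟨N + 1, fun V _ col S hS => ?_⟩
    have hne : S.Nonempty := Finset.card_pos.1 (by omega)
    obtain ⟨x, hx, hmin⟩ : ∃ x ∈ S, ∀ b ∈ S, x ≤ b :=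
      ⟨S.min' hne, S.min'_mem hne, fun b hb => S.min'_le b hb⟩
    have hcard : N ≤ (S.erase x).card := by
      rw [Finset.card_erase_of_mem hx]; omega
    obtain ⟨S1, hS1, hS1c, c, hc⟩ := hN V (fun R => col (insert x R)) (S.erase x) hcard
    obtain ⟨L1, hL1, hL1c, g1, hg1⟩ := hM V col S1 (by omega)
    have hx1 : x ∉ L1 := fun h => (Finset.mem_erase.1 (hS1 (hL1 h))).1 rfl
    refine ⟨insert x L1, ?_, ?_, fun v => if v = x then c else g1 v, ?_⟩
    · intro y hy
      rcases Finset.mem_insert.1 hy with rfl | hy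
      · exact hx
      · exact (Finset.mem_erase.1 (hS1 (hL1 hy))).2
    · rw [Finset.card_insert_of_notMem hx1, hL1c]
    · intro R hR hRc a ha hamin
      by_cases hxR : x ∈ R
      · have hax : a = x := by
          refine le_antisymm (hamin x hxR) (hmin a ?_)
          rcases Finset.mem_insert.1 (hR ha) with h | h
          · rw [h]; exact hx
          · exact (Finset.mem_erase.1 (hS1 (hL1 h))).2
        have h1 : R.erase x ⊆ S1 := by
          intro y hy
          obtain ⟨hy1, hy2⟩ := Finset.mem_erase.1 hy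
          rcases Finset.mem_insert.1 (hR hy2) with h | h
          · exact absurd h hy1
          · exact hL1 h
        have h2 : (R.erase x).card = r := by
          rw [Finset.card_erase_of_mem hxR]; omega
        have h3 := hc (R.erase x) h1 h2
        simp only [Finset.insert_erase hxR] at h3
        simp [hax, h3]
      · have h1 : R ⊆ L1 := by
          intro y hy
          rcases Finset.mem_insert.1 (hR hy) with h | h
          · exact absurd (h ▸ hy) hxR
          · exact h
        have hax : a ≠ x := fun h => hxR (h ▸ ha)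
        simp only [hax, if_false]
        exact hg1 R h1 hRc a ha hamin

/-- The finite Ramsey theorem for `r`-sets and finitely many colours. -/
theorem ramsey (r : ℕ) (κ : Type) [Finite κ] (t : ℕ) : ∃ N : ℕ, ∀ (V : Type) [LinearOrder V]
    (col : Finset V → κ) (S : Finset V), N ≤ S.card →
    ∃ S' ⊆ S, S'.card = t ∧ ∃ c, ∀ R ⊆ S', R.card = r → col R = c := by
  induction r generalizing t with
  | zero =>
    refine ⟨t, fun V _ col S hS => ?_⟩
    obtain ⟨S', hS', hc⟩ := Finset.exists_subset_card_eq hS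
    refine ⟨S', hS', hc, col ∅, fun R _ hR => ?_⟩
    rw [Finset.card_eq_zero.1 hR]
  | succ r ih =>
    haveI := Fintype.ofFinite κ
    obtain ⟨N, hN⟩ := ramsey_chain r κ ih (Fintype.card κ * t)
    refine ⟨N, fun V _ col S hS => ?_⟩
    obtain ⟨L, hL, hLc, g, hg⟩ := hN V col S hS
    haveI : Nonempty κ := ⟨col ∅⟩
    classical
    obtain ⟨k, -, hk⟩ := Finset.exists_le_card_fiber_of_mul_le_card_of_maps_to
      (s := L) (t := (Finset.univ : Finset κ)) (f := g) (n := t)
      (fun a _ => Finset.mem_univ _) Finset.univ_nonempty (by rw [hLc, Finset.card_univ])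
    obtain ⟨S', hS', hc⟩ := Finset.exists_subset_card_eq hk
    refine ⟨S', (hS'.trans (Finset.filter_subset _ _)).trans hL, hc, k, fun R hR hRc => ?_⟩
    have hRne : R.Nonempty := Finset.card_pos.1 (by omega)
    rw [hg R ((hR.trans hS').trans (Finset.filter_subset _ _)) hRc (R.min' hRne)
      (R.min'_mem hRne) (fun b hb => R.min'_le b hb)]
    exact (Finset.mem_filter.1 (hS' (hR (R.min'_mem hRne)))).2

end Pool.Agent.MP_5a1161_co
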