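import Pool.Agent.Lib.MP_5a1161_co_h27.Warren
import Pool.Agent.Lib.MP_5a1161_co_h27.Ramsey

set_option autoImplicit false

namespace Pool.Agent.MP_5a1161_co

open MvPolynomial Topology

private theorem exists_v (D β : ℕ) : ∃ v : ℕ, 1 ≤ v ∧ (D * (v * β + 2) + 1) ^ D < 2 ^ v := by
  have h := tendsto_pow_const_div_const_pow_of_one_lt D (r := (2 : ℝ)) (by norm_num)
  set C : ℝ := ((D * β + 2 * D + 1 : ℕ) : ℝ) with hC
  have hC0 : 0 < C := by
    rw [hC]; exact_mod_cast Nat.succ_pos _
  have hpos : (0 : ℝ) < 1 / C ^ D := by positivity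
  have h1 := (h.eventually (gt_mem_nhds hpos)).and (Filter.eventually_ge_atTop 1)
  obtain ⟨v, hv, hv1⟩ := h1.exists
  refine ⟨v, hv1, ?_⟩
  have h2 : ((v : ℝ)) ^ D * C ^ D < 2 ^ v := by
    rw [div_lt_div_iff₀ (by positivity) (by positivity)] at hv
    linarith
  have h3 : ((D * (v * β + 2) + 1 : ℕ) : ℝ) ≤ v * C := by
    rw [hC]
    have : D * (v * β + 2) + 1 ≤ v * (D * β + 2 * D + 1) := by nlinarith
    exact_mod_cast this
  have h4 : (((D * (v * β + 2) + 1 : ℕ) : ℝ)) ^ D < 2 ^ v :=
    calc (((D * (v * β + 2) + 1 : ℕ) : ℝ)) ^ D ≤ (v * C) ^ D :=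
          pow_le_pow_left₀ (by positivity) h3 D
      _ = (v : ℝ) ^ D * C ^ D := mul_pow _ _ _
      _ < 2 ^ v := h2
  exact_mod_cast h4

/-- Interleaving of two sequences. -/
private def inter {V : Type} {M : ℕ} (a b : Fin M → V) (k : Fin (2 * M)) : V :=
  if k.val % 2 = 0 then a ⟨k.val / 2, by omega⟩ else b ⟨k.val / 2, by omega⟩

private theorem inter_mono {V : Type} [LinearOrder V] {M : ℕ} (a b : Fin M → V)
    (hab : ∀ i, a i < b i) (hba : ∀ i j, i < j → b i < a j) : StrictMono (inter a b) := by
  intro k l hkl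
  have hkl' : k.val < l.val := hkl
  have haa : ∀ i j, i < j → a i < a j := fun i j h => (hab i).trans (hba i j h)
  have hbb : ∀ i j, i < j → b i < b j := fun i j h => (hba i j h).trans (hab j)
  have habj : ∀ i j, i ≤ j → a i < b j := by
    intro i j h
    rcases h.eq_or_lt with h | h
    · rw [h]; exact hab j
    · exact (haa i j h).trans (hab j)
  unfold inter
  by_cases hk : k.val % 2 = 0 <;> by_cases hl : l.val % 2 = 0 <;> simp only [hk, hl, if_true, if_false]
  · exact haa _ _ (by simp only [Fin.mk_lt_mk]; omega)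
  · exact habj _ _ (by simp only [Fin.mk_le_mk]; omega)
  · exact hba _ _ (by simp only [Fin.mk_lt_mk]; omega)
  · exact hbb _ _ (by simp only [Fin.mk_lt_mk]; omega)

private theorem inter_left {V : Type} {M : ℕ} (a b : Fin M → V) (i : Fin M) :
    inter a b ⟨2 * i.val, by omega⟩ = a i := by
  unfold inter
  have h1 : (2 * i.val) % 2 = 0 := by omega
  have h2 : (2 * i.val) / 2 = i.val := by omega
  simp only [h1, if_true, h2]

private theorem inter_right {V : Type} {M : ℕ} (a b : Fin M → V) (i : Fin M) :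
    inter a b ⟨2 * i.val + 1, by omega⟩ = b i := by
  unfold inter
  have h1 : ¬ (2 * i.val + 1) % 2 = 0 := by omega
  have h2 : (2 * i.val + 1) / 2 = i.val := by omega
  simp only [h1, if_false, h2]

private theorem inter_mem {V : Type} [DecidableEq V] {M : ℕ} (a b : Fin M → V) (R : Finset V)
    (ha : ∀ i, a i ∈ R) (hb : ∀ i, b i ∈ R) (k : Fin (2 * M)) : inter a b k ∈ R := by
  unfold inter
  split_ifs
  · exact ha _
  · exact hb _

/-- The finset of all terms of two interleaved sequences. -/
private def rset {V : Type} [LinearOrder V] {M : ℕ} (a b : Fin M → V) : Finset V :=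
  Finset.univ.image (inter a b)

private theorem card_rset {V : Type} [LinearOrder V] {M : ℕ} (a b : Fin M → V)
    (hab : ∀ i, a i < b i) (hba : ∀ i j, i < j → b i < a j) : (rset a b).card = 2 * M := by
  unfold rset
  rw [Finset.card_image_of_injective _ (inter_mono a b hab hba).injective]
  simp

private theorem mem_rset_left {V : Type} [LinearOrder V] {M : ℕ} (a b : Fin M → V) (i : Fin M) :
    a i ∈ rset a b :=
  Finset.mem_image.2 ⟨_, Finset.mem_univ _, inter_left a b i⟩

private theorem mem_rset_right {V : Type} [LinearOrder V] {M : ℕ} (a b : Fin M → V) (i : Fin M) :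
    b i ∈ rset a b :=
  Finset.mem_image.2 ⟨_, Finset.mem_univ _, inter_right a b i⟩

private theorem rset_subset {V : Type} [LinearOrder V] {M : ℕ} (a b : Fin M → V) (S : Finset V)
    (ha : ∀ i, a i ∈ S) (hb : ∀ i, b i ∈ S) : rset a b ⊆ S := by
  intro x hx
  obtain ⟨k, -, rfl⟩ := Finset.mem_image.1 hx
  exact inter_mem a b S ha hb k

/-- Two alternating enumerations with values in a set of `2 * M` elements agree. -/
private theorem enum_unique {V : Type} [LinearOrder V] {M : ℕ} (a b a' b' : Fin M → V)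
    (R : Finset V) (hR : R.card = 2 * M)
    (ha : ∀ i, a i ∈ R) (hb : ∀ i, b i ∈ R) (hab : ∀ i, a i < b i)
    (hba : ∀ i j, i < j → b i < a j)
    (ha' : ∀ i, a' i ∈ R) (hb' : ∀ i, b' i ∈ R) (hab' : ∀ i, a' i < b' i)
    (hba' : ∀ i j, i < j → b' i < a' j) (i : Fin M) : a i = a' i ∧ b i = b' i := by
  have h1 := Finset.orderEmbOfFin_unique hR (inter_mem a b R ha hb) (inter_mono a b hab hba)
  have h2 := Finset.orderEmbOfFin_unique hR (inter_mem a' b' R ha' hb') (inter_mono a' b' hab' hba')
  have h3 : inter a b = inter a' b' := h1.trans h2.symm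
  refine ⟨?_, ?_⟩
  · rw [← inter_left a b i, h3, inter_left]
  · rw [← inter_right a b i, h3, inter_right]

/-- The offset of the pair number `n`. -/
private def off {v : ℕ} (W : Finset (Fin v)) (n : Fin (2 * v)) : ℕ :=
  6 * (n.val / 2) + 2 * (n.val % 2) +
    (if (⟨n.val / 2, by omega⟩ : Fin v) ∈ W then 2 else 0)

private theorem off_lt {v : ℕ} (W : Finset (Fin v)) (n : Fin (2 * v)) : off W n + 1 < 6 * v := by
  have hn := n.isLt
  unfold off
  split_ifs <;> omega

private theorem off_mono {v : ℕ} (W : Finset (Fin v)) (n m : Fin (2 * v)) (h : n < m) :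
    off W n + 1 < off W m := by
  have h' : n.val < m.val := h
  unfold off
  by_cases hd : n.val / 2 = m.val / 2
  · have e : (⟨n.val / 2, by omega⟩ : Fin v) = ⟨m.val / 2, by omega⟩ := Fin.ext hd
    rw [e]
    split_ifs <;> omega
  · split_ifs <;> omega

private theorem exists_seq {V : Type} [LinearOrder V] (S : Finset V) (k : ℕ) (hk : k ≤ S.card)
    (hk0 : 0 < k) :
    ∃ s : ℕ → V, (∀ i, i < k → s i ∈ S) ∧ ∀ i j, i < j → j < k → s i < s j := by
  let e := S.orderEmbOfFin rfl
  have hS : 0 < S.card := lt_of_lt_of_le hk0 hk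
  refine ⟨fun i => if h : i < S.card then e ⟨i, h⟩ else e ⟨0, hS⟩, ?_, ?_⟩
  · intro i hi
    have h : i < S.card := lt_of_lt_of_le hi hk
    simp only [h, dif_pos]
    exact Finset.orderEmbOfFin_mem S rfl _
  · intro i j hij hj
    have h : j < S.card := lt_of_lt_of_le hj hk
    have h' : i < S.card := hij.trans h
    simp only [h, h', dif_pos]
    exact e.strictMono (by simpa using hij)

/-- Bounded alternation: a large set `A` has a subset `A'` of any prescribed size on which the
truth values over every good point `x` do not alternate `M` times. -/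
theorem bounded_alternation (D β : ℕ) : ∃ M : ℕ, 0 < M ∧ ∀ (J : Type) [Finite J] (t : ℕ),
    ∃ N : ℕ, ∀ (V : Type) [LinearOrder V] (B : J → V → V → MvPolynomial (Fin D) ℝ)
      (T : J → (Fin D → ℝ) → V → V → Prop),
      (∀ j p p', (B j p p').totalDegree ≤ β) →
      (∀ j p p' x, p < p' → eval x (B j p p') ≠ 0 → ∀ᶠ z in 𝓝 x, (T j z p p' ↔ T j x p p')) →
      ∀ A : Finset V, N ≤ A.card → ∃ A' ⊆ A, A'.card = t ∧ ∀ j x,
        (∀ p ∈ A', ∀ p' ∈ A', p < p' → eval x (B j p p') ≠ 0) → ¬ Alternates M A' (T j x) := by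
  obtain ⟨v, hv1, hv⟩ := exists_v D β
  refine ⟨2 * v, by omega, ?_⟩
  intro J _ t
  obtain ⟨N, hN⟩ := ramsey (2 * (2 * v)) (Set J) (max t (6 * v))
  refine ⟨N, ?_⟩
  intro V _ B T hdeg hloc A hA
  let col : Finset V → Set J := fun R => {j | ∃ x : Fin D → ℝ,
    (∀ p ∈ R, ∀ p' ∈ R, p < p' → eval x (B j p p') ≠ 0) ∧ Alternates (2 * v) R (T j x)}
  obtain ⟨S', hS'A, hS'card, c, hc⟩ := hN V col A hA
  obtain ⟨A', hA'S', hA'card⟩ := Finset.exists_subset_card_eq
    (show t ≤ S'.card by rw [hS'card]; exact le_max_left _ _)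
  refine ⟨A', hA'S'.trans hS'A, hA'card, ?_⟩
  intro j x hx halt
  -- `j` belongs to the colour `c`
  obtain ⟨a, b, ha, hb, hab, hba, htv⟩ := halt
  have hRsub : rset a b ⊆ A' := rset_subset a b A' ha hb
  have hjc : j ∈ c := by
    rw [← hc (rset a b) (hRsub.trans hA'S') (card_rset a b hab hba)]
    refine ⟨x, fun p hp p' hp' h => hx p (hRsub hp) p' (hRsub hp') h, a, b,
      mem_rset_left a b, mem_rset_right a b, hab, hba, htv⟩
  obtain ⟨s, hsmem, hsmono⟩ := exists_seq S' (6 * v)
    (by rw [hS'card]; exact le_max_right _ _) (by omega)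
  -- the point attached to a subset of the pairs
  have key : ∀ W : Finset (Fin v), ∃ y : Fin D → ℝ, ∀ i : Fin v,
      eval y (B j (s (6 * i.val + 2)) (s (6 * i.val + 3))) ≠ 0 ∧
      (T j y (s (6 * i.val + 2)) (s (6 * i.val + 3)) ↔ i ∈ W) := by
    intro W
    let aW : Fin (2 * v) → V := fun n => s (off W n)
    let bW : Fin (2 * v) → V := fun n => s (off W n + 1)
    have haW : ∀ n, aW n ∈ S' := fun n => hsmem _ (by have := off_lt W n; omega)
    have hbW : ∀ n, bW n ∈ S' := fun n => hsmem _ (off_lt W n)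
    have habW : ∀ n, aW n < bW n := fun n => hsmono _ _ (Nat.lt_succ_self _) (off_lt W n)
    have hbaW : ∀ n m, n < m → bW n < aW m := fun n m h =>
      hsmono _ _ (off_mono W n m h) (by have := off_lt W m; omega)
    have hcard := card_rset aW bW habW hbaW
    have hcol : j ∈ col (rset aW bW) := by
      rw [hc (rset aW bW) (rset_subset aW bW S' haW hbW) hcard]
      exact hjc
    obtain ⟨y, hy, a', b', ha', hb', hab', hba', htv'⟩ := hcol
    have huniq := enum_unique a' b' aW bW (rset aW bW) hcard ha' hb' hab' hba'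
      (mem_rset_left aW bW) (mem_rset_right aW bW) habW hbaW
    refine ⟨y, fun i => ?_⟩
    -- the index of the pair number `i`
    by_cases hi : i ∈ W
    · let n : Fin (2 * v) := ⟨2 * i.val, by omega⟩
      have e2 : (⟨n.val / 2, by omega⟩ : Fin v) = i := Fin.ext (by simp [n])
      have hoff : off W n = 6 * i.val + 2 := by
        unfold off
        rw [e2, if_pos hi]
        simp only [n]
        omega
      have eA : aW n = s (6 * i.val + 2) := by simp only [aW, hoff]
      have eB : bW n = s (6 * i.val + 3) := by simp only [bW, hoff]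
      refine ⟨?_, ?_⟩
      · rw [← eA, ← eB]
        exact hy _ (mem_rset_left aW bW n) _ (mem_rset_right aW bW n) (habW n)
      · rw [← eA, ← eB, ← (huniq n).1, ← (huniq n).2]
        constructor
        · intro _; exact hi
        · intro _; exact (htv' n).2 (by simp only [n]; omega)
    · let n : Fin (2 * v) := ⟨2 * i.val + 1, by omega⟩
      have e2 : (⟨n.val / 2, by omega⟩ : Fin v) = i := Fin.ext (by simp only [n]; omega)
      have hoff : off W n = 6 * i.val + 2 := by
        unfold off
        rw [e2, if_neg hi]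
        simp only [n]
        omega
      have eA : aW n = s (6 * i.val + 2) := by simp only [aW, hoff]
      have eB : bW n = s (6 * i.val + 3) := by simp only [bW, hoff]
      refine ⟨?_, ?_⟩
      · rw [← eA, ← eB]
        exact hy _ (mem_rset_left aW bW n) _ (mem_rset_right aW bW n) (habW n)
      · rw [← eA, ← eB, ← (huniq n).1, ← (huniq n).2]
        constructor
        · intro h
          have := (htv' n).1 h
          simp only [n] at this
          omega
        · intro h; exact absurd h hi
  choose y hy using key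
  let f : MvPolynomial (Fin D) ℝ :=
    ∏ i : Fin v, B j (s (6 * i.val + 2)) (s (6 * i.val + 3))
  have hslt : ∀ i : Fin v, s (6 * i.val + 2) < s (6 * i.val + 3) := fun i =>
    hsmono _ _ (Nat.lt_succ_self _) (by have := i.isLt; omega)
  have hfdeg : f.totalDegree ≤ v * β := by
    refine (MvPolynomial.totalDegree_finsetProd _ _).trans ?_
    refine (Finset.sum_le_sum (fun i _ => hdeg j _ _)).trans ?_
    simp
  have hfne : ∀ z, eval z f ≠ 0 → ∀ i : Fin v,
      eval z (B j (s (6 * i.val + 2)) (s (6 * i.val + 3))) ≠ 0 := by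
    intro z hz i h0
    apply hz
    simp only [f, map_prod]
    exact Finset.prod_eq_zero (Finset.mem_univ i) h0
  let g : (Fin D → ℝ) → (Fin v → Prop) := fun z i =>
    T j z (s (6 * i.val + 2)) (s (6 * i.val + 3))
  have hgloc : ∀ z, eval z f ≠ 0 → ∀ᶠ z' in 𝓝 z, g z' = g z := by
    intro z hz
    have : ∀ᶠ z' in 𝓝 z, ∀ i : Fin v,
        (T j z' (s (6 * i.val + 2)) (s (6 * i.val + 3)) ↔
          T j z (s (6 * i.val + 2)) (s (6 * i.val + 3))) :=
      Filter.eventually_all.2 fun i => hloc j _ _ z (hslt i) (hfne z hz i)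
    filter_upwards [this] with z' hz'
    funext i
    exact propext (hz' i)
  have hyinj : Function.Injective y := by
    intro W W' h
    ext i
    rw [← (hy W i).2, ← (hy W' i).2, h]
  have hcount := card_locally_const D (v * β) f hfdeg g hgloc
    (Finset.univ.image y) (by
      intro z hz
      obtain ⟨W, -, rfl⟩ := Finset.mem_image.1 hz
      simp only [f, map_prod]
      exact Finset.prod_ne_zero_iff.2 fun i _ => (hy W i).1) (by
      intro z hz z' hz' h
      obtain ⟨W, -, rfl⟩ := Finset.mem_image.1 (Finset.mem_coe.1 hz)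
      obtain ⟨W', -, rfl⟩ := Finset.mem_image.1 (Finset.mem_coe.1 hz')
      have : W = W' := by
        ext i
        have h1 := congrFun h i
        simp only [g] at h1
        rw [← (hy W i).2, ← (hy W' i).2, h1]
      rw [this])
  rw [Finset.card_image_of_injective _ hyinj] at hcount
  simp only [Finset.card_univ, Fintype.card_finset, Fintype.card_fin] at hcount
  omega

end Pool.Agent.MP_5a1161_co
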