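import Pool.Agent.Lib.MP_5a1161_co_h27.Defs

set_option autoImplicit false

namespace Pool.Agent.MP_5a1161_co

private theorem box_base (T : ℕ) : ∃ δ : ℝ, 0 < δ ∧ δ ≤ 1 ∧ ∃ C : ℝ, 0 < C ∧
    ∀ (n : ℕ) (E : Finset (Fin 1 → Fin n)), C * (n : ℝ) ^ (((1 : ℕ) : ℝ) - δ) < E.card →
      ∃ A : Fin 1 → Finset (Fin n), (∀ k, (A k).card = T) ∧
        ∀ m : Fin 1 → Fin n, (∀ k, m k ∈ A k) → m ∈ E := by
  classical
  refine ⟨1, one_pos, le_rfl, (T : ℝ) + 1, by positivity, fun n E hE => ?_⟩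
  rw [Nat.cast_one, sub_self, Real.rpow_zero, mul_one] at hE
  have hinj : Set.InjOn (fun m : Fin 1 → Fin n => m 0) (E : Set (Fin 1 → Fin n)) := by
    intro x _ y _ hxy
    funext k
    rw [Subsingleton.elim k 0]
    exact hxy
  have hT : T ≤ (E.image fun m : Fin 1 → Fin n => m 0).card := by
    rw [Finset.card_image_of_injOn hinj]
    have h1 : (T : ℝ) < E.card := by linarith
    exact_mod_cast h1.le
  obtain ⟨S, hS, hST⟩ := Finset.exists_subset_card_eq hT
  refine ⟨fun _ => S, fun _ => hST, fun m hm => ?_⟩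
  have h1 := hS (hm 0)
  obtain ⟨m', hm', h2⟩ := Finset.mem_image.1 h1
  have h3 : m' = m := by
    funext k
    rw [Subsingleton.elim k 0]
    exact h2
  exact h3 ▸ hm'

private theorem box_count (d n T : ℕ) (hT : 1 ≤ T) (E : Finset (Fin (d + 1) → Fin n)) (B : ℝ)
    (hB : ∀ S : Finset (Fin n), S.card = T →
      ((Finset.univ.filter fun y : Fin d → Fin n => ∀ s ∈ S, (Fin.cons s y : Fin (d + 1) → Fin n) ∈ E).card : ℝ)
        ≤ B) (h0 : T * n ^ d ≤ E.card) :
    ((E.card : ℝ) - T * (n : ℝ) ^ d) ^ T ≤ ((n : ℝ) ^ d) ^ (T - 1) * (T.factorial * ((n : ℝ) ^ T * B)) := by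
  classical
  obtain ⟨t, rfl⟩ : ∃ t, T = t + 1 := ⟨T - 1, by omega⟩
  set N : (Fin d → Fin n) → Finset (Fin n) := fun y =>
    Finset.univ.filter fun s => (Fin.cons s y : Fin (d + 1) → Fin n) ∈ E with hN
  have hcardE : E.card = ∑ y : Fin d → Fin n, (N y).card := by
    have h1 : E.card = ∑ y : Fin d → Fin n, (E.filter fun m => Fin.tail m = y).card :=
      Finset.card_eq_sum_card_fiberwise (fun m _ => Finset.mem_coe.2 (Finset.mem_univ _))
    rw [h1]
    refine Finset.sum_congr rfl fun y _ => ?_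
    refine Finset.card_bij (fun m _ => m 0) ?_ ?_ ?_
    · intro m hm
      obtain ⟨h2, h3⟩ := Finset.mem_filter.1 hm
      rw [hN]
      refine Finset.mem_filter.2 ⟨Finset.mem_univ _, ?_⟩
      rw [← h3, Fin.cons_self_tail]
      exact h2
    · intro m hm m' hm' h
      obtain ⟨_, h3⟩ := Finset.mem_filter.1 hm
      obtain ⟨_, h3'⟩ := Finset.mem_filter.1 hm'
      rw [← Fin.cons_self_tail m, ← Fin.cons_self_tail m', h3, h3', h]
    · intro s hs
      have h2 := (Finset.mem_filter.1 hs).2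
      exact ⟨Fin.cons s y, Finset.mem_filter.2 ⟨h2, Fin.tail_cons _ _⟩, Fin.cons_zero _ _⟩
  -- double counting
  have hdc : ∑ y : Fin d → Fin n, (N y).card.choose (t + 1) =
      ∑ S ∈ (Finset.univ : Finset (Fin n)).powersetCard (t + 1),
        (Finset.univ.filter fun y : Fin d → Fin n => ∀ s ∈ S,
          (Fin.cons s y : Fin (d + 1) → Fin n) ∈ E).card := by
    have h1 : ∀ y : Fin d → Fin n, (N y).card.choose (t + 1) =
        ∑ S ∈ (Finset.univ : Finset (Fin n)).powersetCard (t + 1),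
          if (∀ s ∈ S, (Fin.cons s y : Fin (d + 1) → Fin n) ∈ E) then 1 else 0 := by
      intro y
      rw [← Finset.card_powersetCard, ← Finset.card_filter]
      congr 1
      ext S
      simp only [Finset.mem_powersetCard, Finset.mem_filter, Finset.subset_univ, true_and]
      constructor
      · rintro ⟨h2, h3⟩
        exact ⟨h3, fun s hs => (Finset.mem_filter.1 (h2 hs)).2⟩
      · rintro ⟨h2, h3⟩
        exact ⟨fun s hs => Finset.mem_filter.2 ⟨Finset.mem_univ _, h3 s hs⟩, h2⟩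
    rw [Finset.sum_congr rfl fun y _ => h1 y, Finset.sum_comm]
    refine Finset.sum_congr rfl fun S _ => ?_
    rw [Finset.card_filter]
  have hup : (∑ y : Fin d → Fin n, ((N y).card.choose (t + 1) : ℝ)) ≤ (n : ℝ) ^ (t + 1) * B := by
    by_cases hemp : ((Finset.univ : Finset (Fin n)).powersetCard (t + 1)).Nonempty
    · obtain ⟨S0, hS0⟩ := hemp
      have hB0 : 0 ≤ B := le_trans (Nat.cast_nonneg _) (hB S0 (Finset.mem_powersetCard.1 hS0).2)
      have h2 : (∑ y : Fin d → Fin n, ((N y).card.choose (t + 1) : ℝ)) ≤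
          ∑ _S ∈ (Finset.univ : Finset (Fin n)).powersetCard (t + 1), B := by
        rw [← Nat.cast_sum, hdc, Nat.cast_sum]
        exact Finset.sum_le_sum fun S hS => hB S (Finset.mem_powersetCard.1 hS).2
      refine h2.trans ?_
      rw [Finset.sum_const, nsmul_eq_mul, Finset.card_powersetCard, Finset.card_univ,
        Fintype.card_fin]
      refine mul_le_mul_of_nonneg_right ?_ hB0
      exact_mod_cast Nat.choose_le_pow n (t + 1)
    · rw [Finset.not_nonempty_iff_eq_empty] at hemp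
      rw [← Nat.cast_sum, hdc, hemp, Finset.sum_empty, Nat.cast_zero]
      have hlt : n < t + 1 := by
        by_contra hc
        have h2 : ((Finset.univ : Finset (Fin n)).powersetCard (t + 1)).Nonempty :=
          Finset.powersetCard_nonempty.2 (by rw [Finset.card_univ, Fintype.card_fin]; omega)
        rw [hemp] at h2
        exact Finset.not_nonempty_empty h2
      -- then E is small
      have hE : E.card ≤ n ^ (d + 1) := by
        have := Finset.card_le_univ E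
        rwa [Fintype.card_fun, Fintype.card_fin, Fintype.card_fin] at this
      have h3 : (t + 1) * n ^ d ≤ n * n ^ d := by
        calc (t + 1) * n ^ d ≤ E.card := h0
          _ ≤ n ^ (d + 1) := hE
          _ = n * n ^ d := by ring
      have h4 : n ^ d = 0 := by
        by_contra hc
        have h5 := Nat.le_of_mul_le_mul_right h3 (Nat.pos_of_ne_zero hc)
        omega
      have h5 : n = 0 := by
        by_contra hc
        exact (pow_ne_zero d hc) h4
      rw [h5]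
      simp
  set a : (Fin d → Fin n) → ℝ := fun y => (((N y).card + 1 - (t + 1) : ℕ) : ℝ) with ha
  have ha0 : ∀ y ∈ (Finset.univ : Finset (Fin d → Fin n)), 0 ≤ a y := fun y _ => Nat.cast_nonneg _
  have hsumle : ∑ y, a y ^ (t + 1) ≤ (t + 1).factorial * ((n : ℝ) ^ (t + 1) * B) := by
    refine le_trans ?_ (mul_le_mul_of_nonneg_left hup (Nat.cast_nonneg _))
    rw [Finset.mul_sum]
    refine Finset.sum_le_sum fun y _ => ?_
    have h6 : (a y) ^ (t + 1) / ((t + 1).factorial : ℝ) ≤ ((N y).card.choose (t + 1) : ℝ) :=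
      Nat.pow_le_choose (t + 1) (N y).card
    have h7 : (0 : ℝ) < (t + 1).factorial := by exact_mod_cast Nat.factorial_pos _
    rw [div_le_iff₀ h7] at h6
    linarith [h6]
  have hcheb := pow_sum_div_card_le_sum_pow ha0 t
  have hcard : ((Finset.univ : Finset (Fin d → Fin n)).card : ℝ) = (n : ℝ) ^ d := by
    rw [Finset.card_univ, Fintype.card_fun, Fintype.card_fin, Fintype.card_fin]
    push_cast
    ring
  have hsa : (E.card : ℝ) - ((t + 1 : ℕ) : ℝ) * (n : ℝ) ^ d ≤ ∑ y, a y := by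
    have h8 : (E.card : ℝ) - ((t + 1 : ℕ) : ℝ) * (n : ℝ) ^ d =
        ∑ y : Fin d → Fin n, (((N y).card : ℝ) - ((t + 1 : ℕ) : ℝ)) := by
      rw [Finset.sum_sub_distrib, Finset.sum_const, nsmul_eq_mul, hcard, hcardE, Nat.cast_sum]
      ring
    rw [h8]
    refine Finset.sum_le_sum fun y _ => ?_
    have h9 : (N y).card ≤ ((N y).card + 1 - (t + 1)) + (t + 1) := by omega
    have h10 : ((N y).card : ℝ) ≤ a y + ((t + 1 : ℕ) : ℝ) := by
      change ((N y).card : ℝ) ≤ (((N y).card + 1 - (t + 1) : ℕ) : ℝ) + ((t + 1 : ℕ) : ℝ)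
      exact_mod_cast h9
    linarith
  have hleft : (0 : ℝ) ≤ (E.card : ℝ) - ((t + 1 : ℕ) : ℝ) * (n : ℝ) ^ d := by
    have : (((t + 1) * n ^ d : ℕ) : ℝ) ≤ E.card := by exact_mod_cast h0
    push_cast at this ⊢
    linarith
  rcases Nat.eq_zero_or_pos n with hn | hn
  · -- trivial case
    have hsa0 : ∑ y, a y ^ (t + 1) ≤ (t + 1).factorial * ((n : ℝ) ^ (t + 1) * B) := hsumle
    subst hn
    rcases Nat.eq_zero_or_pos d with hd | hd
    · subst hd
      rw [pow_zero, one_pow, one_mul]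
      refine le_trans (pow_le_pow_left₀ hleft hsa _) (le_trans ?_ hsa0)
      simp
    · have h11 : ∀ y : Fin d → Fin 0, False := fun y => (y ⟨0, hd⟩).elim0
      have h12 : ∑ y, a y = 0 := Finset.sum_eq_zero fun y _ => (h11 y).elim
      have h13 : (E.card : ℝ) - ((t + 1 : ℕ) : ℝ) * ((0 : ℕ) : ℝ) ^ d = 0 :=
        le_antisymm (hsa.trans h12.le) hleft
      rw [h13, zero_pow (Nat.succ_ne_zero t)]
      rw [Nat.cast_zero, zero_pow (Nat.succ_ne_zero t)]
      simp
  · have hpos : (0 : ℝ) < ((n : ℝ) ^ d) ^ t := by positivity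
    rw [hcard, div_le_iff₀ hpos] at hcheb
    calc ((E.card : ℝ) - ((t + 1 : ℕ) : ℝ) * (n : ℝ) ^ d) ^ (t + 1)
        ≤ (∑ y, a y) ^ (t + 1) := pow_le_pow_left₀ hleft hsa _
      _ ≤ (∑ y, a y ^ (t + 1)) * ((n : ℝ) ^ d) ^ t := hcheb
      _ ≤ ((t + 1).factorial * ((n : ℝ) ^ (t + 1) * B)) * ((n : ℝ) ^ d) ^ t :=
          mul_le_mul_of_nonneg_right hsumle hpos.le
      _ = ((n : ℝ) ^ d) ^ (t + 1 - 1) * ((t + 1).factorial * ((n : ℝ) ^ (t + 1) * B)) := by
          rw [Nat.add_sub_cancel]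
          ring

private theorem box_step (T : ℕ) (hT : 1 ≤ T) (d : ℕ) (hd : 1 ≤ d)
    (ih : ∃ δ : ℝ, 0 < δ ∧ δ ≤ 1 ∧ ∃ C : ℝ, 0 < C ∧
    ∀ (n : ℕ) (E : Finset (Fin d → Fin n)), C * (n : ℝ) ^ ((d : ℝ) - δ) < E.card →
      ∃ A : Fin d → Finset (Fin n), (∀ k, (A k).card = T) ∧
        ∀ m : Fin d → Fin n, (∀ k, m k ∈ A k) → m ∈ E) :
    ∃ δ : ℝ, 0 < δ ∧ δ ≤ 1 ∧ ∃ C : ℝ, 0 < C ∧
    ∀ (n : ℕ) (E : Finset (Fin (d + 1) → Fin n)),
      C * (n : ℝ) ^ (((d + 1 : ℕ) : ℝ) - δ) < E.card →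
      ∃ A : Fin (d + 1) → Finset (Fin n), (∀ k, (A k).card = T) ∧
        ∀ m : Fin (d + 1) → Fin n, (∀ k, m k ∈ A k) → m ∈ E := by
  classical
  obtain ⟨δ, hδ, hδ1, C, hC, h⟩ := ih
  have hTr : (1 : ℝ) ≤ T := by exact_mod_cast hT
  have hT0 : (0 : ℝ) < T := by linarith
  have hfac : (0 : ℝ) < T.factorial := by exact_mod_cast Nat.factorial_pos _
  refine ⟨δ / T, by positivity, ?_, 1 + T.factorial * C + T, by positivity, fun n E hE => ?_⟩
  · rw [div_le_one hT0]
    linarith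
  by_contra hno
  have hEle : E.card ≤ n ^ (d + 1) := by
    have := Finset.card_le_univ E
    rwa [Fintype.card_fun, Fintype.card_fin, Fintype.card_fin] at this
  have hn : 1 ≤ n := by
    by_contra hc
    have h0 : n = 0 := by omega
    subst h0
    rw [zero_pow (Nat.succ_ne_zero d), Nat.le_zero] at hEle
    rw [hEle, Nat.cast_zero] at hE
    have : (0 : ℝ) ≤ (1 + T.factorial * C + T) * ((0 : ℕ) : ℝ) ^ (((d + 1 : ℕ) : ℝ) - δ / T) := by
      positivity
    linarith
  have hnr : (1 : ℝ) ≤ n := by exact_mod_cast hn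
  have hn0 : (0 : ℝ) < n := by linarith
  have hδT : δ / T ≤ 1 := by
    rw [div_le_one hT0]
    linarith
  have hpw : (n : ℝ) ^ d ≤ (n : ℝ) ^ (((d + 1 : ℕ) : ℝ) - δ / T) := by
    rw [← Real.rpow_natCast]
    refine Real.rpow_le_rpow_of_exponent_le hnr ?_
    push_cast
    linarith
  have hX0 : (0 : ℝ) < (n : ℝ) ^ (((d + 1 : ℕ) : ℝ) - δ / T) := Real.rpow_pos_of_pos hn0 _
  set X : ℝ := (n : ℝ) ^ (((d + 1 : ℕ) : ℝ) - δ / T) with hX
  have hcount := box_count d n T hT E (C * (n : ℝ) ^ ((d : ℝ) - δ)) ?_ ?_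
  · have h1 : (1 + T.factorial * C) * X ≤ (E.card : ℝ) - T * (n : ℝ) ^ d := by
      have : (T : ℝ) * (n : ℝ) ^ d ≤ T * X := mul_le_mul_of_nonneg_left hpw hT0.le
      nlinarith [hE]
    have h2 : (1 + T.factorial * C) * X < (E.card : ℝ) - T * (n : ℝ) ^ d := by
      have : (T : ℝ) * (n : ℝ) ^ d ≤ T * X := mul_le_mul_of_nonneg_left hpw hT0.le
      nlinarith [hE]
    have h3 : ((1 + T.factorial * C) * X) ^ T < ((E.card : ℝ) - T * (n : ℝ) ^ d) ^ T :=
      pow_lt_pow_left₀ h2 (by positivity) (by omega)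
    have h4 : X ^ T = (n : ℝ) ^ (((d + 1 : ℕ) : ℝ) * T - δ) := by
      rw [hX, ← Real.rpow_natCast, ← Real.rpow_mul hn0.le]
      congr 1
      field_simp
    have h5 : ((n : ℝ) ^ d) ^ (T - 1) * (T.factorial * ((n : ℝ) ^ T * (C * (n : ℝ) ^ ((d : ℝ) - δ)))) =
        T.factorial * C * X ^ T := by
      rw [h4]
      have h6 : ((n : ℝ) ^ d) ^ (T - 1) * ((n : ℝ) ^ T * (n : ℝ) ^ ((d : ℝ) - δ)) =
          (n : ℝ) ^ (((d + 1 : ℕ) : ℝ) * T - δ) := by
        rw [← pow_mul, ← Real.rpow_natCast, ← Real.rpow_natCast, ← Real.rpow_add hn0,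
          ← Real.rpow_add hn0]
        congr 1
        push_cast [Nat.cast_sub hT]
        ring
      rw [← h6]
      ring
    rw [h5] at hcount
    have h7 : T.factorial * C * X ^ T ≤ ((1 + T.factorial * C) * X) ^ T := by
      rw [mul_pow]
      refine mul_le_mul_of_nonneg_right ?_ (by positivity)
      have h8 : (1 + T.factorial * C) ≤ (1 + T.factorial * C) ^ T :=
        le_self_pow₀ (by nlinarith [mul_pos hfac hC]) (by omega)
      linarith
    linarith
  · intro S hS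
    by_contra hc
    rw [not_le] at hc
    obtain ⟨A, hA, hAm⟩ := h n _ hc
    refine hno ⟨Fin.cons S A, ?_, ?_⟩
    · intro k
      refine Fin.cases ?_ (fun k => ?_) k
      · rw [Fin.cons_zero]
        exact hS
      · rw [Fin.cons_succ]
        exact hA k
    · intro m hm
      have h1 := hAm (Fin.tail m) (fun k => by
        have := hm k.succ
        rwa [Fin.cons_succ] at this)
      have h2 := (Finset.mem_filter.1 h1).2 (m 0) (by
        have := hm 0
        rwa [Fin.cons_zero] at this)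
      rwa [Fin.cons_self_tail] at h2
  · have h1 : (T : ℝ) * (n : ℝ) ^ d ≤ E.card := by
      have h2 : (T : ℝ) * (n : ℝ) ^ d ≤ T * X := mul_le_mul_of_nonneg_left hpw hT0.le
      have h3 : 0 ≤ (1 + T.factorial * C) * X := by positivity
      nlinarith [hE]
    exact_mod_cast h1

/-- The box theorem (Erdős 1964). -/
theorem box_theorem (d T : ℕ) (hd : 1 ≤ d) : ∃ δ : ℝ, 0 < δ ∧ ∃ C : ℝ, 0 < C ∧
    ∀ (n : ℕ) (E : Finset (Fin d → Fin n)), C * (n : ℝ) ^ ((d : ℝ) - δ) < E.card →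
      ∃ A : Fin d → Finset (Fin n), (∀ k, (A k).card = T) ∧
        ∀ m : Fin d → Fin n, (∀ k, m k ∈ A k) → m ∈ E := by
  rcases Nat.eq_zero_or_pos T with hT | hT
  · subst hT
    refine ⟨1, one_pos, 1, one_pos, fun n E _ => ⟨fun _ => ∅, fun _ => rfl, fun m hm => ?_⟩⟩
    exact absurd (hm ⟨0, hd⟩) (Finset.notMem_empty _)
  · have key : ∃ δ : ℝ, 0 < δ ∧ δ ≤ 1 ∧ ∃ C : ℝ, 0 < C ∧
        ∀ (n : ℕ) (E : Finset (Fin d → Fin n)), C * (n : ℝ) ^ ((d : ℝ) - δ) < E.card →
          ∃ A : Fin d → Finset (Fin n), (∀ k, (A k).card = T) ∧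
            ∀ m : Fin d → Fin n, (∀ k, m k ∈ A k) → m ∈ E := by
      induction d, hd using Nat.le_induction with
      | base => exact box_base T
      | succ d hd ih => exact box_step T hT d hd ih
    obtain ⟨δ, hδ, _, h⟩ := key
    exact ⟨δ, hδ, h⟩

end Pool.Agent.MP_5a1161_co
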