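import Pool.Agent.Lib.MP_5a1161_co_h27.Alt

set_option autoImplicit false

namespace Pool.Agent.MP_5a1161_co

open MvPolynomial Topology

private theorem comb_growth (D β q' c : ℕ) : ∃ g : ℕ, 0 < g ∧
    (D + 2) * (c ^ (D + 1) * (D * ((D + 1) * g * q' ^ 2 * β + 2) + 1) ^ D) < g ^ (D + 1) := by
  set K : ℕ := (D + 2) * (c ^ (D + 1) * (D * ((D + 1) * q' ^ 2 * β + 2) + 1) ^ D) with hK
  refine ⟨K + 1, Nat.succ_pos _, ?_⟩
  set g := K + 1 with hg
  have h1 : D * ((D + 1) * g * q' ^ 2 * β + 2) + 1 ≤ g * (D * ((D + 1) * q' ^ 2 * β + 2) + 1) := by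
    have hg1 : 1 ≤ g := by omega
    have e : g * (D * ((D + 1) * q' ^ 2 * β + 2) + 1) =
        D * ((D + 1) * g * q' ^ 2 * β + g * 2) + g := by ring
    rw [e]
    gcongr
    omega
  have h2 : (D * ((D + 1) * g * q' ^ 2 * β + 2) + 1) ^ D ≤
      g ^ D * (D * ((D + 1) * q' ^ 2 * β + 2) + 1) ^ D := by
    rw [← mul_pow]
    exact Nat.pow_le_pow_left h1 D
  calc (D + 2) * (c ^ (D + 1) * (D * ((D + 1) * g * q' ^ 2 * β + 2) + 1) ^ D)
      ≤ (D + 2) * (c ^ (D + 1) * (g ^ D * (D * ((D + 1) * q' ^ 2 * β + 2) + 1) ^ D)) := by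
        gcongr
    _ = g ^ D * K := by rw [hK]; ring
    _ < g ^ D * g := by
        have : 0 < g ^ D := Nat.pow_pos (by omega)
        exact Nat.mul_lt_mul_of_pos_left (by omega) this
    _ = g ^ (D + 1) := (pow_succ g D).symm

/-- The number of values of a locally constant function over a finite family of points. -/
private theorem comb_card_image {D Δ : ℕ} {f : MvPolynomial (Fin D) ℝ} (hf : f.totalDegree ≤ Δ)
    {α ι : Type} [DecidableEq α] (h : (Fin D → ℝ) → α)
    (hloc : ∀ x, eval x f ≠ 0 → ∀ᶠ z in 𝓝 x, h z = h x)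
    (P : Finset ι) (X : ι → (Fin D → ℝ)) (hP : ∀ i ∈ P, eval (X i) f ≠ 0) :
    (P.image fun i => h (X i)).card ≤ (D * (Δ + 2) + 1) ^ D := by
  classical
  set R : Finset α := P.image fun i => h (X i) with hR
  have hex : ∀ t : α, ∃ x : Fin D → ℝ, t ∈ R → (h x = t ∧ eval x f ≠ 0) := by
    intro t
    by_cases ht : t ∈ R
    · rw [hR, Finset.mem_image] at ht
      obtain ⟨i, hi, e⟩ := ht
      exact ⟨X i, fun _ => ⟨e, hP i hi⟩⟩
    · exact ⟨0, fun h' => absurd h' ht⟩
  choose s hs using hex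
  have hinj : Set.InjOn s (R : Set α) := by
    intro t ht t' ht' e
    rw [← (hs t ht).1, ← (hs t' ht').1, e]
  have h1 := card_locally_const D Δ f hf h hloc (R.image s) (by
    intro x hx
    obtain ⟨t, ht, e⟩ := Finset.mem_image.1 hx
    rw [← e]
    exact (hs t ht).2) (by
    intro x hx y hy e
    obtain ⟨t, ht, et⟩ := Finset.mem_image.1 (Finset.mem_coe.1 hx)
    obtain ⟨t', ht', et'⟩ := Finset.mem_image.1 (Finset.mem_coe.1 hy)
    rw [← et, ← et', (hs t ht).1, (hs t' ht').1] at e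
    rw [← et, ← et', e])
  rw [Finset.card_image_of_injOn hinj] at h1
  exact h1

/-- Few blocks are not homogeneous. -/
private theorem comb_bad {V : Type} [LinearOrder V] {g q' M : ℕ} (e : Fin g → Fin q' → V)
    (hlt : ∀ i r i' r', i < i' → e i r < e i' r') {A : Finset V} (hA : ∀ i r, e i r ∈ A)
    (P : V → V → Prop) (h : ¬ Alternates M A P) (S : Finset (Fin g))
    (hS : ∀ i ∈ S, ¬ Homog (Finset.univ.image (e i)) P) : S.card ≤ M := by
  classical
  by_contra hc
  push Not at hc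
  apply h
  obtain ⟨S', hS', hcard⟩ := Finset.exists_subset_card_eq hc.le
  set φ := S'.orderEmbOfFin hcard with hφ
  have hex : ∀ r : Fin M, ∃ p : V × V,
      p.1 ∈ Finset.univ.image (e (φ r)) ∧ p.2 ∈ Finset.univ.image (e (φ r)) ∧ p.1 < p.2 ∧
        (P p.1 p.2 ↔ r.val % 2 = 0) := by
    intro r
    have hi : φ r ∈ S' := Finset.orderEmbOfFin_mem S' hcard r
    have h1 := hS _ (hS' hi)
    unfold Homog at h1
    push Not at h1
    obtain ⟨p, hp, p', hp', s, hs, s', hs', hpp, hss, h2⟩ := h1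
    by_cases hr : r.val % 2 = 0
    · rcases h2 with ⟨h3, h4⟩ | ⟨h3, h4⟩
      · exact ⟨(p, p'), hp, hp', hpp, by simp [h3, hr]⟩
      · exact ⟨(s, s'), hs, hs', hss, by simp [h4, hr]⟩
    · rcases h2 with ⟨h3, h4⟩ | ⟨h3, h4⟩
      · exact ⟨(s, s'), hs, hs', hss, by simp [h4, hr]⟩
      · exact ⟨(p, p'), hp, hp', hpp, by simp [h3, hr]⟩
  choose p hp1 hp2 hp3 hp4 using hex
  refine ⟨fun r => (p r).1, fun r => (p r).2, fun r => ?_, fun r => ?_, hp3, fun r r' hr => ?_,
    hp4⟩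
  · obtain ⟨s, -, hs⟩ := Finset.mem_image.1 (hp1 r)
    show (p r).1 ∈ A
    rw [← hs]
    exact hA _ _
  · obtain ⟨s, -, hs⟩ := Finset.mem_image.1 (hp2 r)
    show (p r).2 ∈ A
    rw [← hs]
    exact hA _ _
  · obtain ⟨s, -, hs⟩ := Finset.mem_image.1 (hp2 r)
    obtain ⟨s', -, hs'⟩ := Finset.mem_image.1 (hp1 r')
    show (p r).2 < (p r').1
    rw [← hs, ← hs']
    exact hlt _ _ _ _ (φ.strictMono hr)

/-- The blocks that are not homogeneous for some formula. -/
private theorem comb_bad' {V J : Type} [Fintype J] [LinearOrder V] {g q' M : ℕ}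
    (e : Fin g → Fin q' → V)
    (hlt : ∀ i r i' r', i < i' → e i r < e i' r') {A : Finset V} (hA : ∀ i r, e i r ∈ A)
    (P : J → V → V → Prop) (h : ∀ j, ¬ Alternates M A (P j)) (S : Finset (Fin g))
    (hS : ∀ i ∈ S, ∃ j, ¬ Homog (Finset.univ.image (e i)) (P j)) :
    S.card ≤ Fintype.card J * M := by
  classical
  have h1 : S ⊆ Finset.univ.biUnion fun j : J =>
      S.filter fun i => ¬ Homog (Finset.univ.image (e i)) (P j) := by
    intro i hi
    obtain ⟨j, hj⟩ := hS i hi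
    exact Finset.mem_biUnion.2 ⟨j, Finset.mem_univ _, Finset.mem_filter.2 ⟨hi, hj⟩⟩
  calc S.card ≤ _ := Finset.card_le_card h1
    _ ≤ ∑ j : J, (S.filter fun i => ¬ Homog (Finset.univ.image (e i)) (P j)).card :=
        Finset.card_biUnion_le
    _ ≤ ∑ j : J, M := by
        refine Finset.sum_le_sum fun j _ => ?_
        exact comb_bad e hlt hA (P j) (h j) _ fun i hi => (Finset.mem_filter.1 hi).2
    _ = Fintype.card J * M := by simp

/-- The number of tuples all of whose blocks are bad. -/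
private theorem comb_tuples {D β g q' c : ℕ} {V J : Type} [Fintype J] [LinearOrder V]
    (B : Fin (D + 1) → V → V → MvPolynomial (Fin D) ℝ)
    (F : Fin (D + 1) → J → (Fin D → ℝ) → V → V → Prop)
    (hB : ∀ k p p', (B k p p').totalDegree ≤ β)
    (hloc : ∀ k j p p' x, p < p' → eval x (B k p p') ≠ 0 →
      ∀ᶠ z in 𝓝 x, (F k j z p p' ↔ F k j x p p'))
    (e : Fin (D + 1) → Fin g → Fin q' → V) (hmono : ∀ k i r r', r < r' ↔ e k i r < e k i r')
    (X : (Fin (D + 1) → Fin g) → (Fin D → ℝ))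
    (hX : ∀ I k i r r', e k i r < e k i r' → eval (X I) (B k (e k i r) (e k i r')) ≠ 0)
    (S : Finset (Fin (D + 1) → Fin g))
    (hc : ∀ I ∈ S, ∀ k, ∀ Q : Finset (Fin g),
      (∀ i ∈ Q, ∃ j, ¬ Homog (Finset.univ.image (e k i)) (F k j (X I))) → Q.card ≤ c)
    (hS : ∀ I ∈ S, ∀ k, ∃ j, ¬ Homog (Finset.univ.image (e k (I k))) (F k j (X I))) :
    S.card ≤ c ^ (D + 1) * (D * ((D + 1) * g * q' ^ 2 * β + 2) + 1) ^ D := by
  classical
  set h : (Fin D → ℝ) → Finset (Fin (D + 1) × Fin g × Fin q' × Fin q' × J) := fun x =>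
    Finset.univ.filter fun t => t.2.2.1 < t.2.2.2.1 ∧
      F t.1 t.2.2.2.2 x (e t.1 t.2.1 t.2.2.1) (e t.1 t.2.1 t.2.2.2.1) with hh
  set f : MvPolynomial (Fin D) ℝ := ∏ t : Fin (D + 1) × Fin g × Fin q' × Fin q',
    if t.2.2.1 < t.2.2.2 then B t.1 (e t.1 t.2.1 t.2.2.1) (e t.1 t.2.1 t.2.2.2) else 1 with hf
  have hfd : f.totalDegree ≤ (D + 1) * g * q' ^ 2 * β := by
    refine (MvPolynomial.totalDegree_finsetProd _ _).trans ?_
    calc ∑ t : Fin (D + 1) × Fin g × Fin q' × Fin q',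
          (if t.2.2.1 < t.2.2.2 then B t.1 (e t.1 t.2.1 t.2.2.1) (e t.1 t.2.1 t.2.2.2)
            else 1 : MvPolynomial (Fin D) ℝ).totalDegree
        ≤ ∑ t : Fin (D + 1) × Fin g × Fin q' × Fin q', β := by
          refine Finset.sum_le_sum fun t _ => ?_
          split_ifs
          · exact hB _ _ _
          · simp
      _ = (D + 1) * g * q' ^ 2 * β := by
          simp only [Finset.sum_const, Finset.card_univ, Fintype.card_prod, Fintype.card_fin,
            smul_eq_mul]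
          ring
  have hfe : ∀ x, eval x f ≠ 0 → ∀ k i r r', r < r' →
      eval x (B k (e k i r) (e k i r')) ≠ 0 := by
    intro x hx k i r r' hr h0
    apply hx
    rw [hf, map_prod]
    refine Finset.prod_eq_zero (Finset.mem_univ (k, i, r, r')) ?_
    simp only [hr, if_true]
    exact h0
  have hhloc : ∀ x, eval x f ≠ 0 → ∀ᶠ z in 𝓝 x, h z = h x := by
    intro x hx
    have h1 : ∀ t : Fin (D + 1) × Fin g × Fin q' × Fin q' × J, ∀ᶠ z in 𝓝 x,
        (t.2.2.1 < t.2.2.2.1 → (F t.1 t.2.2.2.2 z (e t.1 t.2.1 t.2.2.1) (e t.1 t.2.1 t.2.2.2.1) ↔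
          F t.1 t.2.2.2.2 x (e t.1 t.2.1 t.2.2.1) (e t.1 t.2.1 t.2.2.2.1))) := by
      intro t
      by_cases ht : t.2.2.1 < t.2.2.2.1
      · have h2 := hloc t.1 t.2.2.2.2 (e t.1 t.2.1 t.2.2.1) (e t.1 t.2.1 t.2.2.2.1) x
          ((hmono _ _ _ _).1 ht) (hfe x hx _ _ _ _ ht)
        exact h2.mono fun z hz _ => hz
      · exact Filter.Eventually.of_forall fun z hz => absurd hz ht
    have h2 := Filter.eventually_all.2 h1
    refine h2.mono fun z hz => ?_
    rw [hh]
    ext t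
    simp only [Finset.mem_filter, Finset.mem_univ, true_and]
    constructor
    · rintro ⟨h3, h4⟩
      exact ⟨h3, (hz t h3).1 h4⟩
    · rintro ⟨h3, h4⟩
      exact ⟨h3, (hz t h3).2 h4⟩
  have hfX : ∀ I ∈ S, eval (X I) f ≠ 0 := by
    intro I _
    rw [hf, map_prod]
    refine Finset.prod_ne_zero_iff.2 fun t _ => ?_
    split_ifs with ht
    · exact hX I _ _ _ _ ((hmono _ _ _ _).1 ht)
    · simp
  have hcount := comb_card_image hfd h hhloc S X hfX
  have hbad : ∀ x y, h x = h y → ∀ k i j, Homog (Finset.univ.image (e k i)) (F k j x) →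
      Homog (Finset.univ.image (e k i)) (F k j y) := by
    intro x y hxy k i j hx
    have h3 : ∀ p ∈ Finset.univ.image (e k i), ∀ p' ∈ Finset.univ.image (e k i), p < p' →
        (F k j x p p' ↔ F k j y p p') := by
      intro p hp p' hp' hpp
      obtain ⟨r, -, hr⟩ := Finset.mem_image.1 hp
      obtain ⟨r', -, hr'⟩ := Finset.mem_image.1 hp'
      have h4 : r < r' := (hmono k i r r').2 (by rw [hr, hr']; exact hpp)
      have h5 : ((k, i, r, r', j) ∈ h x) ↔ ((k, i, r, r', j) ∈ h y) := by rw [hxy]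
      rw [hh] at h5
      simp only [Finset.mem_filter, Finset.mem_univ, true_and, h4] at h5
      rw [hr, hr'] at h5
      exact h5
    intro p hp p' hp' s hs s' hs' hpp hss
    rw [← h3 p hp p' hp' hpp, ← h3 s hs s' hs' hss]
    exact hx p hp p' hp' s hs s' hs' hpp hss
  have hfib : ∀ t ∈ S.image (fun I => h (X I)), (S.filter fun I => h (X I) = t).card ≤
      c ^ (D + 1) := by
    intro t ht
    obtain ⟨I0, hI0, hI0t⟩ := Finset.mem_image.1 ht
    have hsub : (S.filter fun I => h (X I) = t) ⊆ Fintype.piFinset fun k =>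
        Finset.univ.filter fun i => ∃ j, ¬ Homog (Finset.univ.image (e k i)) (F k j (X I0)) := by
      intro I hI
      obtain ⟨hIS, hIt⟩ := Finset.mem_filter.1 hI
      rw [Fintype.mem_piFinset]
      intro k
      obtain ⟨j, hj⟩ := hS I hIS k
      refine Finset.mem_filter.2 ⟨Finset.mem_univ _, j, fun h6 => hj ?_⟩
      exact hbad (X I0) (X I) (hI0t.trans hIt.symm) k (I k) j h6
    refine (Finset.card_le_card hsub).trans ?_
    rw [Fintype.card_piFinset]
    calc ∏ k : Fin (D + 1), (Finset.univ.filter fun i =>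
          ∃ j, ¬ Homog (Finset.univ.image (e k i)) (F k j (X I0))).card
        ≤ ∏ k : Fin (D + 1), c := by
          refine Finset.prod_le_prod' fun k _ => ?_
          exact hc I0 hI0 k _ fun i hi => (Finset.mem_filter.1 hi).2
      _ = c ^ (D + 1) := by simp
  calc S.card ≤ c ^ (D + 1) * (S.image fun I => h (X I)).card :=
        Finset.card_le_mul_card_image S _ hfib
    _ ≤ c ^ (D + 1) * (D * ((D + 1) * g * q' ^ 2 * β + 2) + 1) ^ D := by gcongr

/-- The combinatorial core: in a complete `(D + 1)`-partite system over `D + 2` directions there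
are a tuple `m`, a part `k` and two directions `a ≠ a'` such that `m k` lies strictly inside a set
`N` of `q` elements of its part that is homogeneous over both base points. -/
theorem comb_main (D β q : ℕ) (J : Type) [Finite J] : ∃ T : ℕ, ∀ (V : Type) [LinearOrder V]
    (B : Fin (D + 2) → Fin (D + 1) → V → V → MvPolynomial (Fin D) ℝ)
    (F : Fin (D + 2) → Fin (D + 1) → J → (Fin D → ℝ) → V → V → Prop),
    (∀ a k p p', (B a k p p').totalDegree ≤ β) →
    (∀ a k j p p' x, p < p' → eval x (B a k p p') ≠ 0 →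
      ∀ᶠ z in 𝓝 x, (F a k j z p p' ↔ F a k j x p p')) →
    ∀ A : Fin (D + 1) → Finset V, (∀ k, T ≤ (A k).card) →
    ∀ X : Fin (D + 2) → (Fin (D + 1) → V) → (Fin D → ℝ),
    (∀ a m, (∀ k, m k ∈ A k) → ∀ k, ∀ p ∈ A k, ∀ p' ∈ A k, p < p' →
      eval (X a m) (B a k p p') ≠ 0) →
    ∃ m : Fin (D + 1) → V, (∀ k, m k ∈ A k) ∧ ∃ k a a', a ≠ a' ∧ ∃ N ⊆ A k, q ≤ N.card ∧
      m k ∈ N ∧ (∃ p ∈ N, p < m k) ∧ (∃ p ∈ N, m k < p) ∧
      (∀ j, Homog N (F a k j (X a m))) ∧ ∀ j, Homog N (F a' k j (X a' m)) := by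
  classical
  haveI : Fintype J := Fintype.ofFinite J
  obtain ⟨M, hM, hBA⟩ := bounded_alternation D β
  set q' : ℕ := max q 3 with hq'
  have hq3 : 3 ≤ q' := le_max_right _ _
  set c : ℕ := Fintype.card J * M with hcdef
  obtain ⟨g, hg, hgrow⟩ := comb_growth D β q' c
  obtain ⟨T, hT⟩ := hBA (Fin (D + 2) × J) (g * q')
  refine ⟨T, ?_⟩
  intro V _ B F hB hloc A hA X hX
  have hex : ∀ k, ∃ A' ⊆ A k, A'.card = g * q' ∧ ∀ (aj : Fin (D + 2) × J) x,
      (∀ p ∈ A', ∀ p' ∈ A', p < p' → eval x (B aj.1 k p p') ≠ 0) →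
        ¬ Alternates M A' (F aj.1 k aj.2 x) := fun k =>
    hT V (fun aj => B aj.1 k) (fun aj => F aj.1 k aj.2) (fun aj p p' => hB aj.1 k p p')
      (fun aj p p' x hp hx => hloc aj.1 k aj.2 p p' x hp hx) (A k) (hA k)
  choose A' hA'sub hA'card hA' using hex
  set e : Fin (D + 1) → Fin g → Fin q' → V := fun k i r =>
    (A' k).orderEmbOfFin (hA'card k) (finProdFinEquiv (i, r)) with he
  have heA : ∀ k i r, e k i r ∈ A' k := fun k i r => Finset.orderEmbOfFin_mem _ _ _
  have hmono : ∀ k i r r', r < r' ↔ e k i r < e k i r' := by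
    intro k i r r'
    rw [he]
    simp only [OrderEmbedding.lt_iff_lt, Fin.lt_def, finProdFinEquiv_apply_val]
    omega
  have hlt : ∀ k i r i' r', i < i' → e k i r < e k i' r' := by
    intro k i r i' r' hi
    rw [he]
    simp only [OrderEmbedding.lt_iff_lt, Fin.lt_def, finProdFinEquiv_apply_val]
    have h1 : (i : ℕ) + 1 ≤ i' := hi
    have h2 : (r : ℕ) < q' := r.2
    calc (r : ℕ) + q' * i < q' + q' * i := by omega
      _ = q' * (i + 1) := by ring
      _ ≤ q' * i' := Nat.mul_le_mul_left _ h1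
      _ ≤ r' + q' * i' := Nat.le_add_left _ _
  set m : (Fin (D + 1) → Fin g) → Fin (D + 1) → V := fun I k => e k (I k) ⟨1, by omega⟩ with hm
  have hmA : ∀ I k, m I k ∈ A k := fun I k => hA'sub k (heA _ _ _)
  have hgood : ∀ a I k, ∀ p ∈ A' k, ∀ p' ∈ A' k, p < p' → eval (X a (m I)) (B a k p p') ≠ 0 :=
    fun a I k p hp p' hp' hpp => hX a (m I) (hmA I) k p (hA'sub k hp) p' (hA'sub k hp') hpp
  set Bad : Fin (D + 2) → Finset (Fin (D + 1) → Fin g) := fun a => Finset.univ.filter fun I =>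
    ∀ k, ∃ j, ¬ Homog (Finset.univ.image (e k (I k))) (F a k j (X a (m I))) with hBad
  have hBc : ∀ a, (Bad a).card ≤ c ^ (D + 1) * (D * ((D + 1) * g * q' ^ 2 * β + 2) + 1) ^ D := by
    intro a
    refine comb_tuples (B a) (F a) (hB a) (hloc a) e hmono (fun I => X a (m I)) ?_ (Bad a) ?_ ?_
    · intro I k i r r' hr
      exact hgood a I k _ (heA _ _ _) _ (heA _ _ _) hr
    · intro I _ k Q hQ
      exact comb_bad' (e k) (hlt k) (heA k) (fun j => F a k j (X a (m I)))
        (fun j => hA' k (a, j) _ (hgood a I k)) Q hQ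
    · intro I hI
      exact (Finset.mem_filter.1 hI).2
  have hne : ∃ I : Fin (D + 1) → Fin g, ∀ a, I ∉ Bad a := by
    by_contra hcon
    push Not at hcon
    have h1 : (Finset.univ : Finset (Fin (D + 1) → Fin g)) ⊆ Finset.univ.biUnion Bad := by
      intro I _
      obtain ⟨a, ha⟩ := hcon I
      exact Finset.mem_biUnion.2 ⟨a, Finset.mem_univ _, ha⟩
    have h2 : g ^ (D + 1) ≤ (D + 2) *
        (c ^ (D + 1) * (D * ((D + 1) * g * q' ^ 2 * β + 2) + 1) ^ D) := by
      calc g ^ (D + 1) = (Finset.univ : Finset (Fin (D + 1) → Fin g)).card := by simp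
        _ ≤ (Finset.univ.biUnion Bad).card := Finset.card_le_card h1
        _ ≤ ∑ a : Fin (D + 2), (Bad a).card := Finset.card_biUnion_le
        _ ≤ ∑ a : Fin (D + 2),
            (c ^ (D + 1) * (D * ((D + 1) * g * q' ^ 2 * β + 2) + 1) ^ D) :=
            Finset.sum_le_sum fun a _ => hBc a
        _ = _ := by simp
    omega
  obtain ⟨I, hI⟩ := hne
  have hk : ∀ a, ∃ k, ∀ j, Homog (Finset.univ.image (e k (I k))) (F a k j (X a (m I))) := by
    intro a
    have h1 := hI a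
    simp only [hBad, Finset.mem_filter, Finset.mem_univ, true_and] at h1
    push Not at h1
    exact h1
  choose k hk using hk
  obtain ⟨a, a', haa, hkk⟩ := Fintype.exists_ne_map_eq_of_card_lt k (by simp)
  refine ⟨m I, hmA I, k a, a, a', haa, Finset.univ.image (e (k a) (I (k a))), ?_, ?_, ?_, ?_, ?_,
    hk a, ?_⟩
  · intro p hp
    obtain ⟨r, -, hr⟩ := Finset.mem_image.1 hp
    rw [← hr]
    exact hA'sub _ (heA _ _ _)
  · have hinj : Function.Injective (e (k a) (I (k a))) := by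
      intro r r' hr
      rcases lt_trichotomy r r' with h | h | h
      · exact absurd hr ((hmono _ _ _ _).1 h).ne
      · exact h
      · exact absurd hr ((hmono _ _ _ _).1 h).ne'
    rw [Finset.card_image_of_injective _ hinj, Finset.card_univ, Fintype.card_fin]
    exact le_max_left _ _
  · exact Finset.mem_image.2 ⟨⟨1, by omega⟩, Finset.mem_univ _, rfl⟩
  · refine ⟨e (k a) (I (k a)) ⟨0, by omega⟩, Finset.mem_image.2 ⟨_, Finset.mem_univ _, rfl⟩, ?_⟩
    exact (hmono _ _ _ _).1 (by simp [Fin.lt_def])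
  · refine ⟨e (k a) (I (k a)) ⟨2, by omega⟩, Finset.mem_image.2 ⟨_, Finset.mem_univ _, rfl⟩, ?_⟩
    exact (hmono _ _ _ _).1 (by simp [Fin.lt_def])
  · rw [hkk]
    exact hk a'

end Pool.Agent.MP_5a1161_co
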