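import Mathlib

set_option autoImplicit false

/-!
# Union of round bodies: definitions
-/

namespace Pool.Agent.MP_5a1161_co

open MvPolynomial

/-- Euclidean `d`-space. -/
abbrev Sp (d : ℕ) := EuclideanSpace ℝ (Fin d)

/-- `c` is a `κ`-round body: compact, with nonempty interior, and every boundary point `p` lies in
a closed ball of radius `κ * diam c` that is contained in `c`. -/
structure IsRound {d : ℕ} (κ : ℝ) (c : Set (Sp d)) : Prop where
  compact : IsCompact c
  body : (interior c).Nonempty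
  round : ∀ p ∈ frontier c, ∃ q : Sp d, p ∈ Metric.closedBall q (κ * Metric.diam c) ∧
    Metric.closedBall q (κ * Metric.diam c) ⊆ c

/-- `c` is a Boolean combination of at most `s` polynomial equalities and inequalities of degree
at most `b`: membership in `c` is decided by the signs of `s` polynomials of degree at most `b`. -/
def HasDescription {d : ℕ} (s b : ℕ) (c : Set (Sp d)) : Prop :=
  ∃ (P : Fin s → MvPolynomial (Fin d) ℝ) (Φ : (Fin s → SignType) → Prop),
    (∀ j, (P j).totalDegree ≤ b) ∧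
    ∀ x : Sp d, x ∈ c ↔ Φ fun j => SignType.sign (eval (fun i => x i) (P j))

/-- The value at `(x, y)` of a polynomial in `y` whose coefficients are polynomials in `x`. -/
noncomputable def evalAt {D : ℕ} (G : Polynomial (MvPolynomial (Fin D) ℝ)) (x : Fin D → ℝ)
    (y : ℝ) : ℝ :=
  (G.map (eval x)).eval y

/-- The point with parameter `y` on the line through `(0, x)` in direction `u`. -/
def linePt {D : ℕ} (u : Fin (D + 1) → ℝ) (x : Fin D → ℝ) (y : ℝ) : Fin (D + 1) → ℝ :=
  Fin.cons (y * u 0) fun l => x l + y * u l.succ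

/-- The base point of the line in direction `u` through `p`. -/
noncomputable def basePt {D : ℕ} (u : Fin (D + 1) → ℝ) (p : Fin (D + 1) → ℝ) : Fin D → ℝ :=
  fun l => p l.succ - p 0 / u 0 * u l.succ

/-- `y` is an element of `Z` with exactly `i` elements of `Z` below it. -/
def IsIth (i : ℕ) (Z : Set ℝ) (y : ℝ) : Prop :=
  y ∈ Z ∧ (Z ∩ Set.Iio y).Finite ∧ (Z ∩ Set.Iio y).ncard = i

/-- The description of a body, and the length `ρ` attached to it. -/
structure Body (D s : ℕ) where
  P : Fin s → MvPolynomial (Fin (D + 1)) ℝ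
  Φ : (Fin s → SignType) → Prop
  ρ : ℝ

namespace Body

variable {D s : ℕ}

/-- The set described by a body. -/
def carrier (c : Body D s) : Set (Fin (D + 1) → ℝ) :=
  {x | c.Φ fun j => SignType.sign (eval x (c.P j))}

/-- The zeros of the nonzero polynomials of the body on the line in direction `u` over `x`. -/
def Z (c : Body D s) (u : Fin (D + 1) → ℝ) (x : Fin D → ℝ) : Set ℝ :=
  {y | ∃ j, c.P j ≠ 0 ∧ eval (linePt u x y) (c.P j) = 0}

/-- `y` is the `i`-th zero and the body contains the segment of parameters `(y, y + 2 * ρ)`. -/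
def Enters (c : Body D s) (u : Fin (D + 1) → ℝ) (i : ℕ) (x : Fin D → ℝ) (y : ℝ) : Prop :=
  IsIth i (c.Z u x) y ∧ ∀ t, y < t → t < y + 2 * c.ρ → linePt u x t ∈ c.carrier

end Body

/-- The six formulas on pairs of bodies. -/
def tv {D s : ℕ} (K : ℝ) (u : Fin (D + 1) → ℝ) (i : ℕ) (f : Fin 6) (x : Fin D → ℝ)
    (c c' : Body D s) : Prop :=
  match f with
  | 0 => ∃ y, c.Enters u i x y
  | 1 => ∃ y, c'.Enters u i x y
  | 2 => ∃ y, IsIth i (c.Z u x) y ∧ linePt u x y ∈ c'.carrier
  | 3 => ∃ y, IsIth i (c'.Z u x) y ∧ linePt u x y ∈ c.carrier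
  | 4 => ∃ y y', IsIth i (c.Z u x) y ∧ IsIth i (c'.Z u x) y' ∧ |y - y'| ≤ K * c.ρ
  | 5 => ∃ y y', IsIth i (c.Z u x) y ∧ IsIth i (c'.Z u x) y' ∧ |y - y'| ≤ K * c'.ρ

/-- The predicate `P` alternates `M` times along increasing pairs of elements of `A`. -/
def Alternates {V : Type} [LinearOrder V] (M : ℕ) (A : Finset V) (P : V → V → Prop) : Prop :=
  ∃ a b : Fin M → V, (∀ i, a i ∈ A) ∧ (∀ i, b i ∈ A) ∧ (∀ i, a i < b i) ∧
    (∀ i j, i < j → b i < a j) ∧ ∀ i, (P (a i) (b i) ↔ i.val % 2 = 0)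

/-- `P` has the same truth value on all increasing pairs of elements of `N`. -/
def Homog {V : Type} [LinearOrder V] (N : Finset V) (P : V → V → Prop) : Prop :=
  ∀ p ∈ N, ∀ p' ∈ N, ∀ r ∈ N, ∀ r' ∈ N, p < p' → r < r' → (P p p' ↔ P r r')

/-- The direction `w` or `-w`. -/
def dir {D : ℕ} (w : Sp (D + 1)) (ε : Bool) : Fin (D + 1) → ℝ :=
  fun l => if ε then w l else -w l

/-- A colour: `D + 2` directions, and for each direction and each of the `D + 1` bodies of a
vertex an orientation and a root number. -/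
structure Colour (D : ℕ) where
  ω : Fin (D + 2) → Sp (D + 1)
  ε : Fin (D + 2) → Fin (D + 1) → Bool
  ι : Fin (D + 2) → Fin (D + 1) → ℕ

/-- The point `xe` certifies that the tuple `e` of bodies is an edge of colour `χ`. -/
def Cert {D s n : ℕ} (c : Fin n → Body D s) (χ : Colour D) (η : ℝ) (e : Fin (D + 1) → Fin n)
    (xe : Fin (D + 1) → ℝ) : Prop :=
  ∀ a k, ∃ y, (c (e k)).Enters (dir (χ.ω a) (χ.ε a k)) (χ.ι a k)
      (basePt (dir (χ.ω a) (χ.ε a k)) xe) y ∧
    |y - xe 0 / dir (χ.ω a) (χ.ε a k) 0| ≤ η ∧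
    ∀ p, (∀ l, p ≠ e l) →
      linePt (dir (χ.ω a) (χ.ε a k)) (basePt (dir (χ.ω a) (χ.ε a k)) xe) y ∉ (c p).carrier

end Pool.Agent.MP_5a1161_co
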