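import Pool.Agent.Lib.MP_5a1161_co_h27.Enter

set_option autoImplicit false

namespace Pool.Agent.MP_5a1161_co

open MvPolynomial Topology

/-- a nonzero polynomial does not vanish on a nonempty open set -/
private theorem not_vanish {m : ℕ} (Q : MvPolynomial (Fin m) ℝ) (hQ : Q ≠ 0) (O : Set (Sp m))
    (hO : IsOpen O) (hne : O.Nonempty) : ∃ x ∈ O, eval (fun i => x i) Q ≠ 0 := by
  by_contra hcon
  push Not at hcon
  apply hQ
  obtain ⟨z, hz⟩ := hne
  have h1 : IsOpen {f : Fin m → ℝ | (WithLp.toLp 2 f : Sp m) ∈ O} :=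
    hO.preimage (PiLp.continuous_toLp 2 _)
  obtain ⟨u, hu, hsub⟩ := isOpen_pi_iff'.1 h1 (fun i => z i) (by exact hz)
  refine MvPolynomial.funext_set u
    (fun i => infinite_of_mem_nhds (z i) ((hu i).1.mem_nhds (hu i).2)) fun f hf => ?_
  rw [map_zero]
  exact hcon _ (hsub hf)

/-- the polynomial of the coordinates of a point whose value is that of `B` at the base point -/
private noncomputable def bp {D : ℕ} (u : Fin (D + 1) → ℝ) (B : MvPolynomial (Fin D) ℝ) :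
    MvPolynomial (Fin (D + 1)) ℝ :=
  aeval (fun l : Fin D => X l.succ - X 0 * C (1 / u 0 * u l.succ)) B

private theorem bp_eval {D : ℕ} (u : Fin (D + 1) → ℝ) (B : MvPolynomial (Fin D) ℝ)
    (x : Fin (D + 1) → ℝ) : eval x (bp u B) = eval (basePt u x) B := by
  unfold bp
  induction B using MvPolynomial.induction_on with
  | C a => simp
  | add p q hp hq => rw [map_add, map_add, hp, hq, map_add]
  | mul_X p i hp =>
    rw [map_mul, map_mul, hp, map_mul, aeval_X, eval_X, map_sub, map_mul, eval_X, eval_X, eval_C]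
    unfold basePt
    ring

private theorem bp_ne {D : ℕ} (u : Fin (D + 1) → ℝ) (B : MvPolynomial (Fin D) ℝ) (hB : B ≠ 0) :
    bp u B ≠ 0 := by
  intro h0
  apply hB
  refine MvPolynomial.funext fun x => ?_
  have h1 := bp_eval u B (Fin.cons 0 x)
  rw [h0, map_zero] at h1
  have h2 : basePt u (Fin.cons 0 x : Fin (D + 1) → ℝ) = x := by
    funext l
    unfold basePt
    simp
  rw [h2] at h1
  rw [← h1, map_zero]

private theorem line_base {D : ℕ} (u : Fin (D + 1) → ℝ) (hu : u 0 ≠ 0) (x : Fin (D + 1) → ℝ)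
    (t : ℝ) : linePt u (basePt u x) (x 0 / u 0 + t) = fun l => x l + t * u l := by
  funext l
  refine Fin.cases ?_ (fun i => ?_) l
  · simp only [linePt, Fin.cons_zero]
    field_simp
  · simp only [linePt, Fin.cons_succ, basePt]
    ring

/-- the ball condition along the direction -/
private theorem ball_dir {d : ℕ} (x q v : Sp d) {r c₀ Λ : ℝ} (hr : 0 < r) (hc₀ : 0 < c₀)
    (hΛ : 0 < Λ) (hq : ‖q - x‖ = r) (hv : ‖v‖ ≤ Λ) (hin : c₀ * r ≤ inner ℝ (q - x) v)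
    (t : ℝ) (ht : 0 < t) (ht' : t ≤ c₀ * r / Λ ^ 2) : dist (x + t • v) q < r := by
  have h1 : dist (x + t • v) q ^ 2 < r ^ 2 := by
    have e1 : x + t • v - q = t • v - (q - x) := by abel
    rw [dist_eq_norm, e1, norm_sub_sq_real, norm_smul, real_inner_smul_left, hq,
      real_inner_comm, mul_pow, Real.norm_eq_abs, sq_abs]
    have h2 : t ^ 2 * ‖v‖ ^ 2 ≤ t ^ 2 * Λ ^ 2 :=
      mul_le_mul_of_nonneg_left (pow_le_pow_left₀ (norm_nonneg v) hv 2) (sq_nonneg t)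
    have h3 : t * Λ ^ 2 ≤ c₀ * r := by
      rw [le_div_iff₀ (by positivity)] at ht'
      exact ht'
    have h4 : t * (t * Λ ^ 2) ≤ t * (c₀ * r) := mul_le_mul_of_nonneg_left h3 ht.le
    have h5 : t * (c₀ * r) ≤ t * inner ℝ (q - x) v := mul_le_mul_of_nonneg_left hin ht.le
    have h6 : 0 < t * (c₀ * r) := by positivity
    nlinarith [h2, h4, h5, h6]
  exact lt_of_pow_lt_pow_left₀ 2 hr.le h1

/-- the direction as a vector -/
private def dv {D : ℕ} (w : Sp (D + 1)) (ε : Bool) : Sp (D + 1) := if ε then w else -w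

private theorem dv_apply {D : ℕ} (w : Sp (D + 1)) (ε : Bool) (l : Fin (D + 1)) :
    dv w ε l = dir w ε l := by
  unfold dv dir
  cases ε <;> simp

private theorem dv_norm {D : ℕ} (w : Sp (D + 1)) (ε : Bool) : ‖dv w ε‖ = ‖w‖ := by
  unfold dv
  cases ε <;> simp

private theorem dir_zero {D : ℕ} (w : Sp (D + 1)) (ε : Bool) (h : w 0 = 1) : dir w ε 0 ≠ 0 := by
  unfold dir
  cases ε <;> simp [h]

/-- the coordinates of the points of the line -/
private theorem line_pt {D : ℕ} (w : Sp (D + 1)) (ε : Bool) (h : w 0 = 1) (xe : Sp (D + 1))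
    (t : ℝ) :
    linePt (dir w ε) (basePt (dir w ε) fun l => xe l) (xe 0 / dir w ε 0 + t) =
      fun l => (xe + t • dv w ε) l := by
  rw [line_base (dir w ε) (dir_zero w ε h) (fun l => xe l) t]
  funext l
  rw [PiLp.add_apply, PiLp.smul_apply, dv_apply, smul_eq_mul]

/-- One orientation, one body: the entrance point. -/
private theorem one {D s b n : ℕ} {Λ : ℝ} (hΛ : 0 < Λ) (w : Sp (D + 1)) (hw0 : w 0 = 1)
    (hwΛ : ‖w‖ ≤ Λ) (ε : Bool) (C : Fin n → Set (Sp (D + 1))) (c : Fin n → Body D s)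
    (hdeg : ∀ i j, ((c i).P j).totalDegree ≤ b)
    (hmem : ∀ i (x : Sp (D + 1)), x ∈ C i ↔ (fun l => x l) ∈ (c i).carrier)
    (k : Fin n) (x xe : Sp (D + 1)) {η η' h ε0 : ℝ} (hη : η' ≤ η) (hηρ : η' ≤ (c k).ρ)
    (hηε : η' ≤ ε0 / (2 * Λ)) (hh : h = 3 * (c k).ρ) (hdist : dist xe x < ε0 / 2)
    (far : Set (Fin n)) (hfar : ∀ p ∈ far, ∀ z, dist z x < ε0 → z ∉ C p)
    (hgood : ∀ j, (c k).P j ≠ 0 → ∃ y, eval (linePt (dir w ε)
      (basePt (dir w ε) fun l => xe l) y) ((c k).P j) ≠ 0)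
    (hent : ∃ y, 0 < y ∧ y < η' ∧ xe + y • dv w ε ∈ C k ∧
      (∀ t, y ≤ t → t ≤ h → xe + t • dv w ε ∈ C k) ∧
      ∀ δ > 0, ∃ t, y - δ < t ∧ t < y ∧ xe + t • dv w ε ∉ C k) :
    ∃ i ≤ s * b, ∃ y, (c k).Enters (dir w ε) i (basePt (dir w ε) fun l => xe l) y ∧
      |y - xe 0 / dir w ε 0| ≤ η ∧
      ∀ p ∈ far, linePt (dir w ε) (basePt (dir w ε) fun l => xe l) y ∉ (c p).carrier := by
  obtain ⟨t0, ht0, ht0', hin, hseg, hout⟩ := hent
  obtain ⟨hfin, hcard, hroot⟩ := enter_root (c k) (hdeg k) (dir w ε)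
    (basePt (dir w ε) fun l => xe l) hgood
  have hcar : ∀ p t, linePt (dir w ε) (basePt (dir w ε) fun l => xe l)
      (xe 0 / dir w ε 0 + t) ∈ (c p).carrier ↔ xe + t • dv w ε ∈ C p := by
    intro p t
    rw [line_pt w ε hw0 xe t, ← hmem]
  have hyZ : xe 0 / dir w ε 0 + t0 ∈ (c k).Z (dir w ε) (basePt (dir w ε) fun l => xe l) := by
    refine hroot _ ((hcar k t0).2 hin) fun δ hδ => ?_
    obtain ⟨t, ht1, ht2, ht3⟩ := hout δ hδ
    refine ⟨xe 0 / dir w ε 0 + t, by linarith, by linarith, fun hc => ht3 ((hcar k t).1 hc)⟩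
  refine ⟨((c k).Z (dir w ε) (basePt (dir w ε) fun l => xe l) ∩
    Set.Iio (xe 0 / dir w ε 0 + t0)).ncard,
    (Set.ncard_le_ncard Set.inter_subset_left hfin).trans hcard, xe 0 / dir w ε 0 + t0,
    ⟨⟨hyZ, hfin.subset Set.inter_subset_left, rfl⟩, ?_⟩, ?_, ?_⟩
  · intro t ht1 ht2
    have e1 : t = xe 0 / dir w ε 0 + (t - xe 0 / dir w ε 0) := by ring
    rw [e1, hcar]
    refine hseg _ (by linarith) ?_
    rw [hh]
    linarith
  · have e1 : xe 0 / dir w ε 0 + t0 - xe 0 / dir w ε 0 = t0 := by ring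
    rw [e1, abs_of_pos ht0]
    linarith
  · intro p hp
    rw [hcar]
    refine hfar p hp _ ?_
    have h1 : dist (xe + t0 • dv w ε) x ≤ ‖t0 • dv w ε‖ + dist xe x := by
      calc dist (xe + t0 • dv w ε) x ≤ dist (xe + t0 • dv w ε) xe + dist xe x :=
            dist_triangle _ _ _
        _ = ‖t0 • dv w ε‖ + dist xe x := by
            rw [dist_eq_norm, add_sub_cancel_left]
    have h2 : ‖t0 • dv w ε‖ ≤ ε0 / 2 := by
      rw [norm_smul, dv_norm, Real.norm_eq_abs, abs_of_pos ht0]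
      have h3 : t0 * ‖w‖ ≤ ε0 / (2 * Λ) * Λ :=
        mul_le_mul (by linarith) hwΛ (norm_nonneg w) (by linarith)
      have h4 : ε0 / (2 * Λ) * Λ = ε0 / 2 := by
        field_simp
      linarith
    linarith

/-- Every vertex of the union has a certificate: a colour and an exterior point. -/
theorem edge_cert {D s b n : ℕ} {κ : ℝ} (hκ : 0 < κ) (W : Finset (Sp (D + 1))) {c₀ Λ : ℝ}
    (hc₀ : 0 < c₀) (hΛ : 0 < Λ) (hW0 : ∀ w ∈ W, w 0 = 1) (hWΛ : ∀ w ∈ W, ‖w‖ ≤ Λ)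
    (hdir : ∀ ν : Fin (D + 1) → Sp (D + 1), (∀ k, ‖ν k‖ = 1) →
      ∃ ω : Fin (D + 2) → Sp (D + 1), Function.Injective ω ∧ (∀ a, ω a ∈ W) ∧
        ∀ a k, c₀ ≤ |inner ℝ (ν k) (ω a)|)
    (C : Fin n → Set (Sp (D + 1))) (hC : ∀ i, IsRound κ (C i)) (c : Fin n → Body D s)
    (hdeg : ∀ i j, ((c i).P j).totalDegree ≤ b)
    (hmem : ∀ i (x : Sp (D + 1)), x ∈ C i ↔ (fun l => x l) ∈ (c i).carrier)
    (hρ : ∀ i, (c i).ρ = c₀ / (3 * Λ ^ 2) * (κ * Metric.diam (C i)))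
    (B : Sp (D + 1) → Bool → Fin n → Fin n → MvPolynomial (Fin D) ℝ)
    (hB : ∀ w ∈ W, ∀ ε p p', B w ε p p' ≠ 0)
    (hBgood : ∀ w ∈ W, ∀ ε p p' x, eval x (B w ε p p') ≠ 0 →
      ∀ j, (c p).P j ≠ 0 → ∃ y, eval (linePt (dir w ε) x y) ((c p).P j) ≠ 0)
    {η : ℝ} (hη : 0 < η) (e : Fin (D + 1) → Fin n) (x : Sp (D + 1))
    (hx : x ∈ frontier (⋃ i, C i)) (hxe : ∀ i, x ∈ frontier (C i) ↔ ∃ k, e k = i) :
    ∃ χ : Colour D, Function.Injective χ.ω ∧ (∀ a, χ.ω a ∈ W) ∧ (∀ a k, χ.ι a k ≤ s * b) ∧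
      ∃ xe : Fin (D + 1) → ℝ, Cert c χ η e xe ∧
        ∀ w ∈ W, ∀ ε p p', eval (basePt (dir w ε) xe) (B w ε p p') ≠ 0 := by
  classical
  have hcl : ∀ i, IsClosed (C i) := fun i => (hC i).compact.isClosed
  have hUcl : IsClosed (⋃ i, C i) := isClosed_iUnion_of_finite hcl
  have hxi : x ∉ interior (⋃ i, C i) := hx.2
  have hxfr : ∀ k, x ∈ frontier (C (e k)) := fun k => (hxe (e k)).2 ⟨k, rfl⟩
  have hxin : ∀ i, x ∉ interior (C i) := fun i h =>
    hxi (interior_mono (Set.subset_iUnion C i) h)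
  have hxout : ∀ p, (∀ l, p ≠ e l) → x ∉ C p := by
    intro p hp hxp
    have h1 : x ∈ frontier (C p) := ⟨subset_closure hxp, hxin p⟩
    obtain ⟨k, hk⟩ := (hxe p).1 h1
    exact hp k hk.symm
  -- the balls
  have hdiam : ∀ i, 0 < κ * Metric.diam (C i) := by
    intro i
    refine mul_pos hκ (Metric.diam_pos ?_ (hC i).compact.isBounded)
    obtain ⟨z, hz⟩ := (hC i).body
    exact (infinite_of_mem_nhds z (mem_interior_iff_mem_nhds.1 hz)).nontrivial
  choose q hq1 hq2 using fun k => (hC (e k)).round x (hxfr k)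
  have hqd : ∀ k, ‖q k - x‖ = κ * Metric.diam (C (e k)) := by
    intro k
    have h1 : dist x (q k) ≤ κ * Metric.diam (C (e k)) := Metric.mem_closedBall.1 (hq1 k)
    rw [← dist_eq_norm, dist_comm]
    refine le_antisymm h1 (not_lt.1 fun h2 => ?_)
    have h3 : x ∈ interior (C (e k)) :=
      interior_mono (hq2 k) (Metric.ball_subset_interior_closedBall (Metric.mem_ball.2 h2))
    exact hxin (e k) h3
  obtain ⟨ω, hinj, hωW, hω⟩ := hdir
    (fun k => (1 / (κ * Metric.diam (C (e k)))) • (q k - x)) (by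
      intro k
      rw [norm_smul, hqd k, Real.norm_eq_abs, abs_of_pos (one_div_pos.2 (hdiam (e k)))]
      exact one_div_mul_cancel (hdiam (e k)).ne')
  have hε : ∀ a k, ∃ ε : Bool, c₀ * (κ * Metric.diam (C (e k))) ≤
      inner ℝ (q k - x) (dv (ω a) ε) := by
    intro a k
    have h1 := hω a k
    rw [real_inner_smul_left, abs_mul, abs_of_pos (one_div_pos.2 (hdiam (e k)))] at h1
    have h2 : c₀ * (κ * Metric.diam (C (e k))) ≤ |inner ℝ (q k - x) (ω a)| := by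
      rw [one_div, inv_mul_eq_div, le_div_iff₀ (hdiam (e k))] at h1
      exact h1
    rcases le_total 0 (inner ℝ (q k - x) (ω a)) with h3 | h3
    · refine ⟨true, ?_⟩
      rw [abs_of_nonneg h3] at h2
      simpa [dv] using h2
    · refine ⟨false, ?_⟩
      rw [abs_of_nonpos h3] at h2
      simpa [dv, inner_neg_right] using h2
  choose ε hε using hε
  have hρ3 : ∀ k, c₀ * (κ * Metric.diam (C (e k))) / Λ ^ 2 = 3 * (c (e k)).ρ := by
    intro k
    rw [hρ]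
    field_simp
  have hρ0 : ∀ k, 0 < (c (e k)).ρ := by
    intro k
    rw [hρ]
    have := hdiam (e k)
    positivity
  -- the bodies far away
  obtain ⟨ε0, hε0, hfar⟩ : ∃ ε0 : ℝ, 0 < ε0 ∧
      ∀ p ∈ {p | ∀ l, p ≠ e l}, ∀ z, dist z x < ε0 → z ∉ C p := by
    have h1 : IsClosed (⋃ p ∈ {p : Fin n | ∀ l, p ≠ e l}, C p) :=
      (Set.toFinite _).isClosed_biUnion fun p _ => hcl p
    have h2 : x ∈ (⋃ p ∈ {p : Fin n | ∀ l, p ≠ e l}, C p)ᶜ := by
      intro h3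
      obtain ⟨p, hp, hxp⟩ := Set.mem_iUnion₂.1 h3
      exact hxout p hp hxp
    obtain ⟨ε0, hε0, hsub⟩ := Metric.isOpen_iff.1 h1.isOpen_compl x h2
    refine ⟨ε0, hε0, fun p hp z hz hzp => ?_⟩
    exact hsub (Metric.mem_ball.2 hz) (Set.mem_iUnion₂.2 ⟨p, hp, hzp⟩)
  -- the neighbourhood
  have hη' : ∀ k, 0 < min (min η (c (e k)).ρ) (ε0 / (2 * Λ)) := by
    intro k
    have := hρ0 k
    refine lt_min (lt_min hη this) (by positivity)
  have hev : ∀ᶠ xe in 𝓝 x, (∀ a k, xe ∉ C (e k) → ∃ y, 0 < y ∧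
      y < min (min η (c (e k)).ρ) (ε0 / (2 * Λ)) ∧ xe + y • dv (ω a) (ε a k) ∈ C (e k) ∧
      (∀ t, y ≤ t → t ≤ 3 * (c (e k)).ρ → xe + t • dv (ω a) (ε a k) ∈ C (e k)) ∧
      ∀ δ > 0, ∃ t, y - δ < t ∧ t < y ∧ xe + t • dv (ω a) (ε a k) ∉ C (e k)) ∧
      dist xe x < ε0 / 2 := by
    refine Filter.Eventually.and ?_ ?_
    · rw [Filter.eventually_all]
      intro a
      rw [Filter.eventually_all]
      intro k
      refine enter_ball (C (e k)) (hcl (e k)) x (q k) (dv (ω a) (ε a k))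
        (κ * Metric.diam (C (e k))) (3 * (c (e k)).ρ) _ (hq2 k) ?_ (hη' k) ?_
      · intro t ht1 ht2
        refine ball_dir x (q k) (dv (ω a) (ε a k)) (hdiam (e k)) hc₀ hΛ (hqd k) ?_ (hε a k) t ht1
          ?_
        · rw [dv_norm]
          exact hWΛ _ (hωW a)
        · rw [hρ3 k]
          exact ht2
      · have h1 : min (min η (c (e k)).ρ) (ε0 / (2 * Λ)) ≤ (c (e k)).ρ :=
          (min_le_left _ _).trans (min_le_right _ _)
        linarith [hρ0 k]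
    · exact Metric.ball_mem_nhds x (by linarith)
  obtain ⟨N, hNsub, hNo, hxN⟩ := mem_nhds_iff.1 hev
  have hclos : x ∈ closure (⋃ i, C i)ᶜ := by
    rw [closure_compl]
    exact hxi
  have hOne : (N ∩ (⋃ i, C i)ᶜ).Nonempty := mem_closure_iff.1 hclos N hNo hxN
  have hOo : IsOpen (N ∩ (⋃ i, C i)ᶜ) := hNo.inter hUcl.isOpen_compl
  -- the polynomial
  have hQ : (∏ w ∈ W, ∏ ε' : Bool, ∏ p : Fin n, ∏ p' : Fin n,
      bp (dir w ε') (B w ε' p p')) ≠ 0 := by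
    rw [Finset.prod_ne_zero_iff]
    intro w hw
    rw [Finset.prod_ne_zero_iff]
    intro ε' _
    rw [Finset.prod_ne_zero_iff]
    intro p _
    rw [Finset.prod_ne_zero_iff]
    intro p' _
    exact bp_ne _ _ (hB w hw ε' p p')
  obtain ⟨xe, hxeO, hxeQ⟩ := not_vanish _ hQ _ hOo hOne
  have hgood : ∀ w ∈ W, ∀ ε' p p',
      eval (basePt (dir w ε') fun l => xe l) (B w ε' p p') ≠ 0 := by
    intro w hw ε' p p'
    rw [map_prod, Finset.prod_ne_zero_iff] at hxeQ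
    have h1 := hxeQ w hw
    rw [map_prod, Finset.prod_ne_zero_iff] at h1
    have h2 := h1 ε' (Finset.mem_univ _)
    rw [map_prod, Finset.prod_ne_zero_iff] at h2
    have h3 := h2 p (Finset.mem_univ _)
    rw [map_prod, Finset.prod_ne_zero_iff] at h3
    have h4 := h3 p' (Finset.mem_univ _)
    rw [bp_eval] at h4
    exact h4
  obtain ⟨hent, hdist⟩ := hNsub hxeO.1
  have hxeU : ∀ i, xe ∉ C i := fun i h => hxeO.2 (Set.mem_iUnion.2 ⟨i, h⟩)
  have hall : ∀ a k, ∃ i ≤ s * b, ∃ y,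
      (c (e k)).Enters (dir (ω a) (ε a k)) i (basePt (dir (ω a) (ε a k)) fun l => xe l) y ∧
      |y - xe 0 / dir (ω a) (ε a k) 0| ≤ η ∧
      ∀ p ∈ {p | ∀ l, p ≠ e l}, linePt (dir (ω a) (ε a k))
        (basePt (dir (ω a) (ε a k)) fun l => xe l) y ∉ (c p).carrier := by
    intro a k
    refine one hΛ (ω a) (hW0 _ (hωW a)) (hWΛ _ (hωW a)) (ε a k) C c hdeg hmem (e k) x xe
      (η' := min (min η (c (e k)).ρ) (ε0 / (2 * Λ))) (h := 3 * (c (e k)).ρ) (ε0 := ε0)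
      ((min_le_left _ _).trans (min_le_left _ _)) ((min_le_left _ _).trans (min_le_right _ _))
      (min_le_right _ _) rfl hdist {p | ∀ l, p ≠ e l} hfar ?_ (hent a k (hxeU (e k)))
    exact hBgood (ω a) (hωW a) (ε a k) (e k) (e k) _ (hgood (ω a) (hωW a) (ε a k) (e k) (e k))
  choose ι hι1 hι2 using hall
  refine ⟨⟨ω, ε, ι⟩, hinj, hωW, hι1, fun l => xe l, ?_, hgood⟩
  intro a k
  obtain ⟨y, hy1, hy2, hy3⟩ := hι2 a k
  exact ⟨y, hy1, hy2, fun p hp => hy3 p hp⟩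

end Pool.Agent.MP_5a1161_co
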