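import Pool.Agent.Lib.MP_5a1161_co_h27.Defs

set_option autoImplicit false

namespace Pool.Agent.MP_5a1161_co

open MvPolynomial Topology

/-- From exterior points near `x` the ray in direction `u` enters `c` at once. -/
theorem enter_ball {d : ℕ} (c : Set (Sp d)) (hc : IsClosed c) (x q u : Sp d) (r h η : ℝ)
    (hball : Metric.closedBall q r ⊆ c) (hu : ∀ t, 0 < t → t ≤ h → dist (x + t • u) q < r)
    (hη : 0 < η) (hηh : η ≤ h) :
    ∀ᶠ xe in 𝓝 x, xe ∉ c → ∃ y, 0 < y ∧ y < η ∧ xe + y • u ∈ c ∧
      (∀ t, y ≤ t → t ≤ h → xe + t • u ∈ c) ∧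
      ∀ δ > 0, ∃ t, y - δ < t ∧ t < y ∧ xe + t • u ∉ c := by
  have hev : ∀ᶠ xe in 𝓝 x, ∀ t ∈ Set.Icc (η / 2) h, dist (xe + t • u) q < r := by
    refine (isCompact_Icc (a := η / 2) (b := h)).eventually_forall_of_forall_eventually ?_
    intro t ht
    have hcont : Continuous fun z : Sp d × ℝ => dist (z.1 + z.2 • u) q := by fun_prop
    exact hcont.continuousAt.eventually_lt continuousAt_const
      (hu t (by linarith [ht.1]) ht.2)
  filter_upwards [hev] with xe hxe hxc
  set T : Set ℝ := {t | (0 ≤ t ∧ t ≤ η / 2) ∧ xe + t • u ∉ c} with hT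
  have h0T : (0 : ℝ) ∈ T := ⟨⟨le_refl _, by linarith⟩, by simpa using hxc⟩
  have hbd : BddAbove T := ⟨η / 2, fun t ht => ht.1.2⟩
  have hy0 : 0 ≤ sSup T := le_csSup hbd h0T
  have hya : sSup T ≤ η / 2 := csSup_le ⟨0, h0T⟩ fun t ht => ht.1.2
  have hin : ∀ t, sSup T < t → t ≤ h → xe + t • u ∈ c := by
    intro t h1 h2
    by_cases h3 : t ≤ η / 2
    · by_contra h4
      have h5 : t ∈ T := ⟨⟨by linarith, h3⟩, h4⟩
      exact absurd (le_csSup hbd h5) (not_le.mpr h1)
    · refine hball ?_
      rw [Metric.mem_closedBall]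
      exact (hxe t ⟨by linarith [not_le.mp h3], h2⟩).le
  have hyc : xe + sSup T • u ∈ c := by
    have hlt : sSup T < h := by linarith
    have hcont : Continuous fun t : ℝ => xe + t • u := by fun_prop
    have hcl : IsClosed {t : ℝ | xe + t • u ∈ c} := hc.preimage hcont
    have hsub : Set.Ioo (sSup T) h ⊆ {t : ℝ | xe + t • u ∈ c} := fun t ht => hin t ht.1 ht.2.le
    have hmem : sSup T ∈ closure (Set.Ioo (sSup T) h) := by
      rw [closure_Ioo hlt.ne]
      exact ⟨le_refl _, hlt.le⟩
    exact hcl.closure_subset_iff.mpr hsub hmem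
  have hypos : 0 < sSup T := by
    rcases hy0.lt_or_eq with h1 | h1
    · exact h1
    · exfalso
      rw [← h1] at hyc
      apply hxc
      simpa using hyc
  refine ⟨sSup T, hypos, by linarith, hyc, ?_, ?_⟩
  · intro t h1 h2
    rcases h1.lt_or_eq with h3 | h3
    · exact hin t h3 h2
    · rw [← h3]
      exact hyc
  · intro δ hδ
    obtain ⟨t, htT, ht⟩ := exists_lt_of_lt_csSup (⟨0, h0T⟩ : T.Nonempty)
      (show sSup T - δ < sSup T by linarith)
    refine ⟨t, ht, ?_, htT.2⟩
    rcases (le_csSup hbd htT).lt_or_eq with h1 | h1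
    · exact h1
    · exfalso
      apply htT.2
      rw [h1]
      exact hyc

/-- the coordinates on the line as polynomials -/
private noncomputable def lp {D : ℕ} (u : Fin (D + 1) → ℝ) (x : Fin D → ℝ) :
    Fin (D + 1) → Polynomial ℝ :=
  Fin.cons (Polynomial.X * Polynomial.C (u 0))
    fun l => Polynomial.C (x l) + Polynomial.X * Polynomial.C (u l.succ)

private theorem lp_eval {D : ℕ} (u : Fin (D + 1) → ℝ) (x : Fin D → ℝ) (y : ℝ) (i : Fin (D + 1)) :
    (lp u x i).eval y = linePt u x y i := by
  refine Fin.cases ?_ (fun l => ?_) i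
  · simp only [lp, linePt, Fin.cons_zero, Polynomial.eval_mul, Polynomial.eval_X,
      Polynomial.eval_C]
  · simp only [lp, linePt, Fin.cons_succ, Polynomial.eval_add, Polynomial.eval_mul,
      Polynomial.eval_X, Polynomial.eval_C]

private theorem lp_deg {D : ℕ} (u : Fin (D + 1) → ℝ) (x : Fin D → ℝ) (i : Fin (D + 1)) :
    (lp u x i).natDegree ≤ 1 := by
  refine Fin.cases ?_ (fun l => ?_) i
  · simp only [lp, Fin.cons_zero]
    refine (Polynomial.natDegree_mul_C_le _ _).trans Polynomial.natDegree_X_le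
  · simp only [lp, Fin.cons_succ]
    refine (Polynomial.natDegree_add_le _ _).trans (max_le ?_ ?_)
    · rw [Polynomial.natDegree_C]
      exact Nat.zero_le _
    · exact (Polynomial.natDegree_mul_C_le _ _).trans Polynomial.natDegree_X_le

private theorem lp_aeval {D : ℕ} (u : Fin (D + 1) → ℝ) (x : Fin D → ℝ) (y : ℝ)
    (P : MvPolynomial (Fin (D + 1)) ℝ) :
    (MvPolynomial.aeval (lp u x) P).eval y = eval (linePt u x y) P := by
  induction P using MvPolynomial.induction_on with
  | C a => simp
  | add p q hp hq => rw [map_add, Polynomial.eval_add, hp, hq, map_add]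
  | mul_X p i hp => rw [map_mul, Polynomial.eval_mul, hp, map_mul, aeval_X, eval_X, lp_eval]

/-- The entrance point is a zero of one of the nonzero polynomials; there are at most `s * b`
zeros. -/
theorem enter_root {D s b : ℕ} (c : Body D s) (hdeg : ∀ j, (c.P j).totalDegree ≤ b)
    (u : Fin (D + 1) → ℝ) (x : Fin D → ℝ)
    (hne : ∀ j, c.P j ≠ 0 → ∃ y, eval (linePt u x y) (c.P j) ≠ 0) :
    (c.Z u x).Finite ∧ (c.Z u x).ncard ≤ s * b ∧
    ∀ y, linePt u x y ∈ c.carrier →
      (∀ δ > 0, ∃ t, y - δ < t ∧ t < y ∧ linePt u x t ∉ c.carrier) → y ∈ c.Z u x := by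
  classical
  have hQne : ∀ j, c.P j ≠ 0 → MvPolynomial.aeval (lp u x) (c.P j) ≠ 0 := by
    intro j hj h0
    obtain ⟨y, hy⟩ := hne j hj
    rw [← lp_aeval, h0, Polynomial.eval_zero] at hy
    exact hy rfl
  have hQdeg : ∀ j, (MvPolynomial.aeval (lp u x) (c.P j)).natDegree ≤ b := by
    intro j
    have h := MvPolynomial.aeval_natDegree_le (c.P j) (hdeg j) (lp u x) (lp_deg u x)
    simpa using h
  set F : Finset ℝ := Finset.univ.biUnion fun j : Fin s =>
    (MvPolynomial.aeval (lp u x) (c.P j)).roots.toFinset with hF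
  have hsub : c.Z u x ⊆ (F : Set ℝ) := by
    rintro y ⟨j, hj, hy⟩
    rw [hF, Finset.coe_biUnion]
    refine Set.mem_biUnion (Finset.mem_coe.mpr (Finset.mem_univ j)) ?_
    rw [Finset.mem_coe, Multiset.mem_toFinset, Polynomial.mem_roots (hQne j hj),
      Polynomial.IsRoot, lp_aeval]
    exact hy
  have hcard : F.card ≤ s * b := by
    refine Finset.card_biUnion_le.trans ?_
    refine (Finset.sum_le_sum fun j _ => (Multiset.toFinset_card_le _).trans
      ((Polynomial.card_roots' _).trans (hQdeg j))).trans ?_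
    simp
  have hfin : (c.Z u x).Finite := F.finite_toSet.subset hsub
  refine ⟨hfin, ?_, ?_⟩
  · refine (Set.ncard_le_ncard hsub F.finite_toSet).trans ?_
    rw [Set.ncard_coe_finset]
    exact hcard
  · intro y hy hδ
    by_contra hyZ
    have hsign : ∀ j, ∀ᶠ t in 𝓝 y, SignType.sign (eval (linePt u x t) (c.P j)) =
        SignType.sign (eval (linePt u x y) (c.P j)) := by
      intro j
      by_cases hj : c.P j = 0
      · refine Filter.Eventually.of_forall fun t => ?_
        rw [hj, (eval (linePt u x t)).map_zero, (eval (linePt u x y)).map_zero]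
      · have h1 : eval (linePt u x y) (c.P j) ≠ 0 := fun h0 => hyZ ⟨j, hj, h0⟩
        have hcont : Continuous fun t : ℝ => eval (linePt u x t) (c.P j) := by
          have h2 : (fun t : ℝ => eval (linePt u x t) (c.P j)) =
              fun t => (MvPolynomial.aeval (lp u x) (c.P j)).eval t := by
            funext t
            rw [lp_aeval]
          rw [h2]
          exact Polynomial.continuous _
        rcases lt_or_gt_of_ne h1 with h2 | h2
        · filter_upwards [hcont.continuousAt.eventually_lt continuousAt_const h2] with t ht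
          rw [sign_neg ht, sign_neg h2]
        · filter_upwards [continuousAt_const.eventually_lt hcont.continuousAt h2] with t ht
          rw [sign_pos ht, sign_pos h2]
    have hall : ∀ᶠ t in 𝓝 y, ∀ j, SignType.sign (eval (linePt u x t) (c.P j)) =
        SignType.sign (eval (linePt u x y) (c.P j)) := Filter.eventually_all.mpr hsign
    obtain ⟨δ, hδ0, hδ1⟩ := Metric.eventually_nhds_iff.mp hall
    obtain ⟨t, ht1, ht2, ht3⟩ := hδ δ hδ0
    apply ht3
    have hd : dist t y < δ := by
      rw [Real.dist_eq, abs_lt]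
      constructor <;> linarith
    have h3 : (fun j => SignType.sign (eval (linePt u x t) (c.P j))) =
        fun j => SignType.sign (eval (linePt u x y) (c.P j)) := funext (hδ1 hd)
    change c.Φ fun j => SignType.sign (eval (linePt u x t) (c.P j))
    rw [h3]
    exact hy

end Pool.Agent.MP_5a1161_co
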