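import Pool.Agent.Lib.MP_5a1161_co_h27.Defs

set_option autoImplicit false

namespace Pool.Agent.MP_5a1161_co

open MvPolynomial

private def LPGood {D : ℕ} (b : ℕ) (G : Polynomial (MvPolynomial (Fin D) ℝ)) : Prop :=
  ∀ l m, coeff m (G.coeff l) ≠ 0 → m.degree + l ≤ b

private lemma LPGood.mono {D a b : ℕ} {G : Polynomial (MvPolynomial (Fin D) ℝ)}
    (h : LPGood a G) (hab : a ≤ b) : LPGood b G := fun l m hm => (h l m hm).trans hab

private lemma LPGood.zero {D : ℕ} (b : ℕ) :
    LPGood b (0 : Polynomial (MvPolynomial (Fin D) ℝ)) := by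
  intro l m hm
  simp at hm

private lemma LPGood.add {D b : ℕ} {G H : Polynomial (MvPolynomial (Fin D) ℝ)}
    (hG : LPGood b G) (hH : LPGood b H) : LPGood b (G + H) := by
  intro l m hm
  rw [Polynomial.coeff_add, MvPolynomial.coeff_add] at hm
  by_cases h : coeff m (G.coeff l) = 0
  · rw [h, zero_add] at hm
    exact hH l m hm
  · exact hG l m h

private lemma LPGood.mul {D a b : ℕ} {G H : Polynomial (MvPolynomial (Fin D) ℝ)}
    (hG : LPGood a G) (hH : LPGood b H) : LPGood (a + b) (G * H) := by
  intro l m hm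
  rw [Polynomial.coeff_mul, MvPolynomial.coeff_sum] at hm
  obtain ⟨ij, hij, h1⟩ := Finset.exists_ne_zero_of_sum_ne_zero hm
  rw [MvPolynomial.coeff_mul] at h1
  obtain ⟨mm, hmm, h2⟩ := Finset.exists_ne_zero_of_sum_ne_zero h1
  rw [Finset.HasAntidiagonal.mem_antidiagonal] at hij hmm
  have h3 := hG ij.1 mm.1 (left_ne_zero_of_mul h2)
  have h4 := hH ij.2 mm.2 (right_ne_zero_of_mul h2)
  rw [← hij, ← hmm, map_add]
  omega

private lemma LPGood.C {D : ℕ} (r : ℝ) :
    LPGood 0 (Polynomial.C (MvPolynomial.C r) : Polynomial (MvPolynomial (Fin D) ℝ)) := by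
  intro l m hm
  rw [Polynomial.coeff_C] at hm
  split_ifs at hm with h
  · rw [MvPolynomial.coeff_C] at hm
    split_ifs at hm with h2
    · rw [← h2, h]
      simp
    · exact absurd rfl hm
  · simp at hm

private lemma LPGood.CX {D : ℕ} (i : Fin D) :
    LPGood 1 (Polynomial.C (MvPolynomial.X i) : Polynomial (MvPolynomial (Fin D) ℝ)) := by
  intro l m hm
  rw [Polynomial.coeff_C] at hm
  split_ifs at hm with h
  · rw [MvPolynomial.coeff_X] at hm
    split_ifs at hm with h2
    · rw [← h2, h]
      simp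
    · exact absurd rfl hm
  · simp at hm

private lemma LPGood.X {D : ℕ} :
    LPGood 1 (Polynomial.X : Polynomial (MvPolynomial (Fin D) ℝ)) := by
  intro l m hm
  rw [Polynomial.coeff_X] at hm
  split_ifs at hm with h
  · rw [MvPolynomial.coeff_one] at hm
    split_ifs at hm with h2
    · rw [← h2, ← h]
      simp
    · exact absurd rfl hm
  · simp at hm

private lemma LPGood.pow {D a : ℕ} {G : Polynomial (MvPolynomial (Fin D) ℝ)}
    (hG : LPGood a G) (n : ℕ) : LPGood (n * a) (G ^ n) := by
  induction n with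
  | zero =>
    rw [pow_zero, zero_mul]
    have := LPGood.C (D := D) 1
    simpa using this
  | succ n ih =>
    rw [pow_succ, Nat.succ_mul]
    exact ih.mul hG

private lemma LPGood.prod {D : ℕ} {ι : Type} (s : Finset ι)
    (G : ι → Polynomial (MvPolynomial (Fin D) ℝ)) (b : ι → ℕ) (h : ∀ i ∈ s, LPGood (b i) (G i)) :
    LPGood (∑ i ∈ s, b i) (∏ i ∈ s, G i) := by
  classical
  induction s using Finset.induction_on with
  | empty =>
    rw [Finset.sum_empty, Finset.prod_empty]
    have := LPGood.C (D := D) 1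
    simpa using this
  | insert i s hi ih =>
    rw [Finset.sum_insert hi, Finset.prod_insert hi]
    exact (h i (Finset.mem_insert_self i s)).mul
      (ih fun j hj => h j (Finset.mem_insert_of_mem hj))

private lemma LPGood.sum {D b : ℕ} {ι : Type} (s : Finset ι)
    (G : ι → Polynomial (MvPolynomial (Fin D) ℝ)) (h : ∀ i ∈ s, LPGood b (G i)) :
    LPGood b (∑ i ∈ s, G i) := by
  classical
  induction s using Finset.induction_on with
  | empty =>
    rw [Finset.sum_empty]
    exact LPGood.zero b
  | insert i s hi ih =>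
    rw [Finset.sum_insert hi]
    exact (h i (Finset.mem_insert_self i s)).add
      (ih fun j hj => h j (Finset.mem_insert_of_mem hj))

private noncomputable def lpMap {D : ℕ} (u : Fin (D + 1) → ℝ) (τ : ℝ) :
    Fin (D + 1) → Polynomial (MvPolynomial (Fin D) ℝ) :=
  Fin.cons (Polynomial.C (MvPolynomial.C (u 0)) *
      (Polynomial.X + Polynomial.C (MvPolynomial.C (-τ))))
    fun l => Polynomial.C (MvPolynomial.X l) + Polynomial.C (MvPolynomial.C (u l.succ)) *
      (Polynomial.X + Polynomial.C (MvPolynomial.C (-τ)))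

private lemma lpMap_good {D : ℕ} (u : Fin (D + 1) → ℝ) (τ : ℝ) (i : Fin (D + 1)) :
    LPGood 1 (lpMap u τ i) := by
  have h1 : LPGood 1 (Polynomial.X + Polynomial.C (MvPolynomial.C (-τ)) :
      Polynomial (MvPolynomial (Fin D) ℝ)) := LPGood.X.add ((LPGood.C (-τ)).mono (by omega))
  refine Fin.cases ?_ (fun l => ?_) i
  · have := (LPGood.C (D := D) (u 0)).mul h1
    simpa [lpMap] using this
  · have := (LPGood.CX l).add (by simpa using (LPGood.C (D := D) (u l.succ)).mul h1)
    simpa [lpMap] using this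

private lemma lpMap_eval {D : ℕ} (u : Fin (D + 1) → ℝ) (τ : ℝ) (P : MvPolynomial (Fin (D + 1)) ℝ)
    (x : Fin D → ℝ) (y : ℝ) :
    evalAt (aeval (lpMap u τ) P) x y = eval (linePt u x (y - τ)) P := by
  induction P using MvPolynomial.induction_on with
  | C r =>
    rw [MvPolynomial.aeval_C, MvPolynomial.eval_C]
    have : algebraMap ℝ (Polynomial (MvPolynomial (Fin D) ℝ)) r =
        Polynomial.C (MvPolynomial.C r) := rfl
    rw [this]
    simp [evalAt]
  | add p q hp hq =>
    rw [map_add, map_add, ← hp, ← hq]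
    simp [evalAt, Polynomial.map_add, Polynomial.eval_add]
  | mul_X p i hp =>
    rw [map_mul, map_mul, ← hp, MvPolynomial.aeval_X, MvPolynomial.eval_X]
    have h1 : ∀ G H : Polynomial (MvPolynomial (Fin D) ℝ),
        evalAt (G * H) x y = evalAt G x y * evalAt H x y := by
      intro G H
      simp [evalAt, Polynomial.map_mul, Polynomial.eval_mul]
    rw [h1]
    congr 1
    refine Fin.cases ?_ (fun l => ?_) i
    · simp only [lpMap, Fin.cons_zero, linePt, evalAt]
      simp
      ring
    · simp only [lpMap, Fin.cons_succ, linePt, evalAt]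
      simp
      ring

/-- The restriction of a polynomial to the lines in direction `u`, with a shift `τ` of the
parameter. -/
theorem line_poly (D b : ℕ) (u : Fin (D + 1) → ℝ) (hu : u 0 ≠ 0)
    (P : MvPolynomial (Fin (D + 1)) ℝ) (hP : P.totalDegree ≤ b) (τ : ℝ) :
    ∃ G : Polynomial (MvPolynomial (Fin D) ℝ), G.natDegree ≤ b ∧
      (∀ l, (G.coeff l).totalDegree ≤ b) ∧
      (∀ x y, evalAt G x y = eval (linePt u x (y - τ)) P) ∧ (P ≠ 0 → G ≠ 0) := by
  have hg : LPGood b (aeval (lpMap u τ) P) := by
    rw [MvPolynomial.aeval_def, MvPolynomial.eval₂_eq']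
    refine LPGood.sum _ _ fun d hd => ?_
    have h0 : LPGood 0 (algebraMap ℝ (Polynomial (MvPolynomial (Fin D) ℝ)) (coeff d P)) :=
      LPGood.C _
    have h1 := h0.mul (LPGood.prod Finset.univ (fun i => lpMap u τ i ^ d i) (fun i => d i * 1)
      fun i _ => (lpMap_good u τ i).pow (d i))
    refine h1.mono ?_
    have h2 := MvPolynomial.le_totalDegree hd
    rw [Finsupp.sum_fintype _ _ (fun _ => rfl)] at h2
    simp only [mul_one, zero_add]
    exact h2.trans hP
  refine ⟨aeval (lpMap u τ) P, ?_, ?_, fun x y => lpMap_eval u τ P x y, ?_⟩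
  · rw [Polynomial.natDegree_le_iff_coeff_eq_zero]
    intro l hl
    by_contra hne
    obtain ⟨m, hm⟩ := MvPolynomial.ne_zero_iff.1 hne
    have := hg l m hm
    omega
  · intro l
    refine Finset.sup_le fun m hm => ?_
    have h1 := hg l m (MvPolynomial.mem_support_iff.1 hm)
    have h2 : (m.sum fun _ e => e) = m.degree := by
      rw [Finsupp.degree]
      rfl
    rw [h2]
    omega
  · intro hP0 hG
    apply hP0
    refine MvPolynomial.funext fun p => ?_
    have h1 := lpMap_eval u τ P (basePt u p) (τ + p 0 / u 0)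
    rw [hG] at h1
    have h2 : linePt u (basePt u p) (τ + p 0 / u 0 - τ) = p := by
      funext i
      refine Fin.cases ?_ (fun l => ?_) i
      · simp only [linePt, Fin.cons_zero]
        field_simp
        ring
      · simp only [linePt, Fin.cons_succ, basePt]
        ring
    rw [h2] at h1
    rw [← h1]
    simp [evalAt]

end Pool.Agent.MP_5a1161_co
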