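import Pool.Agent.Lib.MP_5a1161_co_h27.RC
import Pool.Agent.Lib.MP_5a1161_co_h27.LinePoly

set_option autoImplicit false

namespace Pool.Agent.MP_5a1161_co

open MvPolynomial Topology

/-- The `i`-th element is unique. -/
private lemma pp_unique {i : ℕ} {Z : Set ℝ} {y y' : ℝ} (h : IsIth i Z y) (h' : IsIth i Z y') :
    y = y' := by
  have key : ∀ {y y' : ℝ}, IsIth i Z y → IsIth i Z y' → ¬ y < y' := by
    intro y y' h h' hlt
    have hss : Z ∩ Set.Iio y ⊂ Z ∩ Set.Iio y' := by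
      refine ⟨fun z hz => ⟨hz.1, lt_trans hz.2 hlt⟩, fun hcon => ?_⟩
      exact lt_irrefl y (Set.mem_Iio.1 (hcon ⟨h.1, hlt⟩).2)
    have h1 := Set.ncard_lt_ncard hss h'.2.1
    rw [h.2.2, h'.2.2] at h1
    exact lt_irrefl _ h1
  exact le_antisymm (not_lt.1 (key h' h)) (not_lt.1 (key h h'))

/-- An increasing bijection that matches two sets matches their `i`-th elements. -/
private lemma pp_iso {i : ℕ} {Z Z₀ : Set ℝ} (φ : ℝ ≃o ℝ) (h : ∀ z, φ z ∈ Z ↔ z ∈ Z₀) (y : ℝ) :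
    IsIth i Z (φ y) ↔ IsIth i Z₀ y := by
  have himg : Z ∩ Set.Iio (φ y) = φ '' (Z₀ ∩ Set.Iio y) := by
    ext z
    constructor
    · rintro ⟨hz, hlt⟩
      refine ⟨φ.symm z, ⟨?_, ?_⟩, by simp⟩
      · rw [← h]
        simpa using hz
      · have hlt' : z < φ y := hlt
        have h2 : φ (φ.symm z) < φ y := by simpa using hlt'
        exact φ.lt_iff_lt.1 h2
    · rintro ⟨w, ⟨hw, hlt⟩, rfl⟩
      exact ⟨(h w).2 hw, φ.strictMono hlt⟩
  unfold IsIth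
  rw [himg, h, Set.ncard_image_of_injective _ φ.injective,
    Set.finite_image_iff φ.injective.injOn]

/-- A bijection that matches the sets and their translates commutes with the translation at the
`i`-th element. -/
private lemma pp_shift {i : ℕ} {Z Z₀ : Set ℝ} (ψ : ℝ ≃o ℝ) (τ : ℝ)
    (h0 : ∀ z, ψ z ∈ Z ↔ z ∈ Z₀) (hτ : ∀ z, ψ z - τ ∈ Z ↔ z - τ ∈ Z₀) {y : ℝ}
    (hy : IsIth i Z₀ y) : ψ (y + τ) = ψ y + τ := by
  have h1 : IsIth i Z (ψ y) := (pp_iso ψ h0 y).2 hy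
  let φ : ℝ ≃o ℝ := (OrderIso.addRight τ).trans (ψ.trans (OrderIso.addRight (-τ)))
  have hφ : ∀ z, φ z = ψ (z + τ) - τ := fun z => by
    simp [φ, sub_eq_add_neg]
  have h2 : IsIth i Z (φ y) := by
    refine (pp_iso φ (fun z => ?_) y).2 hy
    rw [hφ, hτ, add_sub_cancel_right]
  rw [hφ] at h2
  have h3 := pp_unique h1 h2
  linarith

/-- The data transported by a bijection: signs along the two lines agree after the shift. -/
private def PPH {D s : ℕ} (u : Fin (D + 1) → ℝ) (x x₀ : Fin D → ℝ) (ψ : ℝ ≃o ℝ)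
    (e : Body D s) (τ : ℝ) : Prop :=
  ∀ j y, SignType.sign (eval (linePt u x (ψ y - τ)) (e.P j)) =
    SignType.sign (eval (linePt u x₀ (y - τ)) (e.P j))

private lemma PPH.carrier {D s : ℕ} {u : Fin (D + 1) → ℝ} {x x₀ : Fin D → ℝ} {ψ : ℝ ≃o ℝ}
    {e : Body D s} (h : PPH u x x₀ ψ e 0) (y : ℝ) :
    linePt u x (ψ y) ∈ e.carrier ↔ linePt u x₀ y ∈ e.carrier := by
  have h1 : (fun j => SignType.sign (eval (linePt u x (ψ y)) (e.P j))) =
      fun j => SignType.sign (eval (linePt u x₀ y) (e.P j)) := by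
    funext j
    have := h j y
    simpa using this
  unfold Body.carrier
  simp only [Set.mem_ofPred_eq]
  rw [h1]

private lemma PPH.Z {D s : ℕ} {u : Fin (D + 1) → ℝ} {x x₀ : Fin D → ℝ} {ψ : ℝ ≃o ℝ}
    {e : Body D s} {τ : ℝ} (h : PPH u x x₀ ψ e τ) (y : ℝ) :
    ψ y - τ ∈ e.Z u x ↔ y - τ ∈ e.Z u x₀ := by
  unfold Body.Z
  simp only [Set.mem_ofPred_eq]
  constructor
  · rintro ⟨j, hj, h0⟩
    refine ⟨j, hj, ?_⟩
    have := h j y
    rw [h0, sign_zero] at this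
    exact sign_eq_zero_iff.1 this.symm
  · rintro ⟨j, hj, h0⟩
    refine ⟨j, hj, ?_⟩
    have := h j y
    rw [h0, sign_zero] at this
    exact sign_eq_zero_iff.1 this

private lemma PPH.Z0 {D s : ℕ} {u : Fin (D + 1) → ℝ} {x x₀ : Fin D → ℝ} {ψ : ℝ ≃o ℝ}
    {e : Body D s} (h : PPH u x x₀ ψ e 0) (y : ℝ) :
    ψ y ∈ e.Z u x ↔ y ∈ e.Z u x₀ := by
  have := h.Z y
  simpa using this

private lemma PPH.ith {D s : ℕ} {u : Fin (D + 1) → ℝ} {x x₀ : Fin D → ℝ} {ψ : ℝ ≃o ℝ}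
    {e : Body D s} (h : PPH u x x₀ ψ e 0) (i : ℕ) (y : ℝ) :
    IsIth i (e.Z u x) (ψ y) ↔ IsIth i (e.Z u x₀) y :=
  pp_iso ψ h.Z0 y

private lemma PPH.shift {D s : ℕ} {u : Fin (D + 1) → ℝ} {x x₀ : Fin D → ℝ} {ψ : ℝ ≃o ℝ}
    {e : Body D s} (h : PPH u x x₀ ψ e 0) {τ : ℝ} (hτ : PPH u x x₀ ψ e τ) {i : ℕ} {y : ℝ}
    (hy : IsIth i (e.Z u x₀) y) : ψ (y + τ) = ψ y + τ :=
  pp_shift ψ τ h.Z0 hτ.Z hy

private lemma PPH.enters {D s : ℕ} {u : Fin (D + 1) → ℝ} {x x₀ : Fin D → ℝ} {ψ : ℝ ≃o ℝ}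
    {e : Body D s} (h : PPH u x x₀ ψ e 0) (hτ : PPH u x x₀ ψ e (2 * e.ρ)) (i : ℕ) (y : ℝ) :
    e.Enters u i x (ψ y) ↔ e.Enters u i x₀ y := by
  unfold Body.Enters
  rw [h.ith]
  refine and_congr_right fun hy => ?_
  have hs := h.shift hτ hy
  constructor
  · intro H t ht1 ht2
    rw [← h.carrier]
    refine H (ψ t) (ψ.strictMono ht1) ?_
    rw [← hs]
    exact ψ.strictMono ht2
  · intro H t ht1 ht2
    have h1 : ψ (ψ.symm t) = t := by simp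
    rw [← h1, h.carrier]
    refine H (ψ.symm t) (ψ.lt_iff_lt.1 (by rw [h1]; exact ht1)) (ψ.lt_iff_lt.1 ?_)
    rw [h1, hs]
    exact ht2

private lemma PPH.dist {D s : ℕ} {u : Fin (D + 1) → ℝ} {x x₀ : Fin D → ℝ} {ψ : ℝ ≃o ℝ}
    {e e' : Body D s} (h : PPH u x x₀ ψ e 0) (h' : PPH u x x₀ ψ e' 0) {τ : ℝ}
    (hτ : PPH u x x₀ ψ e τ) (hτ' : PPH u x x₀ ψ e' τ) (i : ℕ) {y y' : ℝ}
    (hy : IsIth i (e.Z u x₀) y) (hy' : IsIth i (e'.Z u x₀) y') :
    |ψ y - ψ y'| ≤ τ ↔ |y - y'| ≤ τ := by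
  have hs := h.shift hτ hy
  have hs' := h'.shift hτ' hy'
  have e1 : ψ y ≤ ψ y' + τ ↔ y ≤ y' + τ := by rw [← hs', ψ.le_iff_le]
  have e2 : ψ y' ≤ ψ y + τ ↔ y' ≤ y + τ := by rw [← hs, ψ.le_iff_le]
  rw [abs_le, abs_le]
  constructor
  · rintro ⟨a, b⟩
    have a' := e2.1 (by linarith)
    have b' := e1.1 (by linarith)
    constructor <;> linarith
  · rintro ⟨a, b⟩
    have a' := e2.2 (by linarith)
    have b' := e1.2 (by linarith)
    constructor <;> linarith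

/-- Existence transfers along a bijection. -/
private lemma pp_ex (ψ : ℝ ≃o ℝ) {p q : ℝ → Prop} (h : ∀ y, p (ψ y) ↔ q y) :
    (∃ y, p y) ↔ ∃ y, q y := by
  constructor
  · rintro ⟨y, hy⟩
    refine ⟨ψ.symm y, (h _).1 ?_⟩
    simpa using hy
  · rintro ⟨y, hy⟩
    exact ⟨ψ y, (h y).2 hy⟩

/-- The six formulas on a pair of bodies are locally constant off the zero set of a polynomial of
bounded degree. -/
theorem pair_poly (D s b : ℕ) : ∃ β : ℕ, ∀ (u : Fin (D + 1) → ℝ), u 0 ≠ 0 → ∀ (K : ℝ)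
    (c c' : Body D s), (∀ j, (c.P j).totalDegree ≤ b) → (∀ j, (c'.P j).totalDegree ≤ b) →
    ∃ B : MvPolynomial (Fin D) ℝ, B ≠ 0 ∧ B.totalDegree ≤ β ∧ ∀ x₀, eval x₀ B ≠ 0 →
      (∀ j, c.P j ≠ 0 → ∃ y, eval (linePt u x₀ y) (c.P j) ≠ 0) ∧
      ∀ i f, ∀ᶠ x in 𝓝 x₀, (tv K u i f x c c' ↔ tv K u i f x₀ c c') := by
  obtain ⟨β, hβ⟩ := rc D b (Fintype.card (Bool × Fin s × Fin 5))
  refine ⟨β, fun u hu K c c' hc hc' => ?_⟩
  let ε := Fintype.equivFin (Bool × Fin s × Fin 5)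
  let bod : Bool → Body D s := fun t => if t then c' else c
  let sh : Fin 5 → ℝ := ![0, 2 * c.ρ, K * c.ρ, 2 * c'.ρ, K * c'.ρ]
  have hbod : ∀ t j, ((bod t).P j).totalDegree ≤ b := by
    intro t j
    cases t
    · exact hc j
    · exact hc' j
  have hline : ∀ q : Bool × Fin s × Fin 5, ∃ G : Polynomial (MvPolynomial (Fin D) ℝ),
      G.natDegree ≤ b ∧ (∀ l, (G.coeff l).totalDegree ≤ b) ∧
      (∀ x y, evalAt G x y = eval (linePt u x (y - sh q.2.2)) ((bod q.1).P q.2.1)) ∧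
      ((bod q.1).P q.2.1 ≠ 0 → G ≠ 0) := fun q =>
    line_poly D b u hu _ (hbod q.1 q.2.1) (sh q.2.2)
  choose G hG1 hG2 hG3 hG4 using hline
  obtain ⟨B, hB0, hBd, hB⟩ := hβ (fun i => G (ε.symm i)) (fun i => ⟨hG1 _, hG2 _⟩)
  refine ⟨B, hB0, hBd, fun x₀ hx₀ => ?_⟩
  obtain ⟨hne, hev⟩ := hB x₀ hx₀
  constructor
  · intro j hj
    have h1 := hne (ε (false, j, 0))
    simp only [Equiv.symm_apply_apply] at h1
    obtain ⟨y, hy⟩ := h1 (hG4 (false, j, 0) hj)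
    rw [hG3] at hy
    exact ⟨_, hy⟩
  · intro i f
    filter_upwards [hev] with x hx
    obtain ⟨ψ, hψ⟩ := hx
    have hH : ∀ t k, PPH u x x₀ ψ (bod t) (sh k) := by
      intro t k j y
      have h1 := hψ (ε (t, j, k)) y
      simp only [Equiv.symm_apply_apply, hG3] at h1
      exact h1
    have c0 : PPH u x x₀ ψ c 0 := hH false 0
    have c1 : PPH u x x₀ ψ c (2 * c.ρ) := hH false 1
    have c2 : PPH u x x₀ ψ c (K * c.ρ) := hH false 2
    have c4 : PPH u x x₀ ψ c (K * c'.ρ) := hH false 4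
    have d0 : PPH u x x₀ ψ c' 0 := hH true 0
    have d2 : PPH u x x₀ ψ c' (K * c.ρ) := hH true 2
    have d3 : PPH u x x₀ ψ c' (2 * c'.ρ) := hH true 3
    have d4 : PPH u x x₀ ψ c' (K * c'.ρ) := hH true 4
    fin_cases f
    · exact pp_ex ψ fun y => c0.enters c1 i y
    · exact pp_ex ψ fun y => d0.enters d3 i y
    · exact pp_ex ψ fun y => and_congr (c0.ith i y) (d0.carrier y)
    · exact pp_ex ψ fun y => and_congr (d0.ith i y) (c0.carrier y)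
    · refine pp_ex ψ fun y => pp_ex ψ fun y' => ?_
      constructor
      · rintro ⟨h1, h2, h3⟩
        have h1' := (c0.ith i y).1 h1
        have h2' := (d0.ith i y').1 h2
        exact ⟨h1', h2', (c0.dist d0 c2 d2 i h1' h2').1 h3⟩
      · rintro ⟨h1, h2, h3⟩
        exact ⟨(c0.ith i y).2 h1, (d0.ith i y').2 h2, (c0.dist d0 c2 d2 i h1 h2).2 h3⟩
    · refine pp_ex ψ fun y => pp_ex ψ fun y' => ?_
      constructor
      · rintro ⟨h1, h2, h3⟩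
        have h1' := (c0.ith i y).1 h1
        have h2' := (d0.ith i y').1 h2
        exact ⟨h1', h2', (c0.dist d0 c4 d4 i h1' h2').1 h3⟩
      · rintro ⟨h1, h2, h3⟩
        exact ⟨(c0.ith i y).2 h1, (d0.ith i y').2 h2, (c0.dist d0 c4 d4 i h1 h2).2 h3⟩

end Pool.Agent.MP_5a1161_co
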