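import Pool.Agent.Lib.MP_5a1161_co_h27.NoBox
import Pool.Agent.Lib.MP_5a1161_co_h27.Edge
import Pool.Agent.Lib.MP_5a1161_co_h27.Dirs
import Pool.Agent.Lib.MP_5a1161_co_h27.Pair
import Pool.Agent.Lib.MP_5a1161_co_h27.Box

set_option autoImplicit false

namespace Pool.Agent.MP_5a1161_co

open MvPolynomial Topology

theorem carrier_closed {D s : ℕ} (c : Set (Sp (D + 1))) (hc : IsCompact c) (B : Body D s)
    (h : ∀ x : Sp (D + 1), x ∈ c ↔ (fun l => x l) ∈ B.carrier) : IsClosed B.carrier := by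
  have e : B.carrier = (fun v : Fin (D + 1) → ℝ => (WithLp.toLp 2 v : Sp (D + 1))) ⁻¹' c := by
    ext v
    rw [Set.mem_preimage, h]
  rw [e]
  exact hc.isClosed.preimage (PiLp.continuous_toLp 2 _)

theorem diam_pos' {D : ℕ} {κ : ℝ} {c : Set (Sp (D + 1))} (h : IsRound κ c) :
    0 < Metric.diam c := by
  have h1 : c.Nontrivial := by
    obtain ⟨x, hx⟩ := h.body
    obtain ⟨r, hr, hb⟩ := Metric.isOpen_iff.1 isOpen_interior x hx
    obtain ⟨v, hv⟩ := exists_ne (0 : Sp (D + 1))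
    have hv' : 0 < ‖v‖ := norm_pos_iff.2 hv
    refine ⟨x, interior_subset hx, x + (r / (2 * ‖v‖)) • v, interior_subset (hb ?_), ?_⟩
    · rw [Metric.mem_ball, dist_eq_norm, add_sub_cancel_left, norm_smul, Real.norm_of_nonneg
        (by positivity)]
      field_simp
      linarith
    · intro he
      have h0 : (r / (2 * ‖v‖)) • v = 0 := by
        have := he.symm
        rwa [add_eq_left] at this
      rcases smul_eq_zero.1 h0 with h0 | h0
      · have : 0 < r / (2 * ‖v‖) := by positivity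
        exact this.ne' h0
      · exact hv h0
  exact Metric.diam_pos h1 h.compact.isBounded

theorem exists_eta {n : ℕ} (f : Fin n → ℝ) (hf : ∀ p, 0 < f p) : ∃ η : ℝ, 0 < η ∧
    ∀ p, η ≤ f p := by
  have h0 : ∀ p, 0 ≤ (f p)⁻¹ := fun p => (inv_pos.2 (hf p)).le
  have h1 : 0 ≤ ∑ p, (f p)⁻¹ := Finset.sum_nonneg fun p _ => h0 p
  refine ⟨(∑ p, (f p)⁻¹ + 1)⁻¹, by positivity, fun p => ?_⟩
  have h2 : (f p)⁻¹ ≤ ∑ p, (f p)⁻¹ + 1 := by
    have := Finset.single_le_sum (f := fun p => (f p)⁻¹) (fun i _ => h0 i) (Finset.mem_univ p)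
    linarith
  calc (∑ p, (f p)⁻¹ + 1)⁻¹ ≤ ((f p)⁻¹)⁻¹ := inv_anti₀ (inv_pos.2 (hf p)) h2
    _ = f p := inv_inv _

/-- The number of `(D + 1)`-sets of bodies that meet at a vertex of the union. -/
theorem tuples_bound (D : ℕ) (hD : 1 ≤ D) (κ : ℝ) (hκ : 0 < κ) (s b : ℕ) :
    ∃ δ : ℝ, 0 < δ ∧ ∃ C : ℝ, 0 < C ∧ ∀ (n : ℕ) (c : Fin n → Set (Sp (D + 1))),
      (∀ i, IsRound κ (c i)) → (∀ i, HasDescription s b (c i)) → ∀ S : Finset (Finset (Fin n)),
      (∀ T ∈ S, T.card = D + 1 ∧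
        ∃ x ∈ frontier (⋃ i, c i), ∀ i, x ∈ frontier (c i) ↔ i ∈ T) →
      (S.card : ℝ) ≤ C * (n : ℝ) ^ (((D + 1 : ℕ) : ℝ) - δ) := by
  classical
  obtain ⟨W, c₀, c₁, Λ, hc₀, hc₁, hΛ, hW0, hWΛ, hdir, hWW⟩ := dirs D hD
  obtain ⟨c₂, hc₂⟩ : ∃ c₂ : ℝ, c₂ = c₀ / (3 * Λ ^ 2) * κ := ⟨_, rfl⟩
  have hc₂p : 0 < c₂ := by rw [hc₂]; positivity
  obtain ⟨β, hβ⟩ := pair_poly D s b
  obtain ⟨T, hT⟩ := no_box D s β (1 + c₂⁻¹ / c₁) c₂⁻¹ c₁ hc₁ (inv_nonneg.2 hc₂p.le) le_rfl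
  obtain ⟨δ, hδ, C, hC, hbox⟩ := box_theorem (D + 1) T (by omega)
  let X : Type := (Fin (D + 2) → W) × (Fin (D + 2) → Fin (D + 1) → Bool) ×
    (Fin (D + 2) → Fin (D + 1) → Fin (s * b + 1))
  let col : X → Colour D := fun χ => ⟨fun a => χ.1 a, χ.2.1, fun a k => χ.2.2 a k⟩
  refine ⟨δ, hδ, (Fintype.card X + 1 : ℕ) * C, by positivity, fun n c hr hd S hS => ?_⟩
  choose P Φ hP hΦ using hd
  obtain ⟨bd, hbd⟩ : ∃ bd : Fin n → Body D s, ∀ i, (bd i).P = P i ∧ (bd i).Φ = Φ i ∧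
      (bd i).ρ = c₂ * Metric.diam (c i) :=
    ⟨fun i => ⟨P i, Φ i, c₂ * Metric.diam (c i)⟩, fun i => ⟨rfl, rfl, rfl⟩⟩
  have hmem : ∀ i (x : Sp (D + 1)), x ∈ c i ↔ (fun l => x l) ∈ (bd i).carrier := by
    intro i x
    rw [hΦ i x]
    unfold Body.carrier
    rw [Set.mem_ofPred_eq, (hbd i).1, (hbd i).2.1]
  have hdeg : ∀ i j, ((bd i).P j).totalDegree ≤ b := fun i j => by
    rw [(hbd i).1]; exact hP i j
  have hρ : ∀ i, 0 < (bd i).ρ := fun i => by
    rw [(hbd i).2.2]; exact mul_pos hc₂p (diam_pos' (hr i))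
  have hB : ∀ (w : Sp (D + 1)) (ε : Bool) (p p' : Fin n), ∃ B : MvPolynomial (Fin D) ℝ,
      B.totalDegree ≤ β ∧ (w ∈ W → B ≠ 0 ∧ ∀ x₀, eval x₀ B ≠ 0 →
        (∀ j, (bd p).P j ≠ 0 → ∃ y, eval (linePt (dir w ε) x₀ y) ((bd p).P j) ≠ 0) ∧
        ∀ i f, ∀ᶠ x in 𝓝 x₀, (tv (1 + c₂⁻¹ / c₁) (dir w ε) i f x (bd p) (bd p') ↔
          tv (1 + c₂⁻¹ / c₁) (dir w ε) i f x₀ (bd p) (bd p'))) := by
    intro w ε p p'
    by_cases hw : w ∈ W
    · have hu : (dir w ε) 0 ≠ 0 := by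
        unfold dir
        rw [hW0 w hw]
        split_ifs
        · exact one_ne_zero
        · exact neg_ne_zero.2 one_ne_zero
      obtain ⟨B, h1, h2, h3⟩ := hβ (dir w ε) hu (1 + c₂⁻¹ / c₁) (bd p) (bd p') (hdeg p) (hdeg p')
      exact ⟨B, h2, fun _ => ⟨h1, h3⟩⟩
    · exact ⟨0, by simp, fun h => absurd h hw⟩
  choose B hB1 hB2 using hB
  obtain ⟨η, hη, hηρ⟩ := exists_eta (fun p => (bd p).ρ) hρ
  -- the colour classes
  let E : X → Finset (Fin (D + 1) → Fin n) := fun χ => Finset.univ.filter fun e =>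
    Function.Injective (col χ).ω ∧ StrictMono e ∧ ∃ xe, Cert bd (col χ) η e xe ∧
      ∀ w ∈ W, ∀ ε p p', eval (basePt (dir w ε) xe) (B w ε p p') ≠ 0
  have hE : ∀ χ, ((E χ).card : ℝ) ≤ C * (n : ℝ) ^ (((D + 1 : ℕ) : ℝ) - δ) := by
    intro χ
    by_contra hcon
    push Not at hcon
    obtain ⟨A, hA1, hA2⟩ := hbox n (E χ) hcon
    have hA3 : ∀ m, (∀ k, m k ∈ A k) → Function.Injective (col χ).ω ∧ StrictMono m ∧
        ∃ xe, Cert bd (col χ) η m xe ∧
          ∀ w ∈ W, ∀ ε p p', eval (basePt (dir w ε) xe) (B w ε p p') ≠ 0 := by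
      intro m hm
      have := hA2 m hm
      simpa only [E, Finset.mem_filter, Finset.mem_univ, true_and] using this
    have hinj : Function.Injective (col χ).ω := by
      by_cases hne : ∀ k, (A k).Nonempty
      · choose m hm using hne
        exact (hA3 m hm).1
      · -- some part is empty, so every tuple condition is vacuous and `T = 0`
        exfalso
        push Not at hne
        obtain ⟨k, hk⟩ := hne
        have hT0 : T = 0 := by rw [← hA1 k, hk, Finset.card_empty]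
        have hE0 : (E χ).card = 0 := by
          by_contra h0
          obtain ⟨e, he⟩ := Finset.card_pos.1 (Nat.pos_of_ne_zero h0)
          simp only [E, Finset.mem_filter, Finset.mem_univ, true_and] at he
          exact hT n W hW0 hWW bd hρ (fun p => carrier_closed (c p) (hr p).compact (bd p) (hmem p))
            (fun p x y hx hy => by
              rw [(hbd p).2.2, inv_mul_cancel_left₀ hc₂p.ne']
              exact Metric.dist_le_diam_of_mem (hr p).compact.isBounded ((hmem p x).2 hx)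
                ((hmem p y).2 hy))
            B hB1 (fun w hw ε p p' x₀ h i f => ((hB2 w ε p p' hw).2 x₀ h).2 i f) (col χ) he.1
            (fun a => (χ.1 a).2) η hηρ (fun _ => ∅) (fun _ => by rw [hT0]; exact Nat.zero_le _)
            (fun m hm => absurd (hm 0) (Finset.notMem_empty _)) (fun _ => 0)
            (fun m hm => absurd (hm 0) (Finset.notMem_empty _))
        rw [hE0] at hcon
        have : 0 ≤ C * (n : ℝ) ^ (((D + 1 : ℕ) : ℝ) - δ) := by positivity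
        simp only [Nat.cast_zero] at hcon
        linarith
    have hxe : ∀ m : Fin (D + 1) → Fin n, ∃ xe : Fin (D + 1) → ℝ, (∀ k, m k ∈ A k) →
        Cert bd (col χ) η m xe ∧
          ∀ w ∈ W, ∀ ε p p', eval (basePt (dir w ε) xe) (B w ε p p') ≠ 0 := by
      intro m
      by_cases hm : ∀ k, m k ∈ A k
      · obtain ⟨xe, h⟩ := (hA3 m hm).2.2
        exact ⟨xe, fun _ => h⟩
      · exact ⟨0, fun h => absurd h hm⟩
    choose xe hxe using hxe
    exact hT n W hW0 hWW bd hρ (fun p => carrier_closed (c p) (hr p).compact (bd p) (hmem p))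
      (fun p x y hx hy => by
        rw [(hbd p).2.2, inv_mul_cancel_left₀ hc₂p.ne']
        exact Metric.dist_le_diam_of_mem (hr p).compact.isBounded ((hmem p x).2 hx)
          ((hmem p y).2 hy))
      B hB1 (fun w hw ε p p' x₀ h i f => ((hB2 w ε p p' hw).2 x₀ h).2 i f) (col χ) hinj
      (fun a => (χ.1 a).2) η hηρ A (fun k => (hA1 k).ge)
      (fun m hm => (hA3 m hm).2.1.injective) xe hxe
  -- every set of `S` gives an element of a colour class
  have hsub : S ⊆ (Finset.univ : Finset X).biUnion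
      fun χ => (E χ).image fun e => Finset.univ.image e := by
    intro T' hT'
    obtain ⟨hcard, x, hx, hxT⟩ := hS T' hT'
    obtain ⟨e, he⟩ : ∃ e : Fin (D + 1) → Fin n, StrictMono e ∧ ∀ i, i ∈ T' ↔ ∃ k, e k = i := by
      refine ⟨T'.orderEmbOfFin hcard, (T'.orderEmbOfFin hcard).strictMono, fun i => ?_⟩
      have := Finset.range_orderEmbOfFin T' hcard
      have h2 : i ∈ Set.range (T'.orderEmbOfFin hcard) ↔ i ∈ (T' : Set (Fin n)) := by rw [this]
      exact ⟨fun h => h2.2 h, fun h => h2.1 h⟩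
    obtain ⟨χ, h1, h2, h3, xe, h4, h5⟩ := edge_cert hκ W hc₀ hΛ hW0 hWΛ hdir c hr bd hdeg hmem
      (fun i => by rw [(hbd i).2.2, hc₂]; ring) B (fun w hw ε p p' => (hB2 w ε p p' hw).1)
      (fun w hw ε p p' x h => ((hB2 w ε p p' hw).2 x h).1) hη e x hx
      (fun i => (hxT i).trans (he.2 i))
    rw [Finset.mem_biUnion]
    refine ⟨(fun a => ⟨χ.ω a, h2 a⟩, χ.ε, fun a k => ⟨χ.ι a k, Nat.lt_succ_of_le (h3 a k)⟩),
      Finset.mem_univ _, ?_⟩
    rw [Finset.mem_image]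
    refine ⟨e, ?_, ?_⟩
    · have hcol : col (fun a => ⟨χ.ω a, h2 a⟩, χ.ε,
          fun a k => ⟨χ.ι a k, Nat.lt_succ_of_le (h3 a k)⟩) = χ := rfl
      simp only [E, Finset.mem_filter, Finset.mem_univ, true_and]
      rw [hcol]
      exact ⟨h1, he.1, xe, h4, h5⟩
    · ext i
      rw [Finset.mem_image, he.2 i]
      simp
  have hn0 : 0 ≤ C * (n : ℝ) ^ (((D + 1 : ℕ) : ℝ) - δ) := by positivity
  calc (S.card : ℝ) ≤ (((Finset.univ : Finset X).biUnion
        fun χ => (E χ).image fun e => Finset.univ.image e).card : ℝ) := by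
        exact_mod_cast Finset.card_le_card hsub
    _ ≤ ((∑ χ : X, ((E χ).image fun e => (Finset.univ.image e : Finset (Fin n))).card : ℕ) : ℝ) := by
        exact_mod_cast Finset.card_biUnion_le
    _ ≤ ∑ χ : X, ((E χ).card : ℝ) := by
        push_cast
        exact Finset.sum_le_sum fun χ _ => by exact_mod_cast Finset.card_image_le
    _ ≤ ∑ _χ : X, C * (n : ℝ) ^ (((D + 1 : ℕ) : ℝ) - δ) := Finset.sum_le_sum fun χ _ => hE χ
    _ = (Fintype.card X : ℝ) * (C * (n : ℝ) ^ (((D + 1 : ℕ) : ℝ) - δ)) := by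
        rw [Finset.sum_const, Finset.card_univ, nsmul_eq_mul]
    _ ≤ ((Fintype.card X + 1 : ℕ) : ℝ) * C * (n : ℝ) ^ (((D + 1 : ℕ) : ℝ) - δ) := by
        rw [mul_assoc]
        refine mul_le_mul_of_nonneg_right ?_ hn0
        exact_mod_cast Nat.le_succ _

end Pool.Agent.MP_5a1161_co
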