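import Pool.Agent.Lib.MP_5a1161_co_h27.Comb

set_option autoImplicit false

namespace Pool.Agent.MP_5a1161_co

open MvPolynomial Topology

namespace NoBox

theorem ith_unique {i : ℕ} {Z : Set ℝ} {y y' : ℝ} (h : IsIth i Z y) (h' : IsIth i Z y') :
    y = y' := by
  have key : ∀ a b : ℝ, IsIth i Z a → IsIth i Z b → ¬ a < b := by
    intro a b ha hb hab
    have h1 : Z ∩ Set.Iio a ⊂ Z ∩ Set.Iio b := by
      refine ⟨fun t ht => ⟨ht.1, lt_trans ht.2 hab⟩, fun hsub => ?_⟩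
      exact lt_irrefl a (hsub ⟨ha.1, hab⟩).2
    have h2 := Set.ncard_lt_ncard h1 hb.2.1
    rw [ha.2.2, hb.2.2] at h2
    exact lt_irrefl _ h2
  exact le_antisymm (not_lt.1 (key _ _ h' h)) (not_lt.1 (key _ _ h h'))

theorem continuous_linePt {D : ℕ} (u : Fin (D + 1) → ℝ) (x : Fin D → ℝ) :
    Continuous (linePt u x) := by
  refine continuous_pi fun l => ?_
  refine Fin.cases ?_ (fun j => ?_) l
  · simp only [linePt, Fin.cons_zero]
    fun_prop
  · simp only [linePt, Fin.cons_succ]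
    fun_prop

theorem enters_mem {D s : ℕ} {c : Body D s} (hc : IsClosed c.carrier) (hρ : 0 < c.ρ)
    {u : Fin (D + 1) → ℝ} {i : ℕ} {x : Fin D → ℝ} {y : ℝ} (h : c.Enters u i x y) :
    linePt u x y ∈ c.carrier := by
  have hcl : IsClosed {t | linePt u x t ∈ c.carrier} := hc.preimage (continuous_linePt u x)
  have h1 : Set.Ioo y (y + 2 * c.ρ) ⊆ {t | linePt u x t ∈ c.carrier} :=
    fun t ht => h.2 t ht.1 ht.2
  have h2 := closure_minimal h1 hcl
  have h3 : y < y + 2 * c.ρ := by linarith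
  rw [closure_Ioo h3.ne] at h2
  exact h2 ⟨le_refl _, h3.le⟩

/-- every body of the block is entered, at a point outside of the other bodies of the block -/
theorem spread {D s n : ℕ} {K : ℝ} {c : Fin n → Body D s} {u : Fin (D + 1) → ℝ} {i : ℕ}
    {x : Fin D → ℝ} {N : Finset (Fin n)} {z : Fin n} (hz : z ∈ N) (h1 : ∃ p ∈ N, p < z)
    (h2 : ∃ p ∈ N, z < p) (hH : ∀ f, Homog N (fun p p' => tv K u i f x (c p) (c p')))
    {yz : ℝ} (hE : (c z).Enters u i x yz)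
    (hout : ∀ p ∈ N, p ≠ z → linePt u x yz ∉ (c p).carrier) (p : Fin n) (hp : p ∈ N) :
    ∃ y, (c p).Enters u i x y ∧ ∀ p' ∈ N, p' ≠ p → linePt u x y ∉ (c p').carrier := by
  obtain ⟨p1, hp1, hlt1⟩ := h1
  obtain ⟨p2, hp2, hlt2⟩ := h2
  have T0 : ∀ p ∈ N, ∀ p' ∈ N, p < p' → ∃ y, (c p).Enters u i x y := fun p hp p' hp' hlt =>
    (hH 0 z hz p2 hp2 p hp p' hp' hlt2 hlt).1 ⟨yz, hE⟩
  have T1 : ∀ p ∈ N, ∀ p' ∈ N, p < p' → ∃ y, (c p').Enters u i x y := fun p hp p' hp' hlt =>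
    (hH 1 p1 hp1 z hz p hp p' hp' hlt1 hlt).1 ⟨yz, hE⟩
  have T2 : ∀ p ∈ N, ∀ p' ∈ N, p < p' →
      ¬ ∃ y, IsIth i ((c p).Z u x) y ∧ linePt u x y ∈ (c p').carrier := by
    intro p hp p' hp' hlt hex
    obtain ⟨y, hy, hm⟩ := (hH 2 z hz p2 hp2 p hp p' hp' hlt2 hlt).2 hex
    rw [ith_unique hy hE.1] at hm
    exact hout p2 hp2 hlt2.ne' hm
  have T3 : ∀ p ∈ N, ∀ p' ∈ N, p < p' →
      ¬ ∃ y, IsIth i ((c p').Z u x) y ∧ linePt u x y ∈ (c p).carrier := by
    intro p hp p' hp' hlt hex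
    obtain ⟨y, hy, hm⟩ := (hH 3 p1 hp1 z hz p hp p' hp' hlt1 hlt).2 hex
    rw [ith_unique hy hE.1] at hm
    exact hout p1 hp1 hlt1.ne hm
  have hex : ∃ y, (c p).Enters u i x y := by
    rcases lt_trichotomy p z with h | h | h
    · exact T0 p hp z hz h
    · rw [h]
      exact ⟨yz, hE⟩
    · exact T1 z hz p hp h
  obtain ⟨y, hy⟩ := hex
  refine ⟨y, hy, fun p' hp' hne hm => ?_⟩
  rcases lt_or_gt_of_ne hne with h | h
  · exact T3 p' hp' p hp h ⟨y, hy.1, hm⟩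
  · exact T2 p hp p' hp' h ⟨y, hy.1, hm⟩

/-- separation -/
theorem sep {D s n : ℕ} {c : Fin n → Body D s} {u : Fin (D + 1) → ℝ} {i : ℕ}
    {x : Fin D → ℝ} {N : Finset (Fin n)} (hρ : ∀ p, 0 < (c p).ρ)
    (hcl : ∀ p, IsClosed (c p).carrier) {y : Fin n → ℝ}
    (hy : ∀ p ∈ N, (c p).Enters u i x (y p) ∧
      ∀ p' ∈ N, p' ≠ p → linePt u x (y p) ∉ (c p').carrier) (p : Fin n) (hp : p ∈ N)
    (p' : Fin n) (hp' : p' ∈ N) (hne : p ≠ p') :
    y p ≠ y p' ∧ (y p < y p' → y p + 2 * (c p).ρ ≤ y p') := by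
  refine ⟨fun h => ?_, fun h => ?_⟩
  · have h1 := (hy p hp).2 p' hp' hne.symm
    rw [h] at h1
    exact h1 (enters_mem (hcl p') (hρ p') (hy p' hp').1)
  · by_contra hcon
    push Not at hcon
    exact (hy p' hp').2 p hp hne ((hy p hp).1.2 _ h hcon)

/-- closeness -/
theorem close {D s n : ℕ} {K : ℝ} {c : Fin n → Body D s} {u : Fin (D + 1) → ℝ} {i : ℕ}
    {x : Fin D → ℝ} {N : Finset (Fin n)} {z : Fin n} (hz : z ∈ N) (h1 : ∃ p ∈ N, p < z)
    (h2 : ∃ p ∈ N, z < p) (hH : ∀ f, Homog N (fun p p' => tv K u i f x (c p) (c p')))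
    {y : Fin n → ℝ} (hy : ∀ p ∈ N, IsIth i ((c p).Z u x) (y p))
    (hK : ∀ p ∈ N, |y p - y z| ≤ K * (c p).ρ) (p : Fin n) (hp : p ∈ N) (p' : Fin n)
    (hp' : p' ∈ N) (hne : p ≠ p') : |y p - y p'| ≤ K * (c p).ρ := by
  obtain ⟨p1, hp1, hlt1⟩ := h1
  obtain ⟨p2, hp2, hlt2⟩ := h2
  rcases lt_or_gt_of_ne hne with h | h
  · obtain ⟨a, b, ha, hb, hab⟩ := (hH 4 p1 hp1 z hz p hp p' hp' hlt1 h).1
      ⟨y p1, y z, hy p1 hp1, hy z hz, hK p1 hp1⟩
    rwa [ith_unique ha (hy p hp), ith_unique hb (hy p' hp')] at hab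
  · obtain ⟨a, b, ha, hb, hab⟩ := (hH 5 z hz p2 hp2 p' hp' p hp hlt2 h).1
      ⟨y z, y p2, hy z hz, hy p2 hp2, by rw [abs_sub_comm]; exact hK p2 hp2⟩
    rwa [ith_unique ha (hy p' hp'), ith_unique hb (hy p hp), abs_sub_comm] at hab

/-- the packing argument -/
theorem packing {V : Type*} (N : Finset V) (y ρ : V → ℝ) (K : ℝ) (hK : 1 ≤ K)
    (hρ : ∀ p ∈ N, 0 < ρ p)
    (hsep : ∀ p ∈ N, ∀ p' ∈ N, p ≠ p' → y p ≠ y p' ∧ (y p < y p' → y p + 2 * ρ p ≤ y p'))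
    (hcl : ∀ p ∈ N, ∀ p' ∈ N, p ≠ p' → |y p - y p'| ≤ K * ρ p) : (N.card : ℝ) ≤ K + 1 := by
  classical
  rcases Nat.lt_or_ge 1 N.card with hc | hc
  swap
  · have : (N.card : ℝ) ≤ 1 := by exact_mod_cast hc
    linarith
  obtain ⟨q1, hq1, q2, hq2, hq⟩ := Finset.one_lt_card.1 hc
  obtain ⟨lo, hlo, hlo'⟩ := N.exists_min_image y ⟨q1, hq1⟩
  obtain ⟨hi, hhi, hhi'⟩ := N.exists_max_image y ⟨q1, hq1⟩
  have hW : 0 < y hi - y lo := by
    rcases lt_or_gt_of_ne (hsep q1 hq1 q2 hq2 hq).1 with h | h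
    · have := hlo' q1 hq1
      have := hhi' q2 hq2
      linarith
    · have := hlo' q2 hq2
      have := hhi' q1 hq1
      linarith
  generalize hWW : y hi - y lo = W at hW
  have hWK : ∀ p ∈ N, W ≤ 2 * (K * ρ p) := by
    intro p hp
    have e1 : |y p - y hi| ≤ K * ρ p := by
      rcases eq_or_ne p hi with h | h
      · rw [h, sub_self, abs_zero]
        exact mul_nonneg (by linarith) (hρ hi hhi).le
      · exact hcl p hp hi hhi h
    have e2 : |y p - y lo| ≤ K * ρ p := by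
      rcases eq_or_ne p lo with h | h
      · rw [h, sub_self, abs_zero]
        exact mul_nonneg (by linarith) (hρ lo hlo).le
      · exact hcl p hp lo hlo h
    have e3 := (abs_le.1 e1).1
    have e4 := (abs_le.1 e2).2
    linarith
  have hf0 : ∀ p ∈ N, 0 ≤ K * (y p - y lo) / W := fun p hp =>
    div_nonneg (mul_nonneg (by linarith) (sub_nonneg.2 (hlo' p hp))) hW.le
  have hfK : ∀ p ∈ N, K * (y p - y lo) / W ≤ K := by
    intro p hp
    rw [div_le_iff₀ hW]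
    have := hhi' p hp
    exact mul_le_mul_of_nonneg_left (by linarith) (by linarith)
  have hstep : ∀ p ∈ N, ∀ p' ∈ N, p ≠ p' → y p < y p' →
      K * (y p - y lo) / W + 1 ≤ K * (y p' - y lo) / W := by
    intro p hp p' hp' hne hlt
    have h1 := (hsep p hp p' hp' hne).2 hlt
    have h2 := hWK p hp
    rw [div_add_one hW.ne', div_le_div_iff_of_pos_right hW]
    nlinarith
  have hcard : N.card ≤ (Finset.range (⌊K⌋₊ + 1)).card := by
    apply Finset.card_le_card_of_injOn (fun p => ⌊K * (y p - y lo) / W⌋₊)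
    · intro p hp
      rw [Finset.mem_coe, Finset.mem_range, Nat.lt_succ_iff]
      exact Nat.floor_le_floor (hfK p hp)
    · intro p hp p' hp' heq
      by_contra hne
      have heq' : ⌊K * (y p - y lo) / W⌋₊ = ⌊K * (y p' - y lo) / W⌋₊ := heq
      rcases lt_or_gt_of_ne (hsep p hp p' hp' hne).1 with h | h
      · have h1 := Nat.floor_le_floor (hstep p hp p' hp' hne h)
        rw [Nat.floor_add_one (hf0 p hp)] at h1
        omega
      · have h1 := Nat.floor_le_floor (hstep p' hp' p hp (Ne.symm hne) h)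
        rw [Nat.floor_add_one (hf0 p' hp')] at h1
        omega
  rw [Finset.card_range] at hcard
  have h1 : (N.card : ℝ) ≤ (⌊K⌋₊ : ℝ) + 1 := by exact_mod_cast hcard
  have h2 : (⌊K⌋₊ : ℝ) ≤ K := Nat.floor_le (by linarith)
  linarith

/-- the sign of the direction -/
def sg (ε : Bool) : ℝ := if ε then 1 else -1

theorem dir_apply {D : ℕ} (w : Sp (D + 1)) (ε : Bool) (l : Fin (D + 1)) :
    dir w ε l = sg ε * w l := by
  cases ε
  · simp [dir, sg]
  · simp [dir, sg]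

theorem abs_sg (ε : Bool) : |sg ε| = 1 := by
  cases ε <;> simp [sg]

theorem basePt_dir {D : ℕ} (w : Sp (D + 1)) (ε : Bool) (p : Fin (D + 1) → ℝ) :
    basePt (dir w ε) p = basePt (dir w true) p := by
  funext l
  simp only [basePt]
  cases ε
  · simp only [dir]
    simp [div_neg]
  · rfl

theorem line_base {D : ℕ} (u : Fin (D + 1) → ℝ) (hu : u 0 ≠ 0) (p : Fin (D + 1) → ℝ) (y : ℝ)
    (l : Fin (D + 1)) : linePt u (basePt u p) y l = p l + (y - p 0 / u 0) * u l := by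
  refine Fin.cases ?_ (fun j => ?_) l
  · simp only [linePt, Fin.cons_zero]
    field_simp
    ring
  · simp only [linePt, Fin.cons_succ, basePt]
    ring

/-- the distance of the entry point from the base point -/
theorem alpha_le {D s : ℕ} {L c₁ : ℝ} {c : Body D s} {w w' : Sp (D + 1)}
    (hw : w 0 = 1) (hw' : w' 0 = 1)
    (hc : ∀ α β : ℝ, c₁ * |α| ≤ ‖α • w - β • w'‖)
    (hd : ∀ x y : Sp (D + 1), (fun l => x l) ∈ c.carrier → (fun l => y l) ∈ c.carrier →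
        dist x y ≤ L * c.ρ) (ε ε' : Bool) (p : Fin (D + 1) → ℝ) (y y' : ℝ)
    (h : linePt (dir w ε) (basePt (dir w ε) p) y ∈ c.carrier)
    (h' : linePt (dir w' ε') (basePt (dir w' ε') p) y' ∈ c.carrier) :
    c₁ * |y - p 0 / dir w ε 0| ≤ L * c.ρ := by
  have hs : ∀ ε : Bool, sg ε ≠ 0 := fun ε h => by
    have := abs_sg ε
    rw [h, abs_zero] at this
    exact zero_ne_one this
  have hu : dir w ε 0 ≠ 0 := by
    rw [dir_apply, hw, mul_one]
    exact hs ε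
  have hu' : dir w' ε' 0 ≠ 0 := by
    rw [dir_apply, hw', mul_one]
    exact hs ε'
  have h1 := hd (WithLp.toLp 2 (linePt (dir w ε) (basePt (dir w ε) p) y))
    (WithLp.toLp 2 (linePt (dir w' ε') (basePt (dir w' ε') p) y')) h h'
  have h2 := hc (sg ε * (y - p 0 / dir w ε 0)) (sg ε' * (y' - p 0 / dir w' ε' 0))
  rw [abs_mul, abs_sg, one_mul] at h2
  refine h2.trans (le_trans (le_of_eq ?_) h1)
  rw [dist_eq_norm]
  congr 1
  ext l
  simp only [PiLp.sub_apply, PiLp.smul_apply, smul_eq_mul]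
  rw [line_base _ hu, line_base _ hu', dir_apply w ε l, dir_apply w' ε' l]
  ring

end NoBox

open NoBox

/-- A colour class contains no large complete `(D + 1)`-partite system. -/
theorem no_box (D s β : ℕ) (K L c₁ : ℝ) (hc₁ : 0 < c₁) (hL : 0 ≤ L) (hK : 1 + L / c₁ ≤ K) :
    ∃ T : ℕ, ∀ (n : ℕ) (W : Finset (Sp (D + 1))), (∀ w ∈ W, w 0 = 1) →
      (∀ w ∈ W, ∀ w' ∈ W, w ≠ w' → ∀ α β : ℝ, c₁ * |α| ≤ ‖α • w - β • w'‖) →
      ∀ c : Fin n → Body D s, (∀ p, 0 < (c p).ρ) → (∀ p, IsClosed (c p).carrier) →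
      (∀ p, ∀ x y : Sp (D + 1), (fun l => x l) ∈ (c p).carrier → (fun l => y l) ∈ (c p).carrier →
        dist x y ≤ L * (c p).ρ) →
      ∀ B : Sp (D + 1) → Bool → Fin n → Fin n → MvPolynomial (Fin D) ℝ,
      (∀ w ε p p', (B w ε p p').totalDegree ≤ β) →
      (∀ w ∈ W, ∀ ε p p' x₀, eval x₀ (B w ε p p') ≠ 0 → ∀ i f, ∀ᶠ x in 𝓝 x₀,
        (tv K (dir w ε) i f x (c p) (c p') ↔ tv K (dir w ε) i f x₀ (c p) (c p'))) →
      ∀ χ : Colour D, Function.Injective χ.ω → (∀ a, χ.ω a ∈ W) →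
      ∀ η : ℝ, (∀ p, η ≤ (c p).ρ) →
      ∀ A : Fin (D + 1) → Finset (Fin n), (∀ k, T ≤ (A k).card) →
      (∀ m : Fin (D + 1) → Fin n, (∀ k, m k ∈ A k) → Function.Injective m) →
      ∀ xe : (Fin (D + 1) → Fin n) → Fin (D + 1) → ℝ,
      (∀ m, (∀ k, m k ∈ A k) → Cert c χ η m (xe m) ∧
        ∀ w ∈ W, ∀ ε p p', eval (basePt (dir w ε) (xe m)) (B w ε p p') ≠ 0) → False := by
  classical
  obtain ⟨q, hq⟩ := exists_nat_gt (K + 3)
  obtain ⟨T, hT⟩ := comb_main D β q (Fin 6)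
  refine ⟨T, ?_⟩
  intro n W hW0 hWc c hρ hcl hdist B hBdeg hBloc χ hχinj hχW η hη A hA hAinj xe hxe
  have hK1 : 1 ≤ K := by
    have : 0 ≤ L / c₁ := div_nonneg hL hc₁.le
    linarith
  obtain ⟨m, hm, k, a, a', haa, N, hNA, hqN, hzN, hlo, hhi, hH, hH'⟩ := hT (Fin n)
    (fun a k p p' => B (χ.ω a) (χ.ε a k) p p')
    (fun a k f x p p' => tv K (dir (χ.ω a) (χ.ε a k)) (χ.ι a k) f x (c p) (c p'))
    (fun a k p p' => hBdeg _ _ _ _)
    (fun a k f p p' x _ hne => hBloc _ (hχW a) _ p p' x hne _ f) A hA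
    (fun a m => basePt (dir (χ.ω a) true) (xe m))
    (fun a m hm k p _ p' _ _ => by
      have h := (hxe m hm).2 (χ.ω a) (hχW a) (χ.ε a k) p p'
      rwa [basePt_dir] at h)
  -- the elements of `N` other than `m k` are outside of the tuple
  have hout : ∀ p ∈ N, p ≠ m k → ∀ l, p ≠ m l := by
    intro p hp hpz l hpl
    have hlk : l ≠ k := by
      rintro rfl
      exact hpz hpl
    have h1 : ∀ k', Function.update m k p k' ∈ A k' := by
      intro k'
      rcases eq_or_ne k' k with rfl | h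
      · rw [Function.update_self]
        exact hNA hp
      · rw [Function.update_of_ne h]
        exact hm k'
    have h2 := hAinj _ h1
    apply hlk
    apply h2
    rw [Function.update_of_ne hlk, Function.update_self, hpl]
  have hCert := (hxe m hm).1
  -- one direction
  have key : ∀ a : Fin (D + 2),
      (∀ j, Homog N (fun p p' => tv K (dir (χ.ω a) (χ.ε a k)) (χ.ι a k) j
        (basePt (dir (χ.ω a) true) (xe m)) (c p) (c p'))) →
      ∃ y : Fin n → ℝ, |y (m k) - xe m 0 / dir (χ.ω a) (χ.ε a k) 0| ≤ η ∧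
        ∀ p ∈ N, (c p).Enters (dir (χ.ω a) (χ.ε a k)) (χ.ι a k)
          (basePt (dir (χ.ω a) (χ.ε a k)) (xe m)) (y p) ∧
          ∀ p' ∈ N, p' ≠ p → linePt (dir (χ.ω a) (χ.ε a k))
            (basePt (dir (χ.ω a) (χ.ε a k)) (xe m)) (y p) ∉ (c p').carrier := by
    intro a hH
    rw [← basePt_dir (χ.ω a) (χ.ε a k)] at hH
    obtain ⟨yz, hyz, hyη, hyo⟩ := hCert a k
    have h1 := fun p hp => spread hzN hlo hhi hH hyz
      (fun p hp hpz => hyo p (hout p hp hpz)) p hp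
    choose y hy using h1
    refine ⟨fun p => if h : p ∈ N then y p h else 0, ?_, ?_⟩
    · simp only [dif_pos hzN]
      rw [ith_unique (hy (m k) hzN).1.1 hyz.1]
      exact hyη
    · intro p hp
      simp only [dif_pos hp]
      exact hy p hp
  obtain ⟨y, hyη, hy⟩ := key a hH
  obtain ⟨y', -, hy'⟩ := key a' hH'
  have hww : χ.ω a ≠ χ.ω a' := fun h => haa (hχinj h)
  have hKρ : ∀ p ∈ N, |y p - y (m k)| ≤ K * (c p).ρ := by
    intro p hp
    have h1 := alpha_le (hW0 _ (hχW a)) (hW0 _ (hχW a'))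
      (hWc _ (hχW a) _ (hχW a') hww) (hdist p) (χ.ε a k) (χ.ε a' k) (xe m) (y p) (y' p)
      (enters_mem (hcl p) (hρ p) (hy p hp).1) (enters_mem (hcl p) (hρ p) (hy' p hp).1)
    have h2 : |y p - xe m 0 / dir (χ.ω a) (χ.ε a k) 0| ≤ L / c₁ * (c p).ρ := by
      rw [div_mul_eq_mul_div, le_div_iff₀ hc₁, mul_comm]
      exact h1
    have h3 := hη p
    have h4 : |y p - y (m k)| ≤ |y p - xe m 0 / dir (χ.ω a) (χ.ε a k) 0| +
        |y (m k) - xe m 0 / dir (χ.ω a) (χ.ε a k) 0| := by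
      have := abs_sub (y p - xe m 0 / dir (χ.ω a) (χ.ε a k) 0)
        (y (m k) - xe m 0 / dir (χ.ω a) (χ.ε a k) 0)
      rwa [sub_sub_sub_cancel_right] at this
    have h5 : (1 + L / c₁) * (c p).ρ ≤ K * (c p).ρ := mul_le_mul_of_nonneg_right hK (hρ p).le
    linarith
  have hHb : ∀ j, Homog N (fun p p' => tv K (dir (χ.ω a) (χ.ε a k)) (χ.ι a k) j
      (basePt (dir (χ.ω a) (χ.ε a k)) (xe m)) (c p) (c p')) := by
    rw [basePt_dir (χ.ω a) (χ.ε a k)]
    exact hH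
  have hpack := packing N y (fun p => (c p).ρ) K hK1 (fun p _ => hρ p)
    (fun p hp p' hp' hne => sep hρ hcl hy p hp p' hp' hne)
    (fun p hp p' hp' hne => close hzN hlo hhi hHb (fun p hp => (hy p hp).1.1) hKρ p hp p' hp' hne)
  have hqN' : (q : ℝ) ≤ N.card := by exact_mod_cast hqN
  linarith

end Pool.Agent.MP_5a1161_co
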