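import Pool.Agent.Lib.MP_5a1161_co_h27.Defs

set_option autoImplicit false

namespace Pool.Agent.MP_5a1161_co

open Filter Topology

/-- The tent of width `g` at `c`. -/
private noncomputable def tent (g c y : ℝ) : ℝ := max 0 (1 - |y - c| / g)

private theorem tent_nonneg (g c y : ℝ) : 0 ≤ tent g c y := le_max_left _ _

private theorem tent_le_one {g : ℝ} (hg : 0 < g) (c y : ℝ) : tent g c y ≤ 1 := by
  unfold tent
  refine max_le zero_le_one ?_
  have : 0 ≤ |y - c| / g := by positivity
  linarith

private theorem tent_self (g c : ℝ) : tent g c c = 1 := by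
  unfold tent
  simp

private theorem tent_far {g : ℝ} (hg : 0 < g) {c y : ℝ} (h : g ≤ |y - c|) : tent g c y = 0 := by
  unfold tent
  refine max_eq_left ?_
  have : 1 ≤ |y - c| / g := by rwa [le_div_iff₀ hg, one_mul]
  linarith

private theorem tent_lip {g : ℝ} (hg : 0 < g) (c y y' : ℝ) :
    |tent g c y - tent g c y'| ≤ |y - y'| / g := by
  unfold tent
  have h1 := abs_max_sub_max_le_abs (1 - |y - c| / g) (1 - |y' - c| / g) 0
  rw [max_comm (1 - |y - c| / g) 0, max_comm (1 - |y' - c| / g) 0] at h1
  refine h1.trans ?_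
  have h2 : 1 - |y - c| / g - (1 - |y' - c| / g) = (|y' - c| - |y - c|) / g := by ring
  rw [h2, abs_div, abs_of_pos hg]
  refine div_le_div_of_nonneg_right ?_ hg.le
  have h3 := abs_abs_sub_abs_le_abs_sub (y' - c) (y - c)
  have h4 : y' - c - (y - c) = -(y - y') := by ring
  rw [h4, abs_neg] at h3
  exact h3

private theorem tent_cont (g c : ℝ) : Continuous (tent g c) := by
  unfold tent
  fun_prop

private theorem exists_gap {m : ℕ} (z : Fin m → ℝ) (hz : StrictMono z) :
    ∃ g > 0, ∀ i j, i ≠ j → g ≤ |z i - z j| := by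
  have h : ∀ᶠ g in 𝓝[>] (0 : ℝ), ∀ i j, i ≠ j → g ≤ |z i - z j| := by
    rw [eventually_all]
    intro i
    rw [eventually_all]
    intro j
    by_cases hij : i = j
    · exact Eventually.of_forall fun _ h => absurd hij h
    · have hp : 0 < |z i - z j| := abs_pos.2 (sub_ne_zero.2 fun h => hij (hz.injective h))
      filter_upwards [nhdsWithin_le_nhds (Iic_mem_nhds hp)] with g hg _
      exact hg
  obtain ⟨g, hg, hg0⟩ := (h.and self_mem_nhdsWithin).exists
  exact ⟨g, hg0, hg⟩

/-- A small displacement of finitely many points extends to an increasing bijection of the real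
line. -/
theorem exists_orderIso {m : ℕ} (z : Fin m → ℝ) (hz : StrictMono z) : ∃ ε > 0,
    ∀ z' : Fin m → ℝ, (∀ j, |z' j - z j| < ε) → ∃ ψ : ℝ ≃o ℝ, ∀ j, ψ (z j) = z' j := by
  obtain ⟨g, hg, hgap⟩ := exists_gap z hz
  refine ⟨g / (2 * ((m : ℝ) + 1)), by positivity, fun z' hz' => ?_⟩
  set S : ℝ → ℝ := fun y => ∑ j, (z' j - z j) * tent g (z j) y with hS
  have hcont : Continuous S := by
    rw [hS]
    refine continuous_finsetSum _ fun j _ => ?_
    exact continuous_const.mul (tent_cont g (z j))
  have hlip : ∀ y y', |S y - S y'| ≤ |y - y'| / 2 := by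
    intro y y'
    have h1 : S y - S y' = ∑ j, (z' j - z j) * (tent g (z j) y - tent g (z j) y') := by
      rw [hS]
      simp only
      rw [← Finset.sum_sub_distrib]
      exact Finset.sum_congr rfl fun j _ => by ring
    rw [h1]
    refine (Finset.abs_sum_le_sum_abs _ _).trans ?_
    have h2 : ∀ j ∈ Finset.univ, |(z' j - z j) * (tent g (z j) y - tent g (z j) y')| ≤
        (g / (2 * ((m : ℝ) + 1))) * (|y - y'| / g) := by
      intro j _
      rw [abs_mul]
      exact mul_le_mul (hz' j).le (tent_lip hg _ _ _) (abs_nonneg _) (by positivity)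
    refine (Finset.sum_le_sum h2).trans ?_
    rw [Finset.sum_const, Finset.card_univ, Fintype.card_fin, nsmul_eq_mul]
    have h3 : (m : ℝ) * (g / (2 * ((m : ℝ) + 1)) * (|y - y'| / g)) =
        ((m : ℝ) / ((m : ℝ) + 1)) * (|y - y'| / 2) := by
      field_simp
    rw [h3]
    have h4 : (m : ℝ) / ((m : ℝ) + 1) ≤ 1 := by
      rw [div_le_one (by positivity)]
      linarith
    have h5 : 0 ≤ |y - y'| / 2 := by positivity
    nlinarith
  have hbd : ∀ y, |S y| ≤ ∑ j, |z' j - z j| := by
    intro y
    refine (Finset.abs_sum_le_sum_abs _ _).trans (Finset.sum_le_sum fun j _ => ?_)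
    rw [abs_mul, abs_of_nonneg (tent_nonneg g (z j) y)]
    exact mul_le_of_le_one_right (abs_nonneg _) (tent_le_one hg _ _)
  have hmono : StrictMono fun y => y + S y := by
    intro y y' hy
    have h1 := hlip y y'
    have h2 : |y - y'| = y' - y := by rw [abs_sub_comm, abs_of_pos (sub_pos.2 hy)]
    rw [h2] at h1
    have h3 := (abs_le.1 h1).2
    change y + S y < y' + S y'
    linarith
  have htop : Tendsto (fun y => y + S y) atTop atTop := by
    refine tendsto_atTop_mono (fun y => ?_)
      (tendsto_atTop_add_const_right atTop (-∑ j, |z' j - z j|) tendsto_id)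
    have := (abs_le.1 (hbd y)).1
    simp only [id]
    linarith
  have hbot : Tendsto (fun y => y + S y) atBot atBot := by
    refine tendsto_atBot_mono (fun y => ?_)
      (tendsto_atBot_add_const_right atBot (∑ j, |z' j - z j|) tendsto_id)
    have := (abs_le.1 (hbd y)).2
    simp only [id]
    linarith
  have hsurj : Function.Surjective fun y => y + S y :=
    (continuous_id.add hcont).surjective htop hbot
  refine ⟨hmono.orderIsoOfSurjective _ hsurj, fun j => ?_⟩
  rw [StrictMono.coe_orderIsoOfSurjective]
  have h1 : S (z j) = z' j - z j := by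
    rw [hS]
    simp only
    rw [Finset.sum_eq_single j]
    · rw [tent_self, mul_one]
    · intro i _ hij
      rw [tent_far hg (hgap j i hij.symm), mul_zero]
    · intro h
      exact absurd (Finset.mem_univ j) h
  simp only [h1]
  ring

end Pool.Agent.MP_5a1161_co
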