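import Pool.Agent.Lib.MP_5a1161_co_h27.Defs

set_option autoImplicit false

namespace Pool.Agent.MP_5a1161_co

open MvPolynomial Topology

/-- the two variable function is a finite sum -/
private theorem rr_sum {D : ℕ} (Q : Polynomial (MvPolynomial (Fin D) ℝ)) (x : Fin D → ℝ) (y : ℝ) :
    evalAt Q x y = ∑ l ∈ Finset.range (Q.natDegree + 1), eval x (Q.coeff l) * y ^ l := by
  unfold evalAt
  rw [Polynomial.eval_map, Polynomial.eval₂_eq_sum_range]

/-- the two variable function is smooth -/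
private theorem rr_smooth {D : ℕ} (Q : Polynomial (MvPolynomial (Fin D) ℝ)) :
    ContDiff ℝ 1 (fun p : (Fin D → ℝ) × ℝ => evalAt Q p.1 p.2) := by
  have h1 : (fun p : (Fin D → ℝ) × ℝ => evalAt Q p.1 p.2) = fun p : (Fin D → ℝ) × ℝ =>
      ∑ l ∈ Finset.range (Q.natDegree + 1), eval p.1 (Q.coeff l) * p.2 ^ l :=
    funext fun p => rr_sum Q p.1 p.2
  rw [h1]
  refine ContDiff.sum fun l _ => ?_
  have h2 : ContDiff ℝ 1 (fun x : Fin D → ℝ => eval x (Q.coeff l)) :=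
    (AnalyticOnNhd.eval_mvPolynomial (𝕜 := ℝ) (Q.coeff l)).contDiff
  exact (h2.comp contDiff_fst).mul (contDiff_snd.pow l)

/-- the derivative in the last variable -/
private theorem rr_deriv {D : ℕ} (Q : Polynomial (MvPolynomial (Fin D) ℝ)) (x : Fin D → ℝ)
    (y : ℝ) : HasDerivAt (fun t => evalAt Q x t) (evalAt (Polynomial.derivative Q) x y) y := by
  unfold evalAt
  rw [← Polynomial.derivative_map]
  exact Polynomial.hasDerivAt _ _

/-- local implicit function at a simple root -/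
private theorem rr_local {D : ℕ} (Q : Polynomial (MvPolynomial (Fin D) ℝ)) (x₀ : Fin D → ℝ)
    (z : ℝ) (hz : evalAt Q x₀ z = 0) (hd : evalAt (Polynomial.derivative Q) x₀ z ≠ 0) :
    ∃ φ : (Fin D → ℝ) → ℝ, Filter.Tendsto φ (𝓝 x₀) (𝓝 z) ∧
      ∀ᶠ p : (Fin D → ℝ) × ℝ in 𝓝 (x₀, z), evalAt Q p.1 p.2 = 0 ↔ φ p.1 = p.2 := by
  have hF := (rr_smooth Q).contDiffAt (x := (x₀, z))
  have hs := hF.hasStrictFDerivAt (by norm_num)
  set L := fderiv ℝ (fun p : (Fin D → ℝ) × ℝ => evalAt Q p.1 p.2) (x₀, z) with hL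
  have h1 : L ((0 : Fin D → ℝ), (1 : ℝ)) = evalAt (Polynomial.derivative Q) x₀ z := by
    have h2 : HasDerivAt (fun t : ℝ => ((x₀, t) : (Fin D → ℝ) × ℝ)) ((0 : Fin D → ℝ), (1 : ℝ)) z :=
      (hasDerivAt_const z x₀).prodMk (hasDerivAt_id z)
    have h3 := hs.hasFDerivAt.comp_hasDerivAt z h2
    exact h3.unique (rr_deriv Q x₀ z)
  have hinv : (L ∘L ContinuousLinearMap.inr ℝ (Fin D → ℝ) ℝ).IsInvertible := by
    refine ⟨ContinuousLinearEquiv.unitsEquivAut ℝ (Units.mk0 _ hd), ?_⟩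
    ext
    simp only [ContinuousLinearEquiv.coe_coe, ContinuousLinearEquiv.unitsEquivAut_apply,
      Units.val_mk0, one_mul, ContinuousLinearMap.comp_apply, ContinuousLinearMap.inr_apply]
    exact h1.symm
  refine ⟨hs.implicitFunctionOfProdDomain hinv, hs.tendsto_implicitFunctionOfProdDomain hinv, ?_⟩
  have h4 := hs.eventually_apply_eq_iff_implicitFunctionOfProdDomain hinv
  filter_upwards [h4] with p hp
  rw [← hp]
  change _ ↔ evalAt Q p.1 p.2 = evalAt Q x₀ z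
  rw [hz]

/-- no root comes from infinity -/
private theorem rr_infty {D : ℕ} (Q : Polynomial (MvPolynomial (Fin D) ℝ)) (x₀ : Fin D → ℝ)
    (hl : eval x₀ Q.leadingCoeff ≠ 0) :
    ∃ R : ℝ, ∀ᶠ x in 𝓝 x₀, ∀ y, R < |y| → evalAt Q x y ≠ 0 := by
  have h0 : evalAt Q.reverse x₀ 0 ≠ 0 := by
    unfold evalAt
    rw [← Polynomial.coeff_zero_eq_eval_zero, Polynomial.coeff_map, Polynomial.coeff_zero_reverse]
    exact hl
  have hc : ContinuousAt (fun p : (Fin D → ℝ) × ℝ => evalAt Q.reverse p.1 p.2) (x₀, 0) :=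
    (rr_smooth Q.reverse).continuous.continuousAt
  have h1 : ∀ᶠ p : (Fin D → ℝ) × ℝ in 𝓝 (x₀, 0), evalAt Q.reverse p.1 p.2 ≠ 0 :=
    hc.eventually_ne h0
  rw [nhds_prod_eq] at h1
  obtain ⟨pa, ha, pb, hb, hab⟩ := Filter.eventually_prod_iff.1 h1
  obtain ⟨r, hr, hrb⟩ := Metric.eventually_nhds_iff.1 hb
  refine ⟨r⁻¹, ?_⟩
  filter_upwards [ha] with x hx y hy h2
  have hr' : 0 < r⁻¹ := inv_pos.2 hr
  have hy0 : 0 < |y| := hr'.trans hy
  have hy1 : y ≠ 0 := abs_pos.1 hy0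
  have h3 : dist y⁻¹ 0 < r := by
    rw [dist_zero_right, Real.norm_eq_abs, abs_inv]
    exact inv_lt_of_inv_lt₀ hr hy
  have h4 : evalAt Q.reverse x y⁻¹ ≠ 0 := hab hx (hrb h3)
  haveI : Invertible y := invertibleOfNonzero hy1
  have h5 := Polynomial.eval₂_reverse_mul_pow (eval x) y Q
  rw [invOf_eq_inv] at h5
  unfold evalAt at h2 h4
  rw [Polynomial.eval_map] at h2 h4
  rw [h2] at h5
  exact h4 ((mul_eq_zero.1 h5).resolve_right (pow_ne_zero _ hy1))

/-- Simple roots move continuously and no root comes from infinity when the leading coefficient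
does not vanish. -/
theorem roots_persist (D : ℕ) (Q : Polynomial (MvPolynomial (Fin D) ℝ)) (x₀ : Fin D → ℝ)
    (hl : eval x₀ Q.leadingCoeff ≠ 0)
    (hs : ∀ y, evalAt Q x₀ y = 0 → evalAt (Polynomial.derivative Q) x₀ y ≠ 0) :
    ∃ (m : ℕ) (z : Fin m → ℝ), StrictMono z ∧ (∀ y, evalAt Q x₀ y = 0 ↔ ∃ j, z j = y) ∧
      ∀ ε > 0, ∀ᶠ x in 𝓝 x₀, ∃ z' : Fin m → ℝ, StrictMono z' ∧
        (∀ y, evalAt Q x y = 0 ↔ ∃ j, z' j = y) ∧ ∀ j, |z' j - z j| < ε := by
  have hp0 : Q.map (eval x₀) ≠ 0 := by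
    intro h
    apply hl
    have h1 : (Q.map (eval x₀)).coeff Q.natDegree = 0 := by
      rw [h, Polynomial.coeff_zero]
    rwa [Polynomial.coeff_map] at h1
  set Z := (Q.map (eval x₀)).roots.toFinset with hZ
  have hZm : ∀ y, y ∈ Z ↔ evalAt Q x₀ y = 0 := by
    intro y
    rw [hZ, Multiset.mem_toFinset, Polynomial.mem_roots hp0]
    exact Iff.rfl
  set z := Z.orderEmbOfFin rfl with hz
  have hzm : ∀ y, evalAt Q x₀ y = 0 ↔ ∃ j, z j = y := by
    intro y
    rw [← hZm]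
    have h1 := Finset.range_orderEmbOfFin Z rfl
    rw [← Finset.mem_coe, ← h1]
    exact Iff.rfl
  refine ⟨Z.card, z, z.strictMono, hzm, fun ε hε => ?_⟩
  have hz0 : ∀ j, evalAt Q x₀ (z j) = 0 := fun j => (hzm _).2 ⟨j, rfl⟩
  choose φ hφ hφe using fun j => rr_local Q x₀ (z j) (hz0 j) (hs _ (hz0 j))
  -- uniform neighbourhoods
  have hδ : ∀ j, ∃ δ > 0, ∀ᶠ x in 𝓝 x₀, ∀ y, |y - z j| < δ → (evalAt Q x y = 0 ↔ φ j x = y) := by
    intro j
    have h1 := hφe j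
    rw [nhds_prod_eq] at h1
    obtain ⟨pa, ha, pb, hb, hab⟩ := Filter.eventually_prod_iff.1 h1
    obtain ⟨r, hr, hrb⟩ := Metric.eventually_nhds_iff.1 hb
    refine ⟨r, hr, ?_⟩
    filter_upwards [ha] with x hx y hy
    exact hab hx (hrb (by rwa [Real.dist_eq]))
  choose δ hδ0 hδe using hδ
  obtain ⟨R, hR⟩ := rr_infty Q x₀ hl
  -- the compact remainder
  set K : Set ℝ := Set.Icc (-R) R \ ⋃ j, Metric.ball (z j) (δ j) with hK
  have hKc : IsCompact K :=
    isCompact_Icc.diff (isOpen_iUnion fun j => Metric.isOpen_ball)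
  have hKe : ∀ᶠ x in 𝓝 x₀, ∀ y ∈ K, evalAt Q x y ≠ 0 := by
    refine hKc.eventually_forall_of_forall_eventually fun y hy => ?_
    have h1 : evalAt Q x₀ y ≠ 0 := by
      intro h2
      obtain ⟨j, hj⟩ := (hzm y).1 h2
      apply hy.2
      rw [Set.mem_iUnion]
      exact ⟨j, by rw [hj]; exact Metric.mem_ball_self (hδ0 j)⟩
    have hc : ContinuousAt (fun p : (Fin D → ℝ) × ℝ => evalAt Q p.1 p.2) (x₀, y) :=
      (rr_smooth Q).continuous.continuousAt
    exact hc.eventually_ne h1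
  have hlt : ∀ᶠ x in 𝓝 x₀, ∀ i j, i < j → φ i x < φ j x := by
    rw [Filter.eventually_all]
    intro i
    rw [Filter.eventually_all]
    intro j
    by_cases hij : i < j
    · filter_upwards [(hφ i).eventually_lt (hφ j) (z.strictMono hij)] with x hx _
      exact hx
    · exact Filter.Eventually.of_forall fun x h => absurd h hij
  have hnear : ∀ ρ : Fin Z.card → ℝ, (∀ j, 0 < ρ j) → ∀ᶠ x in 𝓝 x₀, ∀ j, |φ j x - z j| < ρ j := by
    intro ρ hρ
    rw [Filter.eventually_all]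
    intro j
    exact Metric.tendsto_nhds.1 (hφ j) (ρ j) (hρ j)
  filter_upwards [hR, hKe, hlt, hnear δ hδ0, hnear (fun _ => ε) (fun _ => hε),
    Filter.eventually_all.2 hδe] with x h1 h2 h3 h4 h5 h6
  refine ⟨fun j => φ j x, fun i j hij => h3 i j hij, fun y => ⟨fun hy => ?_, ?_⟩, h5⟩
  · have hyR : y ∈ Set.Icc (-R) R := by
      rw [Set.mem_Icc, ← abs_le]
      by_contra hc
      exact h1 y (not_le.1 hc) hy
    by_contra hc
    refine h2 y ⟨hyR, fun hm => hc ?_⟩ hy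
    obtain ⟨j, hj⟩ := Set.mem_iUnion.1 hm
    rw [Metric.mem_ball, Real.dist_eq] at hj
    exact ⟨j, (h6 j y hj).1 hy⟩
  · rintro ⟨j, rfl⟩
    exact (h6 j _ (h4 j)).2 rfl

end Pool.Agent.MP_5a1161_co
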