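import Pool.Agent.Lib.MP_5a1161_co_h27.RCAlg
import Pool.Agent.Lib.MP_5a1161_co_h27.RCRoots
import Pool.Agent.Lib.MP_5a1161_co_h27.OrdIso

set_option autoImplicit false

namespace Pool.Agent.MP_5a1161_co

open MvPolynomial Topology

private theorem rc_continuous_evalAt {D : ℕ} (G : Polynomial (MvPolynomial (Fin D) ℝ)) :
    Continuous fun p : (Fin D → ℝ) × ℝ => evalAt G p.1 p.2 := by
  have h : (fun p : (Fin D → ℝ) × ℝ => evalAt G p.1 p.2) =
      fun p => ∑ i ∈ Finset.range (G.natDegree + 1), eval p.1 (G.coeff i) * p.2 ^ i := by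
    funext p
    unfold evalAt
    rw [Polynomial.eval_map, Polynomial.eval₂_eq_sum_range]
  rw [h]
  refine continuous_finsetSum _ fun i _ => ?_
  exact ((MvPolynomial.continuous_eval (G.coeff i)).comp continuous_fst).mul
    (continuous_snd.pow i)

private theorem rc_continuous_right {D : ℕ} (G : Polynomial (MvPolynomial (Fin D) ℝ))
    (x : Fin D → ℝ) : Continuous fun y => evalAt G x y :=
  (rc_continuous_evalAt G).comp (Continuous.prodMk_right x)

private theorem rc_continuous_left {D : ℕ} (G : Polynomial (MvPolynomial (Fin D) ℝ))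
    (y : ℝ) : Continuous fun x => evalAt G x y :=
  (rc_continuous_evalAt G).comp (Continuous.prodMk_left y)

private theorem rc_sign_eventually {X : Type*} [TopologicalSpace X] {f : X → ℝ} {p : X}
    (hf : ContinuousAt f p) (h0 : f p ≠ 0) :
    ∀ᶠ q in 𝓝 p, SignType.sign (f q) = SignType.sign (f p) := by
  rcases lt_or_gt_of_ne h0 with h | h
  · filter_upwards [hf.eventually (gt_mem_nhds h)] with q hq
    rw [sign_neg h, sign_neg hq]
  · filter_upwards [hf.eventually (lt_mem_nhds h)] with q hq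
    rw [sign_pos h, sign_pos hq]

private theorem rc_sign_eq {f : ℝ → ℝ} (hf : Continuous f) {a b : ℝ}
    (h : ∀ w, f w = 0 → w ≠ a ∧ w ≠ b ∧ (w < a ↔ w < b)) :
    SignType.sign (f a) = SignType.sign (f b) := by
  have hno : ∀ w ∈ Set.uIcc a b, f w ≠ 0 := by
    intro w hw h0
    obtain ⟨h1, h2, h3⟩ := h w h0
    rcases Set.mem_uIcc.1 hw with ⟨h4, h5⟩ | ⟨h4, h5⟩
    · exact absurd (h3.2 (lt_of_le_of_ne h5 h2)) (not_lt.2 h4)
    · exact absurd (h3.1 (lt_of_le_of_ne h5 h1)) (not_lt.2 h4)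
  have hz : (0 : ℝ) ∉ Set.uIcc (f a) (f b) := by
    intro h0
    obtain ⟨w, hw, hw0⟩ := intermediate_value_uIcc hf.continuousOn h0
    exact hno w hw hw0
  have ha : f a ≠ 0 := hno a Set.left_mem_uIcc
  have hb : f b ≠ 0 := hno b Set.right_mem_uIcc
  rcases lt_or_gt_of_ne ha with h1 | h1 <;> rcases lt_or_gt_of_ne hb with h2 | h2
  · rw [sign_neg h1, sign_neg h2]
  · exact absurd (Set.mem_uIcc.2 (Or.inl ⟨h1.le, h2.le⟩)) hz
  · exact absurd (Set.mem_uIcc.2 (Or.inr ⟨h2.le, h1.le⟩)) hz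
  · rw [sign_pos h1, sign_pos h2]

private theorem rc_evalAt_mul {D : ℕ} (g h : Polynomial (MvPolynomial (Fin D) ℝ))
    (x : Fin D → ℝ) (y : ℝ) : evalAt (g * h) x y = evalAt g x y * evalAt h x y := by
  unfold evalAt
  rw [Polynomial.map_mul, Polynomial.eval_mul]

/-- At a root of `Q` the sign of `G` is locally constant along roots of `Q`. -/
private theorem rc_at_root {D : ℕ} (G Q : Polynomial (MvPolynomial (Fin D) ℝ)) (x₀ : Fin D → ℝ)
    (z : ℝ) (hz : evalAt (Polynomial.derivative Q) x₀ z ≠ 0)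
    (hG : G ≠ 0 → ∃ g h, Q = g * h ∧ ∀ x y, evalAt g x y = 0 ↔ evalAt G x y = 0) :
    ∀ᶠ p : (Fin D → ℝ) × ℝ in 𝓝 (x₀, z), evalAt Q p.1 p.2 = 0 →
      SignType.sign (evalAt G p.1 p.2) = SignType.sign (evalAt G x₀ z) := by
  by_cases hG0 : G = 0
  · refine Filter.Eventually.of_forall fun p _ => ?_
    simp [hG0, evalAt]
  obtain ⟨g, h, hQ, hgG⟩ := hG hG0
  by_cases h0 : evalAt G x₀ z = 0
  · have hg0 : evalAt g x₀ z = 0 := (hgG x₀ z).2 h0
    have hh0 : evalAt h x₀ z ≠ 0 := by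
      intro hh
      apply hz
      rw [hQ, Polynomial.derivative_mul]
      unfold evalAt at hg0 hh ⊢
      rw [Polynomial.map_add, Polynomial.map_mul, Polynomial.map_mul, Polynomial.eval_add,
        Polynomial.eval_mul, Polynomial.eval_mul, hg0, hh]
      ring
    have hc : ∀ᶠ p : (Fin D → ℝ) × ℝ in 𝓝 (x₀, z), evalAt h p.1 p.2 ≠ 0 :=
      (rc_continuous_evalAt h).continuousAt.eventually_ne hh0
    filter_upwards [hc] with p hp hpQ
    rw [hQ, rc_evalAt_mul] at hpQ
    have hpg : evalAt g p.1 p.2 = 0 := (mul_eq_zero.1 hpQ).resolve_right hp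
    rw [h0, (hgG _ _).1 hpg]
  · have := rc_sign_eventually (f := fun p : (Fin D → ℝ) × ℝ => evalAt G p.1 p.2)
      (p := (x₀, z)) (rc_continuous_evalAt G).continuousAt h0
    filter_upwards [this] with p hp _
    exact hp

/-- The delineability lemma: off the zero set of a polynomial `B` of bounded degree the sign
diagrams of finitely many polynomials in `y` are locally constant up to an increasing bijection. -/
theorem rc (D b r : ℕ) : ∃ β : ℕ, ∀ G : Fin r → Polynomial (MvPolynomial (Fin D) ℝ),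
    (∀ i, (G i).natDegree ≤ b ∧ ∀ l, ((G i).coeff l).totalDegree ≤ b) →
    ∃ B : MvPolynomial (Fin D) ℝ, B ≠ 0 ∧ B.totalDegree ≤ β ∧ ∀ x₀, eval x₀ B ≠ 0 →
      (∀ i, G i ≠ 0 → ∃ y, evalAt (G i) x₀ y ≠ 0) ∧
      ∀ᶠ x in 𝓝 x₀, ∃ ψ : ℝ ≃o ℝ, ∀ i y,
        SignType.sign (evalAt (G i) x (ψ y)) = SignType.sign (evalAt (G i) x₀ y) := by
  obtain ⟨β, hβ⟩ := rc_alg D b r
  refine ⟨β, fun G hGb => ?_⟩
  obtain ⟨Q, B, hB0, hBd, hBQ, hGQ⟩ := hβ G hGb
  refine ⟨B, hB0, hBd, fun x₀ hx₀ => ?_⟩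
  obtain ⟨hlead, hsimple⟩ := hBQ x₀ hx₀
  obtain ⟨m, z, hz, hzQ, hpers⟩ := roots_persist D Q x₀ hlead hsimple
  -- zeros of `G i` are zeros of `Q`
  have hGzero : ∀ i, G i ≠ 0 → ∀ x y, evalAt (G i) x y = 0 → evalAt Q x y = 0 := by
    intro i hi x y h0
    obtain ⟨g, h, hQ, hgG⟩ := hGQ i hi
    rw [hQ, rc_evalAt_mul, (hgG x y).2 h0, zero_mul]
  refine ⟨fun i hi => ?_, ?_⟩
  · by_contra hcon
    push Not at hcon
    have hall : ∀ y, ∃ j, z j = y := fun y => (hzQ y).1 (hGzero i hi x₀ y (hcon y))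
    have hfin : (Set.univ : Set ℝ).Finite :=
      (Set.finite_range z).subset fun y _ => hall y
    exact Set.infinite_univ hfin
  obtain ⟨ε₀, hε₀, hiso⟩ := exists_orderIso z hz
  -- events at the roots
  have hroot : ∀ j : Fin m, ∀ᶠ ε in 𝓝[>] (0 : ℝ), ∀ᶠ x in 𝓝 x₀, ∀ y, |y - z j| < ε →
      evalAt Q x y = 0 → ∀ i,
        SignType.sign (evalAt (G i) x y) = SignType.sign (evalAt (G i) x₀ (z j)) := by
    intro j
    have h1 : ∀ i, ∀ᶠ p : (Fin D → ℝ) × ℝ in 𝓝 (x₀, z j), evalAt Q p.1 p.2 = 0 →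
        SignType.sign (evalAt (G i) p.1 p.2) = SignType.sign (evalAt (G i) x₀ (z j)) :=
      fun i => rc_at_root (G i) Q x₀ (z j) (hsimple _ ((hzQ _).2 ⟨j, rfl⟩)) (hGQ i)
    have h2 := Filter.eventually_all.2 h1
    rw [nhds_prod_eq, Filter.eventually_prod_iff] at h2
    obtain ⟨pa, hpa, pb, hpb, hP⟩ := h2
    obtain ⟨δ, hδ, hδb⟩ := Metric.eventually_nhds_iff.1 hpb
    filter_upwards [Ioo_mem_nhdsGT hδ] with ε hε
    filter_upwards [hpa] with x hx y hy hQ i
    exact hP hx (hδb (by rw [Real.dist_eq]; exact hy.trans hε.2)) i hQ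
  -- events at the sample points
  have hsamp : ∀ T : Set (Fin m), ∀ᶠ ε in 𝓝[>] (0 : ℝ), ∀ᶠ x in 𝓝 x₀, ∀ z' : Fin m → ℝ,
      (∀ y, evalAt Q x y = 0 ↔ ∃ j, z' j = y) → (∀ j, |z' j - z j| < ε) →
      ∀ ψ : ℝ ≃o ℝ, (∀ j, ψ (z j) = z' j) → ∀ y, (∀ j, z j ≠ y) → {j | z j < y} = T →
      ∀ i, SignType.sign (evalAt (G i) x (ψ y)) = SignType.sign (evalAt (G i) x₀ y) := by
    intro T
    by_cases hT : ∃ s, (∀ j, z j ≠ s) ∧ {j | z j < s} = T
    · obtain ⟨s, hs, hsT⟩ := hT
      have h1 : ∀ j : Fin m, ∀ᶠ ε in 𝓝[>] (0 : ℝ), ∀ w, |w - z j| < ε →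
          w ≠ s ∧ (w < s ↔ z j < s) := by
        intro j
        have hpos : 0 < |z j - s| := abs_pos.2 (sub_ne_zero.2 (hs j))
        filter_upwards [Ioo_mem_nhdsGT hpos] with ε hε w hw
        have hw' := hw.trans hε.2
        rcases lt_or_gt_of_ne (hs j) with h | h
        · rw [abs_of_neg (sub_neg.2 h)] at hw'
          have := (abs_lt.1 hw').2
          have hws : w < s := by linarith
          exact ⟨hws.ne, iff_of_true hws h⟩
        · rw [abs_of_pos (sub_pos.2 h)] at hw'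
          have := (abs_lt.1 hw').1
          have hws : s < w := by linarith
          exact ⟨hws.ne', iff_of_false (not_lt.2 hws.le) (not_lt.2 h.le)⟩
      have h2 : ∀ i, ∀ᶠ x in 𝓝 x₀,
          SignType.sign (evalAt (G i) x s) = SignType.sign (evalAt (G i) x₀ s) := by
        intro i
        by_cases hi : G i = 0
        · refine Filter.Eventually.of_forall fun x => ?_
          simp [hi, evalAt]
        · have hne : evalAt (G i) x₀ s ≠ 0 := by
            intro h0
            obtain ⟨j, hj⟩ := (hzQ s).1 (hGzero i hi x₀ s h0)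
            exact hs j hj
          exact rc_sign_eventually (f := fun x => evalAt (G i) x s) (p := x₀)
            (rc_continuous_left (G i) s).continuousAt hne
      filter_upwards [Filter.eventually_all.2 h1] with ε hε
      filter_upwards [Filter.eventually_all.2 h2] with x hx z' hz'Q hz'ε ψ hψ y hy hyT i
      by_cases hi : G i = 0
      · simp [hi, evalAt]
      have hside : ∀ j, (z j < y ↔ z j < s) := by
        intro j
        have : j ∈ {j | z j < y} ↔ j ∈ {j | z j < s} := by rw [hyT, hsT]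
        exact this
      have e1 : SignType.sign (evalAt (G i) x₀ y) = SignType.sign (evalAt (G i) x₀ s) := by
        refine rc_sign_eq (rc_continuous_right (G i) x₀) fun w hw => ?_
        obtain ⟨j, hj⟩ := (hzQ w).1 (hGzero i hi x₀ w hw)
        subst hj
        exact ⟨hy j, hs j, hside j⟩
      have e2 : SignType.sign (evalAt (G i) x (ψ y)) = SignType.sign (evalAt (G i) x s) := by
        refine rc_sign_eq (rc_continuous_right (G i) x) fun w hw => ?_
        obtain ⟨j, hj⟩ := (hz'Q w).1 (hGzero i hi x w hw)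
        subst hj
        obtain ⟨h3, h4⟩ := hε j (z' j) (hz'ε j)
        refine ⟨?_, h3, ?_⟩
        · rw [← hψ j]
          exact fun h => hy j (ψ.injective h)
        · rw [h4, ← hψ j, ψ.lt_iff_lt]
          exact hside j
      rw [e1, e2, hx i]
    · refine Filter.Eventually.of_forall fun ε => Filter.Eventually.of_forall fun x => ?_
      intro z' _ _ ψ _ y hy hyT
      exact absurd ⟨y, hy, hyT⟩ hT
  have hall := ((Filter.eventually_all.2 hroot).and (Filter.eventually_all.2 hsamp)).and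
    (Ioo_mem_nhdsGT hε₀)
  obtain ⟨ε, ⟨hr, hs⟩, hε⟩ := hall.exists
  filter_upwards [Filter.eventually_all.2 hr, Filter.eventually_all.2 hs, hpers ε hε.1]
    with x hxr hxs hxp
  obtain ⟨z', hz', hz'Q, hz'ε⟩ := hxp
  obtain ⟨ψ, hψ⟩ := hiso z' fun j => (hz'ε j).trans hε.2
  refine ⟨ψ, fun i y => ?_⟩
  by_cases hy : ∃ j, z j = y
  · obtain ⟨j, rfl⟩ := hy
    rw [hψ j]
    exact hxr j (z' j) (hz'ε j) ((hz'Q _).2 ⟨j, rfl⟩) i
  · push Not at hy
    exact hxs {j | z j < y} z' hz'Q hz'ε ψ hψ y hy rfl i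

end Pool.Agent.MP_5a1161_co
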