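import Pool.Agent.Lib.MP_5a1161_co_h27.Defs

set_option autoImplicit false

namespace Pool.Agent.MP_5a1161_co

open MvPolynomial

open scoped nonZeroDivisors

/-- A squarefree polynomial over a unique factorization domain stays squarefree over the field of
fractions. -/
private lemma squarefree_map {R : Type*} [CommRing R] [IsDomain R] [NormalizedGCDMonoid R]
    {Q : Polynomial R} (hQ : Squarefree Q) (h0 : Q ≠ 0) :
    Squarefree (Q.map (algebraMap R (FractionRing R))) := by
  set K := FractionRing R
  have hinj : Function.Injective (algebraMap R K) := IsFractionRing.injective R K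
  have hQ0 : Q.map (algebraMap R K) ≠ 0 := by
    rwa [Ne, Polynomial.map_eq_zero_iff hinj]
  intro p hp
  have hp0 : p ≠ 0 := by
    rintro rfl
    rw [mul_zero, zero_dvd_iff] at hp
    exact hQ0 hp
  set g := IsLocalization.integerNormalization R⁰ p with hg
  obtain ⟨c, c0, hc⟩ := IsLocalization.integerNormalization_spec R⁰ p
  have hc' : g.map (algebraMap R K) = Polynomial.C (algebraMap R K c) * p := by
    rw [hg, hc, Algebra.smul_def]
    rfl
  have hcu : IsUnit (Polynomial.C (algebraMap R K c)) := by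
    rw [Polynomial.isUnit_C, isUnit_iff_ne_zero]
    exact fun h => (nonZeroDivisors.ne_zero c0) ((injective_iff_map_eq_zero _).1 hinj _ h)
  have hpd : g.primPart.map (algebraMap R K) ∣ p := by
    have h1 : g.primPart.map (algebraMap R K) ∣ g.map (algebraMap R K) :=
      Polynomial.map_dvd _ (Polynomial.primPart_dvd g)
    rw [hc'] at h1
    exact (hcu.dvd_mul_left).1 h1
  have hprim : (g.primPart * g.primPart).IsPrimitive :=
    (Polynomial.isPrimitive_primPart g).mul (Polynomial.isPrimitive_primPart g)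
  have hdvd : g.primPart * g.primPart ∣ Q := by
    refine hprim.dvd_of_fraction_map_dvd_fraction_map (K := K) ?_
    rw [Polynomial.map_mul]
    exact (mul_dvd_mul hpd hpd).trans hp
  exact Polynomial.isUnit_or_eq_zero_of_isUnit_integerNormalization_primPart hp0 (hQ _ hdvd)

/-- Over a unique factorization domain of characteristic zero a squarefree polynomial and its
derivative have a nonzero resultant. -/
private lemma resultant_ne {R : Type*} [CommRing R] [IsDomain R] [UniqueFactorizationMonoid R]
    [CharZero R] {Q : Polynomial R} (hQ : Squarefree Q) (h0 : Q ≠ 0) :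
    Q.resultant (Polynomial.derivative Q) ≠ 0 := by
  have hne : Nonempty (NormalizedGCDMonoid R) := inferInstance
  obtain ⟨inst⟩ := hne
  have hinj : Function.Injective (algebraMap R (FractionRing R)) :=
    IsFractionRing.injective R (FractionRing R)
  have hsq := squarefree_map hQ h0
  have : CharZero (FractionRing R) := by
    refine ⟨fun a b hab => ?_⟩
    have h1 : algebraMap R (FractionRing R) (a : R) = algebraMap R (FractionRing R) (b : R) := by
      simpa using hab
    exact_mod_cast hinj h1
  have hsep : (Q.map (algebraMap R (FractionRing R))).Separable :=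
    PerfectField.separable_iff_squarefree.2 hsq
  have hcop : IsCoprime (Q.map (algebraMap R (FractionRing R)))
      ((Polynomial.derivative Q).map (algebraMap R (FractionRing R))) := by
    rw [← Polynomial.derivative_map]
    exact hsep
  have h1 := Polynomial.resultant_ne_zero _ _ hcop
  rw [Polynomial.natDegree_map_eq_of_injective hinj, Polynomial.natDegree_map_eq_of_injective hinj,
    Polynomial.resultant_map_map] at h1
  exact fun h => h1 (by rw [h, map_zero])

/-- Squarefree parts of a finite family of nonzero elements. -/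
private lemma exists_radical {M : Type*} [CommRing M] [IsDomain M] [UniqueFactorizationMonoid M]
    {ι : Type*} (s : Finset ι) (a : ι → M) (ha : ∀ i ∈ s, a i ≠ 0) :
    ∃ Q : M, Squarefree Q ∧ Q ∣ ∏ i ∈ s, a i ∧
      ∀ i ∈ s, ∃ g h, Q = g * h ∧ g ∣ a i ∧ ∃ n, a i ∣ g ^ n := by
  have hne : Nonempty (NormalizationMonoid M) := inferInstance
  obtain ⟨inst⟩ := hne
  have hP : ∏ i ∈ s, a i ≠ 0 := Finset.prod_ne_zero_iff.2 ha
  refine ⟨UniqueFactorizationMonoid.radical (∏ i ∈ s, a i),
    UniqueFactorizationMonoid.squarefree_radical, UniqueFactorizationMonoid.radical_dvd_self,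
    fun i hi => ?_⟩
  obtain ⟨h, hh⟩ := UniqueFactorizationMonoid.radical_dvd_radical (Finset.dvd_prod_of_mem a hi) hP
  exact ⟨_, h, hh, UniqueFactorizationMonoid.radical_dvd_self,
    UniqueFactorizationMonoid.exists_dvd_radical_self_pow (ha i hi)⟩

/-- The total degree of a determinant. -/
private lemma totalDegree_det_le {σ : Type*} {n N : ℕ} (A : Matrix (Fin n) (Fin n) (MvPolynomial σ ℝ))
    (hA : ∀ i j, (A i j).totalDegree ≤ N) : A.det.totalDegree ≤ n * N := by
  rw [Matrix.det_apply']
  refine (totalDegree_finsetSum _ _).trans (Finset.sup_le fun τ _ => ?_)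
  have h1 : (((Equiv.Perm.sign τ : ℤ) : MvPolynomial σ ℝ)).totalDegree = 0 := by
    have h : (((Equiv.Perm.sign τ : ℤ) : MvPolynomial σ ℝ)) = C (((Equiv.Perm.sign τ : ℤ) : ℝ)) := by
      simp
    rw [h, totalDegree_C]
  refine (totalDegree_mul _ _).trans ?_
  rw [h1, zero_add]
  refine (totalDegree_finsetProd _ _).trans ?_
  refine (Finset.sum_le_sum fun i _ => hA (τ i) i).trans ?_
  simp

/-- Total degree of the polynomial in one more variable. -/
private lemma symm_C {D : ℕ} (a : MvPolynomial (Fin D) ℝ) :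
    (finSuccEquiv ℝ D).symm (Polynomial.C a) = rename Fin.succ a := by
  rw [AlgEquiv.symm_apply_eq]
  induction a using MvPolynomial.induction_on with
  | C r => simp [finSuccEquiv_apply]
  | add p q hp hq => rw [map_add, map_add, map_add, hp, hq]
  | mul_X p i hp => rw [map_mul, map_mul, map_mul, hp, rename_X, finSuccEquiv_X_succ]

private lemma symm_X {D : ℕ} :
    (finSuccEquiv ℝ D).symm Polynomial.X = X 0 := by
  rw [AlgEquiv.symm_apply_eq, finSuccEquiv_X_zero]

private lemma totalDegree_symm_le {D b : ℕ} (A : Polynomial (MvPolynomial (Fin D) ℝ))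
    (h1 : A.natDegree ≤ b) (h2 : ∀ l, (A.coeff l).totalDegree ≤ b) :
    ((finSuccEquiv ℝ D).symm A).totalDegree ≤ 2 * b := by
  rw [A.as_sum_range_C_mul_X_pow, map_sum]
  refine (totalDegree_finsetSum _ _).trans (Finset.sup_le fun l hl => ?_)
  rw [map_mul, map_pow, symm_C, symm_X]
  refine (totalDegree_mul _ _).trans ?_
  have h3 := (totalDegree_rename_le Fin.succ (A.coeff l)).trans (h2 l)
  have h4 : ((X 0 : MvPolynomial (Fin (D + 1)) ℝ) ^ l).totalDegree ≤ l := by
    refine (totalDegree_pow _ _).trans ?_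
    simp
  have h5 : l ≤ A.natDegree := by
    rw [Finset.mem_range] at hl
    omega
  omega

private lemma of_symm {D : ℕ} {N : ℕ} (A : Polynomial (MvPolynomial (Fin D) ℝ))
    (h : ((finSuccEquiv ℝ D).symm A).totalDegree ≤ N) :
    A.natDegree ≤ N ∧ ∀ l, (A.coeff l).totalDegree ≤ N := by
  set f := (finSuccEquiv ℝ D).symm A with hf
  have hA : A = finSuccEquiv ℝ D f := by rw [hf, AlgEquiv.apply_symm_apply]
  refine ⟨?_, fun l => ?_⟩
  · rw [hA, natDegree_finSuccEquiv]
    exact (degreeOf_le_totalDegree f 0).trans h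
  · by_cases h0 : (finSuccEquiv ℝ D f).coeff l = 0
    · rw [hA, h0, totalDegree_zero]
      exact Nat.zero_le _
    · rw [hA]
      have := totalDegree_coeff_finSuccEquiv_add_le f l h0
      omega

private lemma evalAt_mul {D : ℕ} (A B : Polynomial (MvPolynomial (Fin D) ℝ)) (x : Fin D → ℝ)
    (y : ℝ) : evalAt (A * B) x y = evalAt A x y * evalAt B x y := by
  simp [evalAt]

private lemma evalAt_pow {D : ℕ} (A : Polynomial (MvPolynomial (Fin D) ℝ)) (n : ℕ) (x : Fin D → ℝ)
    (y : ℝ) : evalAt (A ^ n) x y = evalAt A x y ^ n := by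
  simp [evalAt]

/-- Algebraic part of the delineability lemma: a polynomial `Q` with simple roots off the zero set
of `B`, such that every nonzero `G i` has the same zeros as a factor of `Q`. -/
theorem rc_alg (D b r : ℕ) : ∃ β : ℕ, ∀ G : Fin r → Polynomial (MvPolynomial (Fin D) ℝ),
    (∀ i, (G i).natDegree ≤ b ∧ ∀ l, ((G i).coeff l).totalDegree ≤ b) →
    ∃ (Q : Polynomial (MvPolynomial (Fin D) ℝ)) (B : MvPolynomial (Fin D) ℝ),
      B ≠ 0 ∧ B.totalDegree ≤ β ∧
      (∀ x, eval x B ≠ 0 → eval x Q.leadingCoeff ≠ 0 ∧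
        ∀ y, evalAt Q x y = 0 → evalAt (Polynomial.derivative Q) x y ≠ 0) ∧
      ∀ i, G i ≠ 0 → ∃ g h, Q = g * h ∧ ∀ x y, evalAt g x y = 0 ↔ evalAt (G i) x y = 0 := by
  classical
  set N := r * (2 * b) with hN
  refine ⟨(N + N) * N + N, fun G hG => ?_⟩
  set s : Finset (Fin r) := Finset.univ.filter fun i => G i ≠ 0 with hs
  have hs0 : ∀ i ∈ s, G i ≠ 0 := fun i hi => (Finset.mem_filter.1 hi).2
  obtain ⟨Q, hQsq, hQd, hQf⟩ := exists_radical s G hs0
  have hP0 : ∏ i ∈ s, G i ≠ 0 := Finset.prod_ne_zero_iff.2 hs0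
  have hQ0 : Q ≠ 0 := fun h => hP0 (zero_dvd_iff.1 (h ▸ hQd))
  -- degrees
  have hPd : ((finSuccEquiv ℝ D).symm (∏ i ∈ s, G i)).totalDegree ≤ N := by
    rw [map_prod]
    refine (totalDegree_finsetProd _ _).trans ?_
    refine (Finset.sum_le_sum fun i _ => totalDegree_symm_le (G i) (hG i).1 (hG i).2).trans ?_
    rw [Finset.sum_const, smul_eq_mul, hN]
    refine Nat.mul_le_mul_right _ ?_
    simpa using Finset.card_le_univ s
  have hQdeg : ((finSuccEquiv ℝ D).symm Q).totalDegree ≤ N := by
    refine (totalDegree_le_of_dvd_of_isDomain (map_dvd (finSuccEquiv ℝ D).symm hQd) ?_).trans hPd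
    rwa [Ne, EmbeddingLike.map_eq_zero_iff]
  obtain ⟨hQn, hQc⟩ := of_symm Q hQdeg
  have hQ'n : (Polynomial.derivative Q).natDegree ≤ N :=
    (Polynomial.natDegree_derivative_le Q).trans ((Nat.sub_le _ _).trans hQn)
  have hQ'c : ∀ l, ((Polynomial.derivative Q).coeff l).totalDegree ≤ N := by
    intro l
    rw [Polynomial.coeff_derivative]
    refine (totalDegree_mul _ _).trans ?_
    have h : (((l : MvPolynomial (Fin D) ℝ) + 1)).totalDegree = 0 := by
      have h' : ((l : MvPolynomial (Fin D) ℝ) + 1) = C ((l : ℝ) + 1) := by simp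
      rw [h', totalDegree_C]
    rw [h, add_zero]
    exact hQc _
  set ρ := Q.resultant (Polynomial.derivative Q) with hρ
  have hρ0 : ρ ≠ 0 := resultant_ne hQsq hQ0
  have hρd : ρ.totalDegree ≤ (N + N) * N := by
    have h1 : ρ.totalDegree ≤ (Q.natDegree + (Polynomial.derivative Q).natDegree) * N := by
      rw [hρ, Polynomial.resultant]
      refine totalDegree_det_le _ fun i j => ?_
      rw [Polynomial.sylvester]
      refine Fin.addCases (fun j => ?_) (fun j => ?_) j
      · simp only [Matrix.of_apply, Fin.addCases_left]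
        split_ifs
        · exact hQ'c _
        · simp
      · simp only [Matrix.of_apply, Fin.addCases_right]
        split_ifs
        · exact hQc _
        · simp
    exact h1.trans (Nat.mul_le_mul_right _ (Nat.add_le_add hQn hQ'n))
  refine ⟨Q, ρ * Q.leadingCoeff, mul_ne_zero hρ0 (Polynomial.leadingCoeff_ne_zero.2 hQ0), ?_, ?_, ?_⟩
  · exact (totalDegree_mul _ _).trans (Nat.add_le_add hρd (hQc _))
  · intro x hx
    rw [map_mul] at hx
    refine ⟨right_ne_zero_of_mul hx, fun y hy hy' => left_ne_zero_of_mul hx ?_⟩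
    by_cases hn : Q.natDegree = 0
    · exfalso
      apply right_ne_zero_of_mul hx
      rw [Polynomial.eq_C_of_natDegree_eq_zero hn] at hy
      simpa [evalAt, Polynomial.leadingCoeff, hn] using hy
    · obtain ⟨U, V, -, -, hUV⟩ := Polynomial.exists_mul_add_mul_eq_C_resultant Q
        (Polynomial.derivative Q) le_rfl le_rfl (Or.inl hn)
      have h := congrArg (fun A => evalAt A x y) hUV
      simp only [evalAt, Polynomial.map_add, Polynomial.map_mul, Polynomial.eval_add,
        Polynomial.eval_mul, Polynomial.map_C, Polynomial.eval_C] at h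
      rw [evalAt] at hy hy'
      rw [hy, hy', zero_mul, zero_mul, add_zero] at h
      exact h.symm
  · intro i hi
    obtain ⟨g, h, hQgh, hgd, n, hn⟩ := hQf i (Finset.mem_filter.2 ⟨Finset.mem_univ _, hi⟩)
    refine ⟨g, h, hQgh, fun x y => ⟨fun h0 => ?_, fun h0 => ?_⟩⟩
    · obtain ⟨k, hk⟩ := hgd
      rw [hk, evalAt_mul, h0, zero_mul]
    · obtain ⟨k, hk⟩ := hn
      have h1 : evalAt g x y ^ n = 0 := by
        rw [← evalAt_pow, hk, evalAt_mul, h0, zero_mul]
      exact eq_zero_of_pow_eq_zero h1

end Pool.Agent.MP_5a1161_co
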