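import Pool.Agent.Lib.MP_5a1161_co_h27.Defs
import Pool.Agent.Lib.Warren46.Cells

set_option autoImplicit false

namespace Pool.Agent.MP_5a1161_co

open MvPolynomial Topology

/-- A function that is locally constant off the zero set of a polynomial of degree `Δ` in `D`
variables takes at most `(D * (Δ + 2) + 1) ^ D` values. -/
theorem card_locally_const (D Δ : ℕ) (f : MvPolynomial (Fin D) ℝ) (hf : f.totalDegree ≤ Δ)
    {α : Type*} (h : (Fin D → ℝ) → α)
    (hloc : ∀ x, eval x f ≠ 0 → ∀ᶠ z in 𝓝 x, h z = h x)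
    (S : Finset (Fin D → ℝ)) (hS : ∀ x ∈ S, eval x f ≠ 0) (hinj : Set.InjOn h S) :
    S.card ≤ (D * (Δ + 2) + 1) ^ D := by
  classical
  set R : ℝ := 1 + ∑ x ∈ S, ‖x‖ with hR
  have hR0 : 0 < R := by
    have : 0 ≤ ∑ x ∈ S, ‖x‖ := Finset.sum_nonneg fun x _ => norm_nonneg x
    linarith
  have hSR : ∀ x ∈ S, ∀ i, |x i| < R := by
    intro x hx i
    have h1 : |x i| ≤ ‖x‖ := norm_le_pi_norm x i
    have h2 : ‖x‖ ≤ ∑ x ∈ S, ‖x‖ :=
      Finset.single_le_sum (f := fun x : Fin D → ℝ => ‖x‖) (fun x _ => norm_nonneg x) hx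
    linarith
  set Q : MvPolynomial (Fin D) ℝ := f * ∏ i, (C (R ^ 2) - X i ^ 2) with hQdef
  have hdeg : ∀ j, degreeOf j Q ≤ Δ + 2 := by
    intro j
    refine (degreeOf_mul_le j _ _).trans (add_le_add ((degreeOf_le_totalDegree f j).trans hf) ?_)
    refine (degreeOf_prod_le j _ _).trans ?_
    have h1 : ∀ i ∈ (Finset.univ : Finset (Fin D)),
        degreeOf j (C (R ^ 2) - X i ^ 2 : MvPolynomial (Fin D) ℝ) ≤ if i = j then 2 else 0 := by
      intro i _
      refine (degreeOf_sub_le j _ _).trans ?_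
      rw [degreeOf_C]
      refine max_le (Nat.zero_le _) ?_
      refine (degreeOf_pow_le j _ _).trans ?_
      by_cases hij : i = j
      · subst hij
        simp
      · rw [degreeOf_X, if_neg (fun h => hij h.symm)]
        simp
    refine (Finset.sum_le_sum h1).trans ?_
    simp
  have hQev : ∀ z, eval z Q = eval z f * ∏ i, (R ^ 2 - z i ^ 2) := by
    intro z
    simp [hQdef, map_prod]
  let T : {x // x ∈ S} → Set (Fin D → ℝ) := fun x =>
    {z | (∀ i, |z i| < R) ∧ eval z f ≠ 0 ∧ h z = h x.1}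
  have hcont : Continuous fun z : Fin D → ℝ => eval z f := MvPolynomial.continuous_eval f
  have key := Pool.Agent.Warren46.card_cells (K := {x // x ∈ S}) Q (Δ + 2) hdeg T ?_ ?_ ?_ ?_ ?_ ?_
  · simpa using key
  · rintro ⟨x, hx⟩
    exact ⟨x, hSR x hx, hS x hx, rfl⟩
  · rintro ⟨x, hx⟩
    rw [isOpen_iff_mem_nhds]
    rintro z ⟨hz1, hz2, hz3⟩
    have e1 : ∀ᶠ y in 𝓝 z, ∀ i, |y i| < R := by
      rw [Filter.eventually_all]
      intro i
      have hc : Continuous fun y : Fin D → ℝ => |y i| := (continuous_apply i).abs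
      exact hc.continuousAt.eventually (gt_mem_nhds (hz1 i))
    have e2 : ∀ᶠ y in 𝓝 z, eval y f ≠ 0 := hcont.continuousAt.eventually_ne hz2
    have e3 := hloc z hz2
    filter_upwards [e1, e2, e3] with y h1 h2 h3
    exact ⟨h1, h2, h3.trans hz3⟩
  · rintro ⟨x, hx⟩
    refine (Metric.isBounded_closedBall (x := (0 : Fin D → ℝ)) (r := R)).subset ?_
    rintro z ⟨hz1, -, -⟩
    rw [mem_closedBall_zero_iff, pi_norm_le_iff_of_nonneg hR0.le]
    intro i
    exact (hz1 i).le
  · rintro ⟨x, hx⟩ ⟨y, hy⟩ hne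
    rw [Set.disjoint_left]
    rintro z ⟨-, -, h1⟩ ⟨-, -, h2⟩
    apply hne
    have : x = y := hinj hx hy (h1.symm.trans h2)
    exact Subtype.ext this
  · rintro ⟨x, hx⟩ z ⟨hz1, hz2, -⟩
    rw [hQev]
    refine mul_ne_zero hz2 (Finset.prod_ne_zero_iff.mpr fun i _ => ?_)
    have : z i ^ 2 < R ^ 2 := by
      rw [← sq_abs (z i)]
      exact pow_lt_pow_left₀ (hz1 i) (abs_nonneg _) (by norm_num)
    exact ne_of_gt (by linarith)
  · rintro ⟨x, hx⟩ z hz hzQ
    rw [hQev] at hzQ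
    have hzf : eval z f ≠ 0 := left_ne_zero_of_mul hzQ
    have hzp : ∀ i, R ^ 2 - z i ^ 2 ≠ 0 := fun i =>
      Finset.prod_ne_zero_iff.mp (right_ne_zero_of_mul hzQ) i (Finset.mem_univ i)
    refine ⟨fun i => ?_, hzf, ?_⟩
    · have hle : |z i| ≤ R := by
        have hcl : IsClosed {y : Fin D → ℝ | |y i| ≤ R} :=
          isClosed_le (continuous_apply i).abs continuous_const
        have hsub : T ⟨x, hx⟩ ⊆ {y : Fin D → ℝ | |y i| ≤ R} := fun y hy => (hy.1 i).le
        exact closure_minimal hsub hcl hz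
      refine lt_of_le_of_ne hle fun he => hzp i ?_
      rw [← sq_abs (z i), he, sub_self]
    · obtain ⟨y, hy1, hy2⟩ := (mem_closure_iff_frequently.mp hz).and_eventually
        (hloc z hzf) |>.exists
      exact hy2.symm.trans hy1.2.2

end Pool.Agent.MP_5a1161_co
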